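import Mathlib

set_option autoImplicit false

namespace Pool.Agent.Helper27

open Finset

/-- The 3x+1 map. -/
def T (n : ℕ) : ℕ := if n % 2 = 0 then n / 2 else (3 * n + 1) / 2

/-- Number of odd terms among the first `k` iterates. -/
def J : ℕ → ℕ → ℕ
  | 0, _ => 0
  | (k + 1), n => n % 2 + J k (T n)

/-- The additive constant of the affine form of the `k`-th iterate. -/
def c : ℕ → ℕ → ℕ
  | 0, _ => 0
  | (k + 1), n => 3 ^ (J k (T n)) * (n % 2) + 2 * c k (T n)

/-- Bernoulli weight of the first `k` parities of `n`. -/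
noncomputable def P (r : ℝ) : ℕ → ℕ → ℝ
  | 0, _ => 1
  | (k + 1), n => (if n % 2 = 0 then 1 - r else r) * P r k (T n)

theorem two_mul_T (n : ℕ) : 2 * T n = 3 ^ (n % 2) * n + n % 2 := by
  unfold T
  rcases Nat.mod_two_eq_zero_or_one n with h | h
  · simp [h]; omega
  · simp [h]; omega

theorem affine (k n : ℕ) : 2 ^ k * T^[k] n = 3 ^ (J k n) * n + c k n := by
  induction k generalizing n with
  | zero => simp [J, c]
  | succ k ih =>
    rw [Function.iterate_succ_apply, pow_succ, J, c]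
    have h1 := ih (T n)
    have h2 := two_mul_T n
    calc 2 ^ k * 2 * T^[k] (T n) = 2 * (2 ^ k * T^[k] (T n)) := by ring
      _ = 2 * (3 ^ (J k (T n)) * T n + c k (T n)) := by rw [h1]
      _ = 3 ^ (J k (T n)) * (2 * T n) + 2 * c k (T n) := by ring
      _ = 3 ^ (J k (T n)) * (3 ^ (n % 2) * n + n % 2) + 2 * c k (T n) := by rw [h2]
      _ = 3 ^ (n % 2 + J k (T n)) * n + (3 ^ (J k (T n)) * (n % 2) + 2 * c k (T n)) := by
        rw [pow_add]; ring

theorem T_add (n m : ℕ) : T (n + 2 * m) = T n + 3 ^ (n % 2) * m := by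
  have h1 := two_mul_T n
  have h2 := two_mul_T (n + 2 * m)
  have h3 : (n + 2 * m) % 2 = n % 2 := by omega
  rw [h3] at h2
  have : 2 * T (n + 2 * m) = 2 * (T n + 3 ^ (n % 2) * m) := by
    rw [h2, mul_add 2, h1]; ring
  omega

theorem J_add_mul (k n t : ℕ) : J k (n + 2 ^ k * t) = J k n := by
  induction k generalizing n t with
  | zero => simp [J]
  | succ k ih =>
    have h3 : (n + 2 ^ (k + 1) * t) % 2 = n % 2 := by
      rw [show 2 ^ (k + 1) * t = 2 * (2 ^ k * t) by ring]; omega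
    have h4 : T (n + 2 ^ (k + 1) * t) = T n + 2 ^ k * (3 ^ (n % 2) * t) := by
      have : 2 ^ (k + 1) * t = 2 * (2 ^ k * t) := by ring
      rw [this, T_add]; ring
    rw [J, J, h3, h4, ih]

theorem c_add_mul (k n t : ℕ) : c k (n + 2 ^ k * t) = c k n := by
  induction k generalizing n t with
  | zero => simp [c]
  | succ k ih =>
    have h3 : (n + 2 ^ (k + 1) * t) % 2 = n % 2 := by
      rw [show 2 ^ (k + 1) * t = 2 * (2 ^ k * t) by ring]; omega
    have h4 : T (n + 2 ^ (k + 1) * t) = T n + 2 ^ k * (3 ^ (n % 2) * t) := by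
      have : 2 ^ (k + 1) * t = 2 * (2 ^ k * t) := by ring
      rw [this, T_add]; ring
    rw [c, c, h3, h4, ih, J_add_mul]

theorem P_add_mul (r : ℝ) (k n t : ℕ) : P r k (n + 2 ^ k * t) = P r k n := by
  induction k generalizing n t with
  | zero => simp [P]
  | succ k ih =>
    have h3 : (n + 2 ^ (k + 1) * t) % 2 = n % 2 := by
      rw [show 2 ^ (k + 1) * t = 2 * (2 ^ k * t) by ring]; omega
    have h4 : T (n + 2 ^ (k + 1) * t) = T n + 2 ^ k * (3 ^ (n % 2) * t) := by
      have : 2 ^ (k + 1) * t = 2 * (2 ^ k * t) := by ring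
      rw [this, T_add]; ring
    rw [P, P, h3, h4, ih]

theorem iter_add_mul (k n t : ℕ) : T^[k] (n + 2 ^ k * t) = T^[k] n + 3 ^ (J k n) * t := by
  have h1 := affine k (n + 2 ^ k * t)
  have h2 := affine k n
  rw [J_add_mul, c_add_mul] at h1
  have : 2 ^ k * T^[k] (n + 2 ^ k * t) = 2 ^ k * (T^[k] n + 3 ^ (J k n) * t) := by
    rw [h1, mul_add (2 ^ k), h2]; ring
  exact Nat.eq_of_mul_eq_mul_left (by positivity) this

theorem J_mod (k n : ℕ) : J k (n % 2 ^ k) = J k n := by
  conv_rhs => rw [← Nat.mod_add_div n (2 ^ k)]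
  rw [J_add_mul]

theorem c_mod (k n : ℕ) : c k (n % 2 ^ k) = c k n := by
  conv_rhs => rw [← Nat.mod_add_div n (2 ^ k)]
  rw [c_add_mul]

theorem P_mod (r : ℝ) (k n : ℕ) : P r k (n % 2 ^ k) = P r k n := by
  conv_rhs => rw [← Nat.mod_add_div n (2 ^ k)]
  rw [P_add_mul]

theorem J_add (k l n : ℕ) : J (k + l) n = J k n + J l (T^[k] n) := by
  induction k generalizing n with
  | zero => simp [J]
  | succ k ih =>
    rw [show k + 1 + l = (k + l) + 1 by ring, J, J, ih, Function.iterate_succ_apply]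
    ring

theorem c_add (k l n : ℕ) :
    c (k + l) n = 3 ^ (J l (T^[k] n)) * c k n + 2 ^ k * c l (T^[k] n) := by
  induction k generalizing n with
  | zero => simp [c]
  | succ k ih =>
    rw [show k + 1 + l = (k + l) + 1 by ring, c, c, ih, Function.iterate_succ_apply, J_add]
    rw [pow_add, pow_succ]
    ring

theorem P_add (r : ℝ) (k l n : ℕ) : P r (k + l) n = P r k n * P r l (T^[k] n) := by
  induction k generalizing n with
  | zero => simp [P]
  | succ k ih =>
    rw [show k + 1 + l = (k + l) + 1 by ring, P, P, ih, Function.iterate_succ_apply]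
    ring

theorem J_le (k n : ℕ) : J k n ≤ k := by
  induction k generalizing n with
  | zero => simp [J]
  | succ k ih =>
    rw [J]
    have := ih (T n)
    omega

theorem c_bound (k n : ℕ) : c k n + 2 ^ k ≤ 3 ^ k := by
  induction k generalizing n with
  | zero => simp [c]
  | succ k ih =>
    rw [c]
    have h1 := ih (T n)
    have h2 : 3 ^ (J k (T n)) * (n % 2) ≤ 3 ^ k := by
      have : 3 ^ (J k (T n)) ≤ 3 ^ k := Nat.pow_le_pow_right (by norm_num) (J_le _ _)
      have h3 : n % 2 ≤ 1 := by omega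
      calc 3 ^ (J k (T n)) * (n % 2) ≤ 3 ^ k * 1 := Nat.mul_le_mul this h3
        _ = 3 ^ k := by ring
    rw [pow_succ, pow_succ]
    omega

theorem iter_lt (k n : ℕ) (h : n < 2 ^ k) : T^[k] n < 3 ^ (J k n) := by
  induction k generalizing n with
  | zero => simp [J]; simpa using h
  | succ k ih =>
    rw [Function.iterate_succ_apply, J]
    have hT : T n < 3 ^ (n % 2) * 2 ^ k := by
      have := two_mul_T n
      rcases Nat.mod_two_eq_zero_or_one n with h' | h'
      · rw [h'] at this ⊢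
        rw [pow_succ] at h
        simp at this ⊢
        omega
      · rw [h'] at this ⊢
        rw [pow_succ] at h
        simp at this ⊢
        omega
    have hd := Nat.mod_add_div (T n) (2 ^ k)
    have hpos : 0 < 2 ^ k := by positivity
    have hlt : T n % 2 ^ k < 2 ^ k := Nat.mod_lt _ hpos
    have hq : T n / 2 ^ k < 3 ^ (n % 2) := Nat.div_lt_of_lt_mul (by rw [mul_comm]; exact hT)
    have h1 := ih _ hlt
    rw [J_mod] at h1
    have h2 : T^[k] (T n) = T^[k] (T n % 2 ^ k) + 3 ^ (J k (T n)) * (T n / 2 ^ k) := by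
      conv_lhs => rw [← hd]
      rw [iter_add_mul, J_mod]
    rw [h2, pow_add]
    calc T^[k] (T n % 2 ^ k) + 3 ^ (J k (T n)) * (T n / 2 ^ k)
        < 3 ^ (J k (T n)) + 3 ^ (J k (T n)) * (T n / 2 ^ k) := by omega
      _ = 3 ^ (J k (T n)) * (T n / 2 ^ k + 1) := by ring
      _ ≤ 3 ^ (J k (T n)) * 3 ^ (n % 2) := Nat.mul_le_mul_left _ hq
      _ = 3 ^ (n % 2) * 3 ^ (J k (T n)) := by ring

/-- The splitting map is a bijection. -/
theorem sum_split {M : Type*} [AddCommMonoid M] (k l : ℕ) (F : ℕ → ℕ → M) :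
    ∑ n ∈ range (2 ^ (k + l)), F (n % 2 ^ k) (T^[k] n % 2 ^ l) =
      ∑ u ∈ range (2 ^ k), ∑ w ∈ range (2 ^ l), F u w := by
  rw [← Finset.sum_product']
  have hinj : Set.InjOn (fun n : ℕ => (n % 2 ^ k, T^[k] n % 2 ^ l)) (range (2 ^ (k + l)) : Set ℕ) := by
    intro a ha b hb hab
    simp only [coe_range, Set.mem_Iio, Prod.mk.injEq] at ha hb hab
    obtain ⟨h1, h2⟩ := hab
    have ea := Nat.mod_add_div a (2 ^ k)
    have eb := Nat.mod_add_div b (2 ^ k)
    rw [← ea, ← eb, iter_add_mul, iter_add_mul, h1] at h2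
    have h4 : 3 ^ J k (b % 2 ^ k) * (a / 2 ^ k) ≡ 3 ^ J k (b % 2 ^ k) * (b / 2 ^ k) [MOD 2 ^ l] :=
      Nat.ModEq.add_left_cancel' _ h2
    have h5 : (a / 2 ^ k) ≡ (b / 2 ^ k) [MOD 2 ^ l] := by
      apply Nat.ModEq.cancel_left_of_coprime _ h4
      rw [Nat.coprime_iff_gcd_eq_one.symm]
      exact Nat.Coprime.pow _ _ (by norm_num)
    have h6 : a / 2 ^ k < 2 ^ l := Nat.div_lt_of_lt_mul (by rw [← pow_add]; exact ha)
    have h7 : b / 2 ^ k < 2 ^ l := Nat.div_lt_of_lt_mul (by rw [← pow_add]; exact hb)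
    have h8 : a / 2 ^ k = b / 2 ^ k := Nat.ModEq.eq_of_lt_of_lt h5 h6 h7
    rw [← ea, ← eb, h1, h8]
  have himg : (range (2 ^ (k + l))).image (fun n : ℕ => (n % 2 ^ k, T^[k] n % 2 ^ l)) =
      range (2 ^ k) ×ˢ range (2 ^ l) := by
    apply Finset.eq_of_subset_of_card_le
    · intro x hx
      simp only [mem_image, mem_range] at hx
      obtain ⟨n, hn, rfl⟩ := hx
      simp only [mem_product, mem_range]
      exact ⟨Nat.mod_lt _ (by positivity), Nat.mod_lt _ (by positivity)⟩
    · rw [Finset.card_image_of_injOn hinj, card_product, card_range, card_range, card_range, pow_add]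
  rw [← himg, Finset.sum_image hinj]

end Pool.Agent.Helper27
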