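import Pool.Agent.Helper27.Lq

set_option autoImplicit false

namespace Pool.Agent.Helper27

open Finset Real Filter Topology

theorem sum_zmod (N : ℕ) [NeZero N] (f : ZMod N → ℝ) :
    ∑ g, f g = ∑ y ∈ range N, f (y : ZMod N) := by
  symm
  apply Finset.sum_nbij' (i := fun (y : ℕ) => (y : ZMod N)) (j := fun (g : ZMod N) => ZMod.val g)
  · intro y _; exact Finset.mem_univ _
  · intro g _; exact mem_range.mpr (ZMod.val_lt g)
  · intro y hy; exact ZMod.val_cast_of_lt (mem_range.mp hy)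
  · intro g _; exact ZMod.natCast_zmod_val g
  · intro y _; rfl

theorem se_eq (r : ℝ) (L b : ℕ) : se r L b = ∑ y ∈ range (3 ^ b), negMulLog (pm r L b y) := by
  have e1 : se r L b = ent (slice L b) (P r L) (fun n => T^[L] n) b := by
    rw [← ent_mul_two_pow (slice L b) (P r L) (fun n => T^[L] n) b L]
    unfold se
    apply ent_congr
    intro i hi j hj
    have h : ∀ n ∈ slice L b, ((2 ^ L * T^[L] n : ℕ) : ZMod (3 ^ b)) = (c L n : ZMod (3 ^ b)) := by
      intro n hn
      rw [affine, slice_J hn, Nat.cast_add, Nat.cast_mul, ZMod.natCast_self, zero_mul, zero_add]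
    rw [h i hi, h j hj]
  rw [e1]
  unfold ent
  have : NeZero (3 ^ b) := ⟨by positivity⟩
  rw [sum_zmod]
  apply Finset.sum_congr rfl
  intro y hy
  congr 1
  unfold law pm
  apply Finset.sum_congr rfl
  intro n hn
  have : (((T^[L] n : ℕ) : ZMod (3 ^ b)) = (y : ZMod (3 ^ b))) ↔ T^[L] n = y := by
    rw [ZMod.natCast_eq_natCast_iff]
    constructor
    · intro h
      exact Nat.ModEq.eq_of_lt_of_lt h (slice_iter hn) (mem_range.mp hy)
    · intro h; rw [h]
  simp only [this]

theorem exp_neg_le_quad (x : ℝ) (hx : 0 ≤ x) : exp (-x) ≤ 1 - x + x ^ 2 := by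
  have h1 : 1 + x ≤ exp x := by linarith [Real.add_one_le_exp x]
  have h2 : 0 < 1 + x := by linarith
  rw [Real.exp_neg]
  calc (exp x)⁻¹ ≤ (1 + x)⁻¹ := inv_anti₀ h2 h1
    _ ≤ 1 - x + x ^ 2 := by
      rw [inv_le_iff_one_le_mul₀ h2]
      nlinarith [pow_nonneg hx 3]

theorem rpow_expand (x s : ℝ) (h0 : 0 ≤ x) (h1 : x ≤ 1) (hs : 0 ≤ s) :
    x ^ (1 + s) ≤ x - s * negMulLog x + s ^ 2 * (x * (log x) ^ 2) := by
  rcases h0.eq_or_lt with h | h
  · rw [← h, Real.zero_rpow (by linarith)]; simp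
  · have hl : log x ≤ 0 := Real.log_nonpos h0 h1
    have h2 := exp_neg_le_quad (-(s * log x)) (by nlinarith)
    rw [neg_neg] at h2
    have e : x ^ (1 + s) = x * exp (s * log x) := by
      rw [Real.rpow_add h, Real.rpow_one, Real.rpow_def_of_pos h]
      congr 2; ring
    rw [e]
    have h3 := mul_le_mul_of_nonneg_left h2 h0
    unfold negMulLog
    linarith

theorem Q_expand (r : ℝ) (h0 : 0 ≤ r) (h1 : r ≤ 1) (L : ℕ) :
    ∃ C : ℝ, 0 ≤ C ∧ ∀ s : ℝ, 0 ≤ s → Q r s L ≤ exp (-(s * EL r L) + s ^ 2 * C) := by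
  refine ⟨∑ j ∈ range (L + 1), ∑ y ∈ range (3 ^ j), pm r L j y * (log (pm r L j y)) ^ 2, ?_, ?_⟩
  · apply Finset.sum_nonneg; intro j _
    apply Finset.sum_nonneg; intro y _
    exact mul_nonneg (pm_nonneg r h0 h1 _ _ _) (sq_nonneg _)
  · intro s hs
    set C := ∑ j ∈ range (L + 1), ∑ y ∈ range (3 ^ j), pm r L j y * (log (pm r L j y)) ^ 2 with hC
    have e1 : Q r s L ≤ ∑ j ∈ range (L + 1), ∑ y ∈ range (3 ^ j),
        (pm r L j y - s * negMulLog (pm r L j y) + s ^ 2 * (pm r L j y * (log (pm r L j y)) ^ 2)) := by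
      unfold Q qs
      apply Finset.sum_le_sum; intro j _
      apply Finset.sum_le_sum; intro y _
      exact rpow_expand _ _ (pm_nonneg r h0 h1 _ _ _) (pm_le_one r h0 h1 _ _ _) hs
    simp only [Finset.sum_add_distrib, Finset.sum_sub_distrib, ← Finset.mul_sum] at e1
    simp only [sum_pm, sum_mass, ← se_eq] at e1
    have e2 : EL r L ≤ ∑ j ∈ range (L + 1), se r L j := by
      unfold EL
      apply Finset.sum_le_sum
      intro b hb
      have := nml_mass_nonneg r h0 h1 L b hb
      linarith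
    have e3 := mul_le_mul_of_nonneg_left e2 hs
    have e4 := Real.add_one_le_exp (-(s * EL r L) + s ^ 2 * C)
    rw [← hC] at e1
    linarith

theorem Q_pow (r s : ℝ) (h0 : 0 ≤ r) (h1 : r ≤ 1) (hs : 0 ≤ s) (L N : ℕ) (B : ℝ)
    (hB : ((L : ℝ) + 1) ^ s * Q r s L ≤ B) : Q r s (N * L) ≤ B ^ N := by
  have hB0 : 0 ≤ B := le_trans (mul_nonneg (by positivity) (Q_nonneg r s h0 h1 L)) hB
  induction N with
  | zero => simpa using Q_le_one r s h0 h1 hs 0
  | succ N ih =>
    have h := Q_submul r s h0 h1 hs (N * L) L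
    have e : (N + 1) * L = N * L + L := by ring
    rw [e]
    calc Q r s (N * L + L) ≤ ((L : ℝ) + 1) ^ s * (Q r s (N * L) * Q r s L) := h
      _ = Q r s (N * L) * (((L : ℝ) + 1) ^ s * Q r s L) := by ring
      _ ≤ B ^ N * B := mul_le_mul ih hB (mul_nonneg (by positivity) (Q_nonneg r s h0 h1 L)) (by positivity)
      _ = B ^ (N + 1) := by ring

/-- exponential decay of the power sums -/
theorem Q_decay (r : ℝ) (h0 : 0 < r) (h1 : r ≤ 1)
    (hr : r * log 3 ≤ negMulLog r + negMulLog (1 - r)) (ε : ℝ) (hε : 0 < ε) :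
    ∃ s : ℝ, 0 < s ∧ s ≤ 1 ∧ ∃ C : ℝ, 0 < C ∧ ∀ m : ℕ, Q r s m ≤ C * exp (-(s * m * (r * log 3 - ε))) := by
  set ε' := ε / 3 with hε'
  have hε'0 : 0 < ε' := by positivity
  obtain ⟨L, hL1, hL2, hL3⟩ := ((full_growth r h0 h1 hr ε' hε'0).and
    ((eventually_log_le ε' hε'0).and (eventually_ge_atTop 1))).exists
  have hL3' : (1:ℝ) ≤ L := by exact_mod_cast hL3
  obtain ⟨C, hC0, hC⟩ := Q_expand r h0.le h1 L
  set s := min 1 (ε' * L / (C + 1)) with hs
  have hs0 : 0 < s := lt_min one_pos (by positivity)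
  have hs1 : s ≤ 1 := min_le_left _ _
  have hsC : s * C ≤ ε' * L := by
    calc s * C ≤ ε' * L / (C + 1) * C := mul_le_mul_of_nonneg_right (min_le_right _ _) hC0
      _ ≤ ε' * L / (C + 1) * (C + 1) := by
          apply mul_le_mul_of_nonneg_left (by linarith); positivity
      _ = ε' * L := by field_simp
  set β := r * log 3 - ε with hβ
  refine ⟨s, hs0, hs1, exp (s * (log ((L : ℝ) + 1)) + s * L * |β|), Real.exp_pos _, ?_⟩
  intro m
  have hLpos : (0:ℝ) < (L : ℝ) + 1 := by positivity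
  have hB : ((L : ℝ) + 1) ^ s * Q r s L ≤ exp (-(s * L * β)) := by
    calc ((L : ℝ) + 1) ^ s * Q r s L ≤ ((L : ℝ) + 1) ^ s * exp (-(s * EL r L) + s ^ 2 * C) :=
          mul_le_mul_of_nonneg_left (hC s hs0.le) (by positivity)
      _ = exp (log ((L : ℝ) + 1) * s + (-(s * EL r L) + s ^ 2 * C)) := by
          rw [Real.rpow_def_of_pos hLpos, ← Real.exp_add]
      _ ≤ exp (-(s * L * β)) := by
          apply Real.exp_le_exp.mpr
          have a1 := mul_le_mul_of_nonneg_left hL1 hs0.le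
          have a2 := mul_le_mul_of_nonneg_left hL2 hs0.le
          have a3 := mul_le_mul_of_nonneg_left hsC hs0.le
          have a4 : ε = 3 * ε' := by rw [hε']; ring
          rw [hβ, a4]
          nlinarith
  have hN := Q_pow r s h0.le h1 hs0.le L (m / L) _ hB
  have hm : m = m / L * L + m % L := by
    have := Nat.div_add_mod m L
    rw [mul_comm] at this
    exact this.symm
  have hρ : m % L < L := Nat.mod_lt _ hL3
  have hsub := Q_submul r s h0.le h1 hs0.le (m / L * L) (m % L)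
  rw [← hm] at hsub
  have b1 : (((m % L : ℕ) : ℝ) + 1) ^ s ≤ ((L : ℝ) + 1) ^ s := by
    apply Real.rpow_le_rpow (by positivity) _ hs0.le
    have : ((m % L : ℕ) : ℝ) ≤ L := by exact_mod_cast hρ.le
    linarith
  have b2 := Q_le_one r s h0.le h1 hs0.le (m % L)
  have b3 := Q_nonneg r s h0.le h1 (m % L)
  have b4 := Q_nonneg r s h0.le h1 (m / L * L)
  calc Q r s m ≤ (((m % L : ℕ) : ℝ) + 1) ^ s * (Q r s (m / L * L) * Q r s (m % L)) := hsub
    _ ≤ ((L : ℝ) + 1) ^ s * (exp (-(s * L * β)) ^ (m / L) * 1) := by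
        apply mul_le_mul b1 _ (mul_nonneg b4 b3) (by positivity)
        exact mul_le_mul hN b2 b3 (by positivity)
    _ = exp (log ((L : ℝ) + 1) * s + ((m / L : ℕ) : ℝ) * (-(s * L * β))) := by
        rw [Real.rpow_def_of_pos hLpos, mul_one, ← Real.exp_nat_mul, ← Real.exp_add]
    _ ≤ exp ((s * (log ((L : ℝ) + 1)) + s * L * |β|) + -(s * m * β)) := by
        apply Real.exp_le_exp.mpr
        have hmr : (m : ℝ) = ((m / L : ℕ) : ℝ) * L + ((m % L : ℕ) : ℝ) := by exact_mod_cast hm
        have h5 : ((m % L : ℕ) : ℝ) ≤ L := by exact_mod_cast hρ.le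
        have h6 : (0:ℝ) ≤ ((m % L : ℕ) : ℝ) := Nat.cast_nonneg _
        have h7 : s * ((m % L : ℕ) : ℝ) * β ≤ s * L * |β| := by
          calc s * ((m % L : ℕ) : ℝ) * β ≤ s * ((m % L : ℕ) : ℝ) * |β| :=
                mul_le_mul_of_nonneg_left (le_abs_self _) (by positivity)
            _ ≤ s * L * |β| := by
                apply mul_le_mul_of_nonneg_right _ (abs_nonneg _)
                exact mul_le_mul_of_nonneg_left h5 hs0.le
        rw [hmr]
        nlinarith
    _ = exp (s * (log ((L : ℝ) + 1)) + s * L * |β|) * exp (-(s * m * β)) := by rw [Real.exp_add]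

/-- probability that the `m`-th iterate hits a set -/
noncomputable def hit (r : ℝ) (m : ℕ) (S : Finset ℕ) : ℝ :=
  ∑ n ∈ range (2 ^ m), if T^[m] n ∈ S then P r m n else 0

theorem hit_eq (r : ℝ) (m : ℕ) (S : Finset ℕ) :
    hit r m S = ∑ j ∈ range (m + 1), ∑ y ∈ S, pm r m j y := by
  unfold hit
  rw [← sum_slices m]
  apply Finset.sum_congr rfl
  intro j _
  unfold pm
  rw [Finset.sum_comm]
  apply Finset.sum_congr rfl
  intro n _
  rw [Finset.sum_ite_eq]

theorem hit_le (r s lam : ℝ) (h0 : 0 ≤ r) (h1 : r ≤ 1) (hs : 0 ≤ s) (hlam : 0 < lam) (m : ℕ)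
    (S : Finset ℕ) : hit r m S ≤ lam * (((m : ℝ) + 1) * S.card) + lam ^ (-s) * Q r s m := by
  rw [hit_eq]
  have e1 : ∀ j ∈ range (m + 1), ∑ y ∈ S, pm r m j y ≤ lam * S.card + lam ^ (-s) * qs r s m j := by
    intro j _
    have e2 : ∀ y ∈ S, pm r m j y ≤ lam + lam ^ (-s) * (pm r m j y) ^ (1 + s) := by
      intro y _
      have hp := pm_nonneg r h0 h1 m j y
      rcases le_total (pm r m j y) lam with h | h
      · have : 0 ≤ lam ^ (-s) * (pm r m j y) ^ (1 + s) := by positivity
        linarith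
      · have hpp : 0 < pm r m j y := lt_of_lt_of_le hlam h
        have : pm r m j y ≤ lam ^ (-s) * (pm r m j y) ^ (1 + s) := by
          rw [Real.rpow_add hpp, Real.rpow_one, Real.rpow_neg hlam.le]
          have h3 : lam ^ s ≤ (pm r m j y) ^ s := Real.rpow_le_rpow hlam.le h hs
          have h4 : 0 < lam ^ s := by positivity
          calc pm r m j y = (lam ^ s)⁻¹ * (pm r m j y * lam ^ s) := by field_simp
            _ ≤ (lam ^ s)⁻¹ * (pm r m j y * (pm r m j y) ^ s) := by
                apply mul_le_mul_of_nonneg_left _ (by positivity)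
                exact mul_le_mul_of_nonneg_left h3 hp
        linarith
    refine le_trans (Finset.sum_le_sum e2) ?_
    rw [Finset.sum_add_distrib, Finset.sum_const, nsmul_eq_mul, ← Finset.mul_sum]
    have e3 : ∑ y ∈ S, (pm r m j y) ^ (1 + s) ≤ qs r s m j := by
      unfold qs
      have e4 : ∑ y ∈ S.filter (fun y => y < 3 ^ j), (pm r m j y) ^ (1 + s) =
          ∑ y ∈ S, (pm r m j y) ^ (1 + s) := by
        apply Finset.sum_filter_of_ne
        intro y _ hne
        by_contra hlt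
        apply hne
        rw [pm_zero r m j y (by omega), Real.zero_rpow (by linarith)]
      rw [← e4]
      apply Finset.sum_le_sum_of_subset_of_nonneg
      · intro y hy
        exact mem_range.mpr (mem_filter.mp hy).2
      · intro y _ _
        exact Real.rpow_nonneg (pm_nonneg r h0 h1 m j y) _
    have := mul_le_mul_of_nonneg_left e3 (by positivity : 0 ≤ lam ^ (-s))
    linarith
  refine le_trans (Finset.sum_le_sum e1) ?_
  rw [Finset.sum_add_distrib, Finset.sum_const, card_range, nsmul_eq_mul, ← Finset.mul_sum]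
  unfold Q
  push_cast
  apply le_of_eq; ring

/-- small sets are hit with exponentially small probability -/
theorem hit_small (r : ℝ) (h0 : 0 < r) (h1 : r ≤ 1)
    (hr : r * log 3 ≤ negMulLog r + negMulLog (1 - r)) (δ : ℝ) (hδ : 0 < δ) :
    ∃ a : ℝ, 0 < a ∧ ∀ᶠ m : ℕ in atTop, ∀ S : Finset ℕ,
      (S.card : ℝ) ≤ exp ((1 - δ) * (r * m * log 3)) → hit r m S ≤ exp (-(a * m)) := by
  have hl3 : 0 < log 3 := Real.log_pos (by norm_num)
  set ε := δ * (r * log 3) / 8 with hε
  have hε0 : 0 < ε := by positivity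
  obtain ⟨s, hs0, hs1, C, hC0, hQ⟩ := Q_decay r h0 h1 hr ε hε0
  refine ⟨s * ε / 2, by positivity, ?_⟩
  have ev1 := eventually_log_le ε hε0
  have ev2 := eventually_exp_le (s * ε / 2) (1 / (2 * C)) (by positivity) (by positivity)
  have ev3 := eventually_exp_le (5 * ε - s * ε / 2) (1 / 2) (by nlinarith) (by norm_num)
  filter_upwards [ev1, ev2, ev3] with m h1m h2m h3m
  intro S hS
  have hm0 : (0:ℝ) ≤ m := Nat.cast_nonneg m
  set lam := exp (-(m * (r * log 3 - 2 * ε))) with hlam
  have hle := hit_le r s lam h0.le h1 hs0.le (Real.exp_pos _) m S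
  have t1 : lam * (((m : ℝ) + 1) * S.card) ≤ 1 / 2 * exp (-(s * ε / 2 * m)) := by
    have hm1 : (m : ℝ) + 1 ≤ exp (ε * m) := by
      rw [← Real.log_le_iff_le_exp (by positivity)]; exact h1m
    calc lam * (((m : ℝ) + 1) * S.card) ≤ lam * (exp (ε * m) * exp ((1 - δ) * (r * m * log 3))) := by
          apply mul_le_mul_of_nonneg_left _ (Real.exp_pos _).le
          exact mul_le_mul hm1 hS (Nat.cast_nonneg _) (Real.exp_pos _).le
      _ = exp (-((5 * ε - s * ε / 2) * m)) * exp (-(s * ε / 2 * m)) := by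
          rw [hlam, ← Real.exp_add, ← Real.exp_add, ← Real.exp_add]
          congr 1
          have : δ * (r * log 3) = 8 * ε := by rw [hε]; ring
          linear_combination (-(m:ℝ)) * this
      _ ≤ 1 / 2 * exp (-(s * ε / 2 * m)) := mul_le_mul_of_nonneg_right h3m (Real.exp_pos _).le
  have t2 : lam ^ (-s) * Q r s m ≤ 1 / 2 * exp (-(s * ε / 2 * m)) := by
    calc lam ^ (-s) * Q r s m ≤ lam ^ (-s) * (C * exp (-(s * m * (r * log 3 - ε)))) :=
          mul_le_mul_of_nonneg_left (hQ m) (by positivity)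
      _ = C * exp (-(s * ε / 2 * m)) * exp (-(s * ε / 2 * m)) := by
          rw [hlam, ← Real.exp_mul]
          have : exp (-(m * (r * log 3 - 2 * ε)) * -s) * (C * exp (-(s * m * (r * log 3 - ε)))) =
              C * (exp (-(m * (r * log 3 - 2 * ε)) * -s) * exp (-(s * m * (r * log 3 - ε)))) := by ring
          rw [this, ← Real.exp_add, mul_assoc C, ← Real.exp_add]
          congr 2
          ring
      _ ≤ 1 / 2 * exp (-(s * ε / 2 * m)) := by
          apply mul_le_mul_of_nonneg_right _ (Real.exp_pos _).le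
          calc C * exp (-(s * ε / 2 * m)) ≤ C * (1 / (2 * C)) := mul_le_mul_of_nonneg_left h2m hC0.le
            _ = 1 / 2 := by field_simp
  linarith

end Pool.Agent.Helper27
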