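import Pool.Agent.Helper27.Limit

set_option autoImplicit false

namespace Pool.Agent.Helper27

open Finset Real Filter Topology

theorem sum_P_J (r : ℝ) (k : ℕ) : ∑ n ∈ range (2 ^ k), P r k n * (J k n : ℝ) = r * k := by
  induction k with
  | zero => simp [P, J]
  | succ k ih =>
    have h := sum_split k 1 (fun u w => (P r k u * P r 1 w) * ((J k u : ℝ) + (J 1 w : ℝ)))
    have e : ∀ n ∈ range (2 ^ (k + 1)), P r (k + 1) n * (J (k + 1) n : ℝ) =
        (P r k (n % 2 ^ k) * P r 1 (T^[k] n % 2 ^ 1)) * ((J k (n % 2 ^ k) : ℝ) + (J 1 (T^[k] n % 2 ^ 1) : ℝ)) := by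
      intro n _
      rw [P_mod, J_mod, P_mod, J_mod, P_add, J_add]
      push_cast
      ring
    rw [Finset.sum_congr rfl e, h]
    have e2 : ∀ u ∈ range (2 ^ k), ∑ w ∈ range (2 ^ 1), (P r k u * P r 1 w) * ((J k u : ℝ) + (J 1 w : ℝ)) =
        P r k u * (J k u : ℝ) + P r k u * r := by
      intro u _
      have e3 : (2 : ℕ) ^ 1 = 2 := by norm_num
      simp only [e3]
      rw [Finset.sum_range_succ, Finset.sum_range_succ, Finset.sum_range_zero]
      simp [P, J]
      ring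
    rw [Finset.sum_congr rfl e2, Finset.sum_add_distrib, ih, ← Finset.sum_mul, sum_P]
    push_cast
    ring

theorem sum_P_ent (r : ℝ) (k : ℕ) :
    ∑ n ∈ range (2 ^ k), negMulLog (P r k n) = k * (negMulLog r + negMulLog (1 - r)) := by
  induction k with
  | zero => simp [P]
  | succ k ih =>
    have h := sum_split k 1 (fun u w => negMulLog (P r k u * P r 1 w))
    have e : ∀ n ∈ range (2 ^ (k + 1)), negMulLog (P r (k + 1) n) =
        negMulLog (P r k (n % 2 ^ k) * P r 1 (T^[k] n % 2 ^ 1)) := by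
      intro n _
      rw [P_mod, P_mod, P_add]
    rw [Finset.sum_congr rfl e, h]
    have e2 : ∀ u ∈ range (2 ^ k), ∑ w ∈ range (2 ^ 1), negMulLog (P r k u * P r 1 w) =
        negMulLog (P r k u) + P r k u * (negMulLog r + negMulLog (1 - r)) := by
      intro u _
      have e3 : (2 : ℕ) ^ 1 = 2 := by norm_num
      simp only [e3]
      rw [Finset.sum_range_succ, Finset.sum_range_succ, Finset.sum_range_zero]
      rw [Real.negMulLog_mul, Real.negMulLog_mul]
      simp [P]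
      ring
    rw [Finset.sum_congr rfl e2, Finset.sum_add_distrib, ih, ← Finset.sum_mul, sum_P]
    push_cast
    ring

theorem exp_le_quad (t : ℝ) (ht : |t| ≤ 1) : exp t ≤ 1 + t + t ^ 2 := by
  have h := Real.abs_exp_sub_one_sub_id_le ht
  have := (abs_le.mp h).2
  linarith

theorem mgf_le (r t : ℝ) (h0 : 0 ≤ r) (h1 : r ≤ 1) (ht : |t| ≤ 1) (k : ℕ) :
    ∑ n ∈ range (2 ^ k), P r k n * exp (t * ((J k n : ℝ) - r * k)) ≤ exp (t ^ 2 * k) := by
  have e : ∀ n ∈ range (2 ^ k), P r k n * exp (t * ((J k n : ℝ) - r * k)) =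
      (P r k n * (exp t) ^ (J k n)) * exp (-(t * r * k)) := by
    intro n _
    rw [mul_assoc, ← Real.exp_nat_mul, ← Real.exp_add]
    congr 2; ring
  rw [Finset.sum_congr rfl e, ← Finset.sum_mul, sum_P_pow]
  have h2 : 1 - r + r * exp t ≤ exp (t * r + t ^ 2) := by
    have h3 := exp_le_quad t ht
    have h4 := Real.add_one_le_exp (t * r + t ^ 2)
    have h5 : r * exp t ≤ r * (1 + t + t ^ 2) := mul_le_mul_of_nonneg_left h3 h0
    have h6 : r * t ^ 2 ≤ 1 * t ^ 2 := mul_le_mul_of_nonneg_right h1 (sq_nonneg _)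
    linarith
  have h7 : 0 ≤ 1 - r + r * exp t := by
    have := mul_nonneg h0 (Real.exp_pos t).le
    linarith
  calc (1 - r + r * exp t) ^ k * exp (-(t * r * k)) ≤ (exp (t * r + t ^ 2)) ^ k * exp (-(t * r * k)) := by
        apply mul_le_mul_of_nonneg_right _ (Real.exp_pos _).le
        exact pow_le_pow_left₀ h7 h2 k
    _ = exp (t ^ 2 * k) := by
        rw [← Real.exp_nat_mul, ← Real.exp_add]; congr 1; ring

theorem upper_tail (r η : ℝ) (h0 : 0 ≤ r) (h1 : r ≤ 1) (hη : 0 ≤ η) (hη2 : η ≤ 2) (k : ℕ) :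
    ∑ n ∈ range (2 ^ k), (if (r + η) * k ≤ (J k n : ℝ) then P r k n else 0) ≤ exp (-(η ^ 2 / 4 * k)) := by
  have ht : |η / 2| ≤ 1 := by rw [abs_of_nonneg (by linarith)]; linarith
  have h := mgf_le r (η / 2) h0 h1 ht k
  have hs : ∑ n ∈ range (2 ^ k), (if (r + η) * k ≤ (J k n : ℝ) then P r k n else 0) ≤
      exp (-(η ^ 2 / 2 * k)) * ∑ n ∈ range (2 ^ k), P r k n * exp ((η / 2) * ((J k n : ℝ) - r * k)) := by
    rw [Finset.mul_sum]
    apply Finset.sum_le_sum
    intro n _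
    have hP := P_nonneg r h0 h1 k n
    split_ifs with hc
    · have : 1 ≤ exp (-(η ^ 2 / 2 * k)) * exp ((η / 2) * ((J k n : ℝ) - r * k)) := by
        rw [← Real.exp_add]
        apply Real.one_le_exp
        nlinarith
      calc P r k n = P r k n * 1 := (mul_one _).symm
        _ ≤ P r k n * (exp (-(η ^ 2 / 2 * k)) * exp ((η / 2) * ((J k n : ℝ) - r * k))) :=
          mul_le_mul_of_nonneg_left this hP
        _ = _ := by ring
    · positivity
  refine le_trans hs ?_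
  calc exp (-(η ^ 2 / 2 * k)) * ∑ n ∈ range (2 ^ k), P r k n * exp ((η / 2) * ((J k n : ℝ) - r * k))
      ≤ exp (-(η ^ 2 / 2 * k)) * exp ((η / 2) ^ 2 * k) := mul_le_mul_of_nonneg_left h (Real.exp_pos _).le
    _ = exp (-(η ^ 2 / 4 * k)) := by rw [← Real.exp_add]; congr 1; ring

theorem lower_tail (r η : ℝ) (h0 : 0 ≤ r) (h1 : r ≤ 1) (hη : 0 ≤ η) (hη2 : η ≤ 2) (k : ℕ) :
    ∑ n ∈ range (2 ^ k), (if (J k n : ℝ) ≤ (r - η) * k then P r k n else 0) ≤ exp (-(η ^ 2 / 4 * k)) := by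
  have ht : |-(η / 2)| ≤ 1 := by rw [abs_neg, abs_of_nonneg (by linarith)]; linarith
  have h := mgf_le r (-(η / 2)) h0 h1 ht k
  have hs : ∑ n ∈ range (2 ^ k), (if (J k n : ℝ) ≤ (r - η) * k then P r k n else 0) ≤
      exp (-(η ^ 2 / 2 * k)) * ∑ n ∈ range (2 ^ k), P r k n * exp ((-(η / 2)) * ((J k n : ℝ) - r * k)) := by
    rw [Finset.mul_sum]
    apply Finset.sum_le_sum
    intro n _
    have hP := P_nonneg r h0 h1 k n
    split_ifs with hc
    · have : 1 ≤ exp (-(η ^ 2 / 2 * k)) * exp ((-(η / 2)) * ((J k n : ℝ) - r * k)) := by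
        rw [← Real.exp_add]
        apply Real.one_le_exp
        nlinarith
      calc P r k n = P r k n * 1 := (mul_one _).symm
        _ ≤ P r k n * (exp (-(η ^ 2 / 2 * k)) * exp ((-(η / 2)) * ((J k n : ℝ) - r * k))) :=
          mul_le_mul_of_nonneg_left this hP
        _ = _ := by ring
    · positivity
  refine le_trans hs ?_
  calc exp (-(η ^ 2 / 2 * k)) * ∑ n ∈ range (2 ^ k), P r k n * exp ((-(η / 2)) * ((J k n : ℝ) - r * k))
      ≤ exp (-(η ^ 2 / 2 * k)) * exp ((-(η / 2)) ^ 2 * k) := mul_le_mul_of_nonneg_left h (Real.exp_pos _).le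
    _ = exp (-(η ^ 2 / 4 * k)) := by rw [← Real.exp_add]; congr 1; ring

end Pool.Agent.Helper27
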