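import Mathlib

set_option autoImplicit false

namespace Pool.Agent.Helper27

open Finset Real

theorem key_super (p q M N : ℝ) (hp : 0 ≤ p) (hq : 0 ≤ q) (hM : p ≤ M) (hN : q ≤ N) :
    negMulLog p + p * log M + (negMulLog q + q * log N) ≤
      negMulLog (p + q) + (p + q) * log (M + N) := by
  rcases hp.eq_or_lt with h0 | hp0
  · subst h0
    rcases hq.eq_or_lt with h0 | hq0
    · subst h0; simp
    · have hN0 : 0 < N := lt_of_lt_of_le hq0 hN
      have : log N ≤ log (M + N) := Real.log_le_log hN0 (by linarith)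
      have := mul_le_mul_of_nonneg_left this hq
      simp; linarith
  · rcases hq.eq_or_lt with h0 | hq0
    · subst h0
      have hM0 : 0 < M := lt_of_lt_of_le hp0 hM
      have : log M ≤ log (M + N) := Real.log_le_log hM0 (by linarith)
      have := mul_le_mul_of_nonneg_left this hp
      simp; linarith
    · have hM0 : 0 < M := lt_of_lt_of_le hp0 hM
      have hN0 : 0 < N := lt_of_lt_of_le hq0 hN
      have e1 : log M - log p + log (p + q) - log (M + N) ≤ M * (p + q) / (p * (M + N)) - 1 := by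
        have := Real.log_le_sub_one_of_pos (x := M * (p + q) / (p * (M + N))) (by positivity)
        rw [Real.log_div (by positivity) (by positivity), Real.log_mul (by positivity) (by positivity),
          Real.log_mul (by positivity) (by positivity)] at this
        linarith
      have e2 : log N - log q + log (p + q) - log (M + N) ≤ N * (p + q) / (q * (M + N)) - 1 := by
        have := Real.log_le_sub_one_of_pos (x := N * (p + q) / (q * (M + N))) (by positivity)
        rw [Real.log_div (by positivity) (by positivity), Real.log_mul (by positivity) (by positivity),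
          Real.log_mul (by positivity) (by positivity)] at this
        linarith
      have f1 := mul_le_mul_of_nonneg_left e1 hp
      have f2 := mul_le_mul_of_nonneg_left e2 hq
      have g : p * (M * (p + q) / (p * (M + N)) - 1) + q * (N * (p + q) / (q * (M + N)) - 1) = 0 := by
        field_simp
        ring
      simp only [negMulLog]
      nlinarith [f1, f2, g]

/-- unnormalised entropy of a finite nonnegative vector -/
noncomputable def Hs {α : Type*} (s : Finset α) (p : α → ℝ) : ℝ :=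
  ∑ x ∈ s, negMulLog (p x) - negMulLog (∑ x ∈ s, p x)

theorem Hs_add {α : Type*} (s : Finset α) (p q : α → ℝ) (hp : ∀ x ∈ s, 0 ≤ p x)
    (hq : ∀ x ∈ s, 0 ≤ q x) : Hs s p + Hs s q ≤ Hs s (fun x => p x + q x) := by
  unfold Hs
  set M := ∑ x ∈ s, p x with hM
  set N := ∑ x ∈ s, q x with hN
  have h : ∀ x ∈ s, negMulLog (p x) + p x * log M + (negMulLog (q x) + q x * log N) ≤
      negMulLog (p x + q x) + (p x + q x) * log (M + N) := by
    intro x hx
    apply key_super _ _ _ _ (hp x hx) (hq x hx)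
    · exact Finset.single_le_sum hp hx
    · exact Finset.single_le_sum hq hx
  have hs := Finset.sum_le_sum h
  simp only [Finset.sum_add_distrib, ← Finset.sum_mul] at hs ⊢
  rw [← hM, ← hN] at hs ⊢
  simp only [negMulLog] at *
  linarith

theorem Hs_sum {α ι : Type*} (s : Finset α) (I : Finset ι) (p : ι → α → ℝ)
    (hp : ∀ i ∈ I, ∀ x ∈ s, 0 ≤ p i x) :
    ∑ i ∈ I, Hs s (p i) ≤ Hs s (fun x => ∑ i ∈ I, p i x) := by
  classical
  induction I using Finset.induction_on with
  | empty => simp [Hs]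
  | insert i I hi ih =>
    rw [Finset.sum_insert hi]
    have h1 := ih (fun j hj => hp j (Finset.mem_insert_of_mem hj))
    have h2 := Hs_add s (p i) (fun x => ∑ i ∈ I, p i x) (hp i (Finset.mem_insert_self _ _))
      (fun x hx => Finset.sum_nonneg (fun j hj => hp j (Finset.mem_insert_of_mem hj) x hx))
    have h3 : (fun x => ∑ j ∈ insert i I, p j x) = (fun x => p i x + ∑ j ∈ I, p j x) := by
      funext x; rw [Finset.sum_insert hi]
    rw [h3]; linarith

theorem Hs_smul {α : Type*} (s : Finset α) (p : α → ℝ) (a : ℝ) :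
    Hs s (fun x => a * p x) = a * Hs s p := by
  unfold Hs
  rw [← Finset.mul_sum]
  simp only [Real.negMulLog_mul, Finset.sum_add_distrib]
  rw [← Finset.sum_mul, ← Finset.mul_sum]
  ring

theorem Hs_nonneg {α : Type*} (s : Finset α) (p : α → ℝ) (hp : ∀ x ∈ s, 0 ≤ p x) :
    0 ≤ Hs s p := by
  unfold Hs
  have h : ∀ x ∈ s, - (p x * log (∑ x ∈ s, p x)) ≤ negMulLog (p x) := by
    intro x hx
    rcases (hp x hx).eq_or_lt with h0 | h0
    · rw [← h0]; simp
    · have : log (p x) ≤ log (∑ x ∈ s, p x) := Real.log_le_log h0 (Finset.single_le_sum hp hx)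
      have := mul_le_mul_of_nonneg_left this h0.le
      simp only [negMulLog]; linarith
  have hs := Finset.sum_le_sum h
  rw [Finset.sum_neg_distrib, ← Finset.sum_mul] at hs
  simp only [negMulLog] at *
  linarith

/-- three-point versions -/
noncomputable def h3 (x y z : ℝ) : ℝ :=
  negMulLog x + negMulLog y + negMulLog z - negMulLog (x + y + z)

noncomputable def a3 (x y z : ℝ) : ℝ := (x + y + z) - (x ^ 2 + y ^ 2 + z ^ 2) / (x + y + z)

noncomputable def b3 (x y z : ℝ) : ℝ := (x ^ 2 + y ^ 2 + z ^ 2) / (x + y + z) - (x + y + z) / 3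

theorem h3_eq_Hs (x y z : ℝ) : h3 x y z = Hs (univ : Finset (Fin 3)) ![x, y, z] := by
  simp [h3, Hs, Fin.sum_univ_three]

theorem h3_smul (a x y z : ℝ) : h3 (a * x) (a * y) (a * z) = a * h3 x y z := by
  rw [h3_eq_Hs, h3_eq_Hs, ← Hs_smul]
  congr 1
  funext i
  fin_cases i <;> simp

theorem h3_sum {ι : Type*} (I : Finset ι) (x y z : ι → ℝ) (hx : ∀ i ∈ I, 0 ≤ x i)
    (hy : ∀ i ∈ I, 0 ≤ y i) (hz : ∀ i ∈ I, 0 ≤ z i) :
    ∑ i ∈ I, h3 (x i) (y i) (z i) ≤ h3 (∑ i ∈ I, x i) (∑ i ∈ I, y i) (∑ i ∈ I, z i) := by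
  have := Hs_sum (univ : Finset (Fin 3)) I (fun i => ![x i, y i, z i]) (by
    intro i hi j _
    fin_cases j
    · exact hx i hi
    · exact hy i hi
    · exact hz i hi)
  simp only [h3_eq_Hs]
  convert this using 2
  funext j
  fin_cases j <;> simp

theorem h3_nonneg (x y z : ℝ) (hx : 0 ≤ x) (hy : 0 ≤ y) (hz : 0 ≤ z) : 0 ≤ h3 x y z := by
  rw [h3_eq_Hs]
  apply Hs_nonneg
  intro j _
  fin_cases j
  · exact hx
  · exact hy
  · exact hz

theorem concave_aux : ConcaveOn ℝ (Set.Icc (0:ℝ) 1) (fun x => negMulLog x + x ^ 2 / 2) := by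
  have key : ∀ x ∈ interior (Set.Icc (0:ℝ) 1),
      HasDerivAt (deriv (fun x => negMulLog x + x ^ 2 / 2)) (- x⁻¹ + 1) x := by
    intro x hx
    rw [interior_Icc] at hx
    have hx0 : x ≠ 0 := ne_of_gt hx.1
    have hd : ∀ y : ℝ, y ≠ 0 → deriv (fun x => negMulLog x + x ^ 2 / 2) y = - log y - 1 + y := by
      intro y hy
      have h1 := Real.hasDerivAt_negMulLog hy
      have h2 : HasDerivAt (fun x : ℝ => x ^ 2 / 2) y y := by
        have := ((hasDerivAt_id' y).pow 2).div_const 2
        simpa using this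
      exact (h1.add h2).deriv
    have he : deriv (fun x => negMulLog x + x ^ 2 / 2) =ᶠ[nhds x] fun y => - log y - 1 + y := by
      filter_upwards [isOpen_ne.mem_nhds hx0] with y hy
      exact hd y hy
    have h3 : HasDerivAt (fun y => - log y - 1 + y) (- x⁻¹ + 1) x := by
      have := ((Real.hasDerivAt_log hx0).neg.sub_const 1).add (hasDerivAt_id' x)
      exact this
    exact h3.congr_of_eventuallyEq he
  apply concaveOn_of_deriv2_nonpos (convex_Icc 0 1)
  · exact (Real.continuous_negMulLog.add (by fun_prop)).continuousOn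
  · intro x hx
    rw [interior_Icc] at hx
    have hx0 : x ≠ 0 := ne_of_gt hx.1
    exact ((Real.differentiableAt_negMulLog hx0).add (by fun_prop)).differentiableWithinAt
  · intro x hx
    exact (key x hx).differentiableAt.differentiableWithinAt
  · intro x hx
    rw [Function.iterate_succ_apply, Function.iterate_one, (key x hx).deriv]
    rw [interior_Icc] at hx
    have : 1 ≤ x⁻¹ := (one_le_inv₀ hx.1).mpr hx.2.le
    linarith

theorem concave3 (a b c x y z : ℝ) (ha : 0 ≤ a) (hb : 0 ≤ b) (hc : 0 ≤ c) (h1 : a + b + c = 1)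
    (hx : x ∈ Set.Icc (0:ℝ) 1) (hy : y ∈ Set.Icc (0:ℝ) 1) (hz : z ∈ Set.Icc (0:ℝ) 1) :
    a * (negMulLog x + x ^ 2 / 2) + b * (negMulLog y + y ^ 2 / 2) + c * (negMulLog z + z ^ 2 / 2)
      ≤ negMulLog (a * x + b * y + c * z) + (a * x + b * y + c * z) ^ 2 / 2 := by
  have := concave_aux.le_map_sum (t := (univ : Finset (Fin 3))) (w := ![a, b, c]) (p := ![x, y, z])
    (by intro i _; fin_cases i <;> simpa) (by simp [Fin.sum_univ_three, h1])
    (by
      intro i _
      fin_cases i
      · exact hx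
      · exact hy
      · exact hz)
  simpa [Fin.sum_univ_three] using this

/-- normalised gain inequality -/
theorem gain_norm (x0 x1 x2 y0 y1 y2 : ℝ) (hx0 : 0 ≤ x0) (hx1 : 0 ≤ x1) (hx2 : 0 ≤ x2)
    (hy0 : 0 ≤ y0) (hy1 : 0 ≤ y1) (hy2 : 0 ≤ y2) (hx : x0 + x1 + x2 = 1) (hy : y0 + y1 + y2 = 1) :
    negMulLog y0 + negMulLog y1 + negMulLog y2 +
      (3 / 4) * (1 - (x0 ^ 2 + x1 ^ 2 + x2 ^ 2)) * ((y0 ^ 2 + y1 ^ 2 + y2 ^ 2) - 1 / 3) ≤
    negMulLog (x0 * y0 + x1 * y2 + x2 * y1) + negMulLog (x0 * y1 + x1 * y0 + x2 * y2) +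
      negMulLog (x0 * y2 + x1 * y1 + x2 * y0) := by
  have i0 : y0 ∈ Set.Icc (0:ℝ) 1 := ⟨hy0, by linarith⟩
  have i1 : y1 ∈ Set.Icc (0:ℝ) 1 := ⟨hy1, by linarith⟩
  have i2 : y2 ∈ Set.Icc (0:ℝ) 1 := ⟨hy2, by linarith⟩
  have c0 := concave3 x0 x1 x2 y0 y2 y1 hx0 hx1 hx2 hx i0 i2 i1
  have c1 := concave3 x0 x1 x2 y1 y0 y2 hx0 hx1 hx2 hx i1 i0 i2
  have c2 := concave3 x0 x1 x2 y2 y1 y0 hx0 hx1 hx2 hx i2 i1 i0
  have e : x0 = 1 - x1 - x2 := by linarith
  have f : y0 = 1 - y1 - y2 := by linarith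
  have key : (3 / 4) * (1 - (x0 ^ 2 + x1 ^ 2 + x2 ^ 2)) * ((y0 ^ 2 + y1 ^ 2 + y2 ^ 2) - 1 / 3) =
      (y0 ^ 2 + y1 ^ 2 + y2 ^ 2) / 2 - ((x0 * y0 + x1 * y2 + x2 * y1) ^ 2 / 2 +
        (x0 * y1 + x1 * y0 + x2 * y2) ^ 2 / 2 + (x0 * y2 + x1 * y1 + x2 * y0) ^ 2 / 2) := by
    rw [e, f]; ring
  rw [key]
  have s : ∀ n : ℝ, x0 * n + x1 * n + x2 * n = n := by intro n; rw [← add_mul, ← add_mul, hx, one_mul]
  have s0 := s (negMulLog y0 + y0 ^ 2 / 2)
  have s1 := s (negMulLog y1 + y1 ^ 2 / 2)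
  have s2 := s (negMulLog y2 + y2 ^ 2 / 2)
  linarith

theorem h3_eq_norm (x y z : ℝ) (h : 0 < x + y + z) :
    h3 x y z = (x + y + z) * (negMulLog (x / (x + y + z)) + negMulLog (y / (x + y + z)) +
      negMulLog (z / (x + y + z))) := by
  have hne : x + y + z ≠ 0 := h.ne'
  have h1 := h3_smul (x + y + z) (x / (x + y + z)) (y / (x + y + z)) (z / (x + y + z))
  rw [mul_div_cancel₀ _ hne, mul_div_cancel₀ _ hne, mul_div_cancel₀ _ hne] at h1
  rw [h1]
  have : x / (x + y + z) + y / (x + y + z) + z / (x + y + z) = 1 := by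
    rw [← add_div, ← add_div, div_self hne]
  rw [h3, this]; simp

/-- gain inequality for the cyclic group of order three -/
theorem gain3 (x0 x1 x2 y0 y1 y2 : ℝ) (hx0 : 0 ≤ x0) (hx1 : 0 ≤ x1) (hx2 : 0 ≤ x2)
    (hy0 : 0 ≤ y0) (hy1 : 0 ≤ y1) (hy2 : 0 ≤ y2) :
    (x0 + x1 + x2) * h3 y0 y1 y2 + (3 / 4) * a3 x0 x1 x2 * b3 y0 y1 y2 ≤
    h3 (x0 * y0 + x1 * y2 + x2 * y1) (x0 * y1 + x1 * y0 + x2 * y2)
      (x0 * y2 + x1 * y1 + x2 * y0) := by
  by_cases hX : x0 + x1 + x2 = 0
  · have e0 : x0 = 0 := by linarith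
    have e1 : x1 = 0 := by linarith
    have e2 : x2 = 0 := by linarith
    subst e0 e1 e2
    simp [h3, a3]
  by_cases hY : y0 + y1 + y2 = 0
  · have e0 : y0 = 0 := by linarith
    have e1 : y1 = 0 := by linarith
    have e2 : y2 = 0 := by linarith
    subst e0 e1 e2
    simp [h3, b3]
  have hX0 : 0 < x0 + x1 + x2 := lt_of_le_of_ne (by positivity) (Ne.symm hX)
  have hY0 : 0 < y0 + y1 + y2 := lt_of_le_of_ne (by positivity) (Ne.symm hY)
  set X := x0 + x1 + x2 with hXd
  set Y := y0 + y1 + y2 with hYd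
  have hs : (x0 * y0 + x1 * y2 + x2 * y1) + (x0 * y1 + x1 * y0 + x2 * y2) +
      (x0 * y2 + x1 * y1 + x2 * y0) = X * Y := by rw [hXd, hYd]; ring
  have hXY : 0 < X * Y := by positivity
  have g := gain_norm (x0 / X) (x1 / X) (x2 / X) (y0 / Y) (y1 / Y) (y2 / Y) (by positivity)
    (by positivity) (by positivity) (by positivity) (by positivity) (by positivity)
    (by rw [← add_div, ← add_div, ← hXd, div_self hX]) (by rw [← add_div, ← add_div, ← hYd, div_self hY])
  rw [h3_eq_norm y0 y1 y2 hY0, h3_eq_norm _ _ _ (by rw [hs]; exact hXY), hs]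
  have e0 : (x0 * y0 + x1 * y2 + x2 * y1) / (X * Y) = x0 / X * (y0 / Y) + x1 / X * (y2 / Y) +
    x2 / X * (y1 / Y) := by field_simp
  have e1 : (x0 * y1 + x1 * y0 + x2 * y2) / (X * Y) = x0 / X * (y1 / Y) + x1 / X * (y0 / Y) +
    x2 / X * (y2 / Y) := by field_simp
  have e2 : (x0 * y2 + x1 * y1 + x2 * y0) / (X * Y) = x0 / X * (y2 / Y) + x1 / X * (y1 / Y) +
    x2 / X * (y0 / Y) := by field_simp
  rw [e0, e1, e2]
  have g' := mul_le_mul_of_nonneg_left g hXY.le
  have ea : a3 x0 x1 x2 = X * (1 - ((x0 / X) ^ 2 + (x1 / X) ^ 2 + (x2 / X) ^ 2)) := by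
    rw [a3, ← hXd]; field_simp
  have eb : b3 y0 y1 y2 = Y * (((y0 / Y) ^ 2 + (y1 / Y) ^ 2 + (y2 / Y) ^ 2) - 1 / 3) := by
    rw [b3, ← hYd]; field_simp
  rw [ea, eb, ← hYd]
  linarith

theorem a3_nonneg (x y z : ℝ) (hx : 0 ≤ x) (hy : 0 ≤ y) (hz : 0 ≤ z) : 0 ≤ a3 x y z := by
  unfold a3
  by_cases h : x + y + z = 0
  · rw [h]; simp
  · have h0 : 0 < x + y + z := lt_of_le_of_ne (by positivity) (Ne.symm h)
    rw [sub_nonneg, div_le_iff₀ h0]
    nlinarith [mul_nonneg hx hy, mul_nonneg hy hz, mul_nonneg hx hz]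

/-- lower bound of the L2 deficit by the entropy deficit -/
theorem b3_lower (x y z : ℝ) (hx : 0 ≤ x) (hy : 0 ≤ y) (hz : 0 ≤ z) :
    (1 / 3) * ((x + y + z) * log 3 - h3 x y z) ≤ b3 x y z := by
  by_cases h : x + y + z = 0
  · have e0 : x = 0 := by linarith
    have e1 : y = 0 := by linarith
    have e2 : z = 0 := by linarith
    subst e0 e1 e2
    simp [h3, b3]
  have h0 : 0 < x + y + z := lt_of_le_of_ne (by positivity) (Ne.symm h)
  rw [h3_eq_norm x y z h0]
  set X := x + y + z with hX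
  have eb : b3 x y z = X * (((x / X) ^ 2 + (y / X) ^ 2 + (z / X) ^ 2) - 1 / 3) := by
    rw [b3, ← hX]; field_simp
  rw [eb]
  have hsum : x / X + y / X + z / X = 1 := by rw [← add_div, ← add_div, ← hX, div_self h]
  have aux : ∀ u : ℝ, 0 ≤ u → u * log 3 - negMulLog u ≤ u * (3 * u - 1) := by
    intro u hu
    rcases hu.eq_or_lt with hu0 | hu0
    · rw [← hu0]; simp
    · have := Real.log_le_sub_one_of_pos (x := 3 * u) (by positivity)
      rw [Real.log_mul (by norm_num) hu0.ne'] at this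
      have := mul_le_mul_of_nonneg_left this hu
      simp only [negMulLog]; linarith
  have a0 := aux (x / X) (by positivity)
  have a1 := aux (y / X) (by positivity)
  have a2 := aux (z / X) (by positivity)
  have : (1 / 3) * (log 3 - (negMulLog (x / X) + negMulLog (y / X) + negMulLog (z / X))) ≤
      ((x / X) ^ 2 + (y / X) ^ 2 + (z / X) ^ 2) - 1 / 3 := by
    have h5 : log 3 = (x / X + y / X + z / X) * log 3 := by rw [hsum, one_mul]
    rw [h5]; nlinarith
  have := mul_le_mul_of_nonneg_left this h0.le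
  nlinarith

/-- entropy is controlled by the collision deficit up to a small error -/
theorem h3_upper (η : ℝ) (hη : 0 < η) : ∃ K : ℝ, 0 < K ∧ ∀ x y z : ℝ, 0 ≤ x → 0 ≤ y → 0 ≤ z →
    h3 x y z ≤ η * (x + y + z) + K * a3 x y z := by
  -- pointwise bound
  obtain ⟨K, hK, hb⟩ : ∃ K : ℝ, 0 < K ∧ ∀ u : ℝ, 0 ≤ u → u ≤ 1 →
      negMulLog u ≤ η / 3 + K * (u * (1 - u)) := by
    refine ⟨max 2 (2 * (- log (η / 3))), by positivity, ?_⟩
    intro u hu0 hu1
    set K := max 2 (2 * (- log (η / 3))) with hK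
    have hK2 : 2 ≤ K := le_max_left _ _
    have hK3 : 2 * (- log (η / 3)) ≤ K := le_max_right _ _
    by_cases hh : 1 / 2 ≤ u
    · have hu : 0 < u := by linarith
      have h1 : negMulLog u ≤ 1 - u := by
        have := Real.log_le_sub_one_of_pos (x := u⁻¹) (by positivity)
        rw [Real.log_inv] at this
        have := mul_le_mul_of_nonneg_left this hu0
        rw [mul_sub, mul_inv_cancel₀ hu.ne'] at this
        simp only [negMulLog]; linarith
      have h2 : 1 - u ≤ 2 * (u * (1 - u)) := by nlinarith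
      have h3 : 2 * (u * (1 - u)) ≤ K * (u * (1 - u)) :=
        mul_le_mul_of_nonneg_right hK2 (mul_nonneg hu0 (by linarith))
      linarith
    · push Not at hh
      rcases hu0.eq_or_lt with h0 | hu
      · rw [← h0]; simp; positivity
      · have h1 : negMulLog u ≤ η / 3 + u * (- log (η / 3)) := by
          have h2 := Real.log_le_sub_one_of_pos (x := (η / 3) / u) (by positivity)
          rw [Real.log_div (by positivity) (by positivity)] at h2
          have h3 := mul_le_mul_of_nonneg_left h2 hu0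
          have h4 : u * ((η / 3) / u - 1) = η / 3 - u := by field_simp
          rw [h4] at h3
          simp only [negMulLog]; linarith
        have h2 : u * (- log (η / 3)) ≤ K * (u * (1 - u)) := by
          have h5 : u * (- log (η / 3)) ≤ u * (K / 2) :=
            mul_le_mul_of_nonneg_left (by linarith) hu0
          have h6 : u * (K / 2) ≤ K * (u * (1 - u)) := by
            have : 0 < K := by linarith
            nlinarith [mul_pos this hu]
          linarith
        linarith
  refine ⟨K, hK, ?_⟩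
  intro x y z hx hy hz
  by_cases h : x + y + z = 0
  · have e0 : x = 0 := by linarith
    have e1 : y = 0 := by linarith
    have e2 : z = 0 := by linarith
    subst e0 e1 e2
    simp [h3, a3]
  have h0 : 0 < x + y + z := lt_of_le_of_ne (by positivity) (Ne.symm h)
  rw [h3_eq_norm x y z h0]
  set X := x + y + z with hX
  have ea : a3 x y z = X * (1 - ((x / X) ^ 2 + (y / X) ^ 2 + (z / X) ^ 2)) := by
    rw [a3, ← hX]; field_simp
  rw [ea]
  have hsum : x / X + y / X + z / X = 1 := by rw [← add_div, ← add_div, ← hX, div_self h]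
  have px : 0 ≤ x / X := by positivity
  have py : 0 ≤ y / X := by positivity
  have pz : 0 ≤ z / X := by positivity
  have b0 := hb (x / X) px (by linarith)
  have b1 := hb (y / X) py (by linarith)
  have b2 := hb (z / X) pz (by linarith)
  have : negMulLog (x / X) + negMulLog (y / X) + negMulLog (z / X) ≤
      η + K * (1 - ((x / X) ^ 2 + (y / X) ^ 2 + (z / X) ^ 2)) := by
    have e : 1 - ((x / X) ^ 2 + (y / X) ^ 2 + (z / X) ^ 2) =
      x / X * (1 - x / X) + y / X * (1 - y / X) + z / X * (1 - z / X) := by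
      have : (1:ℝ) = x / X + y / X + z / X := hsum.symm
      nlinarith
    rw [e]; nlinarith
  have := mul_le_mul_of_nonneg_left this h0.le
  nlinarith

theorem h3_le_log3 (x y z : ℝ) (hx : 0 ≤ x) (hy : 0 ≤ y) (hz : 0 ≤ z) :
    h3 x y z ≤ (x + y + z) * log 3 := by
  by_cases h : x + y + z = 0
  · have e0 : x = 0 := by linarith
    have e1 : y = 0 := by linarith
    have e2 : z = 0 := by linarith
    subst e0 e1 e2
    simp [h3]
  have h0 : 0 < x + y + z := lt_of_le_of_ne (by positivity) (Ne.symm h)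
  rw [h3_eq_norm x y z h0]
  apply mul_le_mul_of_nonneg_left _ h0.le
  set X := x + y + z with hX
  have hsum : x / X + y / X + z / X = 1 := by rw [← add_div, ← add_div, ← hX, div_self h]
  have aux : ∀ u : ℝ, 0 ≤ u → negMulLog u ≤ u * log 3 + (1 / 3 - u) := by
    intro u hu
    rcases hu.eq_or_lt with hu0 | hu0
    · rw [← hu0]; simp
    · have := Real.log_le_sub_one_of_pos (x := (1 / 3) / u) (by positivity)
      rw [Real.log_div (by norm_num) hu0.ne', Real.log_div (by norm_num) (by norm_num)] at this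
      have := mul_le_mul_of_nonneg_left this hu
      have h4 : u * ((1 / 3) / u - 1) = 1 / 3 - u := by field_simp
      rw [h4] at this
      simp only [negMulLog, Real.log_one] at *; linarith
  have a0 := aux (x / X) (by positivity)
  have a1 := aux (y / X) (by positivity)
  have a2 := aux (z / X) (by positivity)
  have h5 : log 3 = (x / X + y / X + z / X) * log 3 := by rw [hsum, one_mul]
  nlinarith

end Pool.Agent.Helper27
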