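import Pool.Agent.Helper27.Typical

set_option autoImplicit false

namespace Pool.Agent.Helper27

open Finset Real Filter Topology

theorem tendsto_log_two : Tendsto (fun x : ℕ => Nat.log 2 x) atTop atTop := by
  rw [tendsto_atTop]
  intro b
  filter_upwards [eventually_ge_atTop (2 ^ b)] with x hx
  exact Nat.le_log_of_pow_le (by norm_num) hx

/-- many numbers below `2^m` are slow -/
theorem good_count (r : ℝ) (h0 : 0 < r) (h1 : r < 1)
    (hr : r * log 3 ≤ negMulLog r + negMulLog (1 - r)) (κ : ℝ) (hκ : 0 ≤ κ) (hκ1 : κ < g1)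
    (ε : ℝ) (hε : 0 < ε) :
    ∀ᶠ m : ℕ in atTop, 1 / 2 * exp (m * (negMulLog r + negMulLog (1 - r) - ε)) ≤
      (((range (2 ^ m)).filter (fun n => 2 < T^[m + ⌊κ * (r * m * log 3)⌋₊] n)).card : ℝ) := by
  obtain ⟨a, ha, hev⟩ := step r h0 h1.le hr κ hκ (TB_all κ hκ1)
  have hlr : log r < 0 := Real.log_neg h0 h1
  have hlr1 : log (1 - r) < 0 := Real.log_neg (by linarith) (by linarith)
  set C := -(log r) - log (1 - r) with hC
  have hC0 : 0 < C := by linarith
  set η := min 2 (ε / C) with hη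
  have hη0 : 0 < η := lt_min (by norm_num) (by positivity)
  have hη2 : η ≤ 2 := min_le_left _ _
  have hηC : η * C ≤ ε := by
    calc η * C ≤ ε / C * C := mul_le_mul_of_nonneg_right (min_le_right _ _) hC0.le
      _ = ε := by field_simp
  have ev2 := eventually_exp_le a (1 / 6) ha (by norm_num)
  have ev3 := eventually_exp_le (η ^ 2 / 4) (1 / 6) (by positivity) (by norm_num)
  filter_upwards [hev, ev2, ev3] with m h1m h2m h3m
  have hm0 : (0:ℝ) ≤ m := Nat.cast_nonneg m
  have hup := upper_tail r η h0.le h1.le hη0.le hη2 m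
  have hlow := lower_tail r η h0.le h1.le hη0.le hη2 m
  set z := m + ⌊κ * (r * m * log 3)⌋₊ with hz
  set G := (range (2 ^ m)).filter (fun n => 2 < T^[z] n) with hG
  set H := negMulLog r + negMulLog (1 - r) with hH
  -- total mass
  have key : ∀ n ∈ range (2 ^ m), P r m n ≤ (if T^[z] n ≤ 2 then P r m n else 0) +
      (if (r + η) * m ≤ (J m n : ℝ) then P r m n else 0) +
      (if (J m n : ℝ) ≤ (r - η) * m then P r m n else 0) +
      (if 2 < T^[z] n then exp (-(m * (H - ε))) else 0) := by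
    intro n _
    have hP := P_nonneg r h0.le h1.le m n
    have hE := Real.exp_pos (-(m * (H - ε)))
    by_cases c1 : T^[z] n ≤ 2
    · rw [if_pos c1]; split_ifs <;> linarith
    · have c1' : 2 < T^[z] n := by omega
      rw [if_neg c1, if_pos c1']
      by_cases c2 : (r + η) * m ≤ (J m n : ℝ)
      · rw [if_pos c2]; split_ifs <;> linarith
      · by_cases c3 : (J m n : ℝ) ≤ (r - η) * m
        · rw [if_neg c2, if_pos c3]; linarith
        · rw [if_neg c2, if_neg c3]
          push Not at c2 c3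
          have hPe : P r m n = exp ((J m n : ℝ) * log r + ((m : ℝ) - J m n) * log (1 - r)) := by
            rw [P_eq, Real.exp_add, mul_comm (J m n : ℝ), mul_comm ((m : ℝ) - J m n), Real.exp_mul,
              Real.exp_mul, Real.exp_log h0, Real.exp_log (by linarith), Real.rpow_natCast,
              ← Nat.cast_sub (J_le m n), Real.rpow_natCast]
          have : P r m n ≤ exp (-(m * (H - ε))) := by
            rw [hPe]
            apply Real.exp_le_exp.mpr
            have b1 : (J m n : ℝ) * log r ≤ ((r - η) * m) * log r :=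
              mul_le_mul_of_nonpos_right c3.le hlr.le
            have b2 : ((m : ℝ) - J m n) * log (1 - r) ≤ ((1 - r - η) * m) * log (1 - r) := by
              apply mul_le_mul_of_nonpos_right _ hlr1.le
              linarith
            have b3 : ((r - η) * m) * log r + ((1 - r - η) * m) * log (1 - r) = -(m * H) + m * (η * C) := by
              rw [hH, hC]; unfold negMulLog; ring
            have b4 := mul_le_mul_of_nonneg_left hηC hm0
            linarith
          linarith
  have hs := Finset.sum_le_sum key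
  rw [sum_P, Finset.sum_add_distrib, Finset.sum_add_distrib, Finset.sum_add_distrib] at hs
  have e1 : ∑ n ∈ range (2 ^ m), (if 2 < T^[z] n then exp (-(m * (H - ε))) else 0) =
      (G.card : ℝ) * exp (-(m * (H - ε))) := by
    rw [← Finset.sum_filter, Finset.sum_const, nsmul_eq_mul]
  rw [e1] at hs
  have hge : 1 / 2 ≤ (G.card : ℝ) * exp (-(m * (H - ε))) := by linarith
  have h5 : exp (m * (H - ε)) * exp (-(m * (H - ε))) = 1 := by rw [← Real.exp_add]; simp
  calc 1 / 2 * exp (m * (H - ε)) ≤ (G.card : ℝ) * exp (-(m * (H - ε))) * exp (m * (H - ε)) :=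
        mul_le_mul_of_nonneg_right hge (Real.exp_pos _).le
    _ = (G.card : ℝ) * (exp (m * (H - ε)) * exp (-(m * (H - ε)))) := by ring
    _ = (G.card : ℝ) := by rw [h5, mul_one]

theorem count_main (r : ℝ) (h0 : 0 < r) (h1 : r < 1)
    (hr : r * log 3 ≤ negMulLog r + negMulLog (1 - r)) (κ : ℝ)
    (hκ : κ < (1 + g1 * (r * log 3)) / log 2) (ε : ℝ) (hε : 0 < ε) :
    ∀ᶠ x : ℕ in atTop, (x : ℝ) ^ ((negMulLog r + negMulLog (1 - r)) / log 2 - ε) ≤
      ({n : ℕ | 1 ≤ n ∧ n ≤ x ∧ ∀ k : ℕ, T^[k] n = 1 → κ * log n ≤ k}.ncard : ℝ) := by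
  have hl2 : 0 < log 2 := Real.log_pos (by norm_num)
  have hl3 : 0 < log 3 := Real.log_pos (by norm_num)
  set H := negMulLog r + negMulLog (1 - r) with hH
  have hH0 : 0 ≤ H := by
    have := Real.negMulLog_nonneg h0.le h1.le
    have := Real.negMulLog_nonneg (by linarith : 0 ≤ 1 - r) (by linarith : 1 - r ≤ 1)
    linarith
  set κ' := max 0 ((κ * log 2 - 1) / (r * log 3)) with hκ'
  have hκ'0 : 0 ≤ κ' := le_max_left _ _
  have hκ'1 : κ' < g1 := by
    apply max_lt g1_pos
    rw [div_lt_iff₀ (by positivity)]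
    rw [lt_div_iff₀ hl2] at hκ
    linarith
  have hκ'2 : κ * log 2 ≤ 1 + κ' * (r * log 3) := by
    have : (κ * log 2 - 1) / (r * log 3) * (r * log 3) ≤ κ' * (r * log 3) :=
      mul_le_mul_of_nonneg_right (le_max_right _ _) (by positivity)
    have e : (κ * log 2 - 1) / (r * log 3) * (r * log 3) = κ * log 2 - 1 := by field_simp
    linarith
  have hev := good_count r h0 h1 hr κ' hκ'0 hκ'1 (ε * log 2 / 2) (by positivity)
  have ev2 : ∀ᶠ m : ℕ in atTop, H + log 2 ≤ ε * log 2 / 2 * m := by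
    have : Tendsto (fun m : ℕ => ε * log 2 / 2 * (m : ℝ)) atTop atTop :=
      Tendsto.const_mul_atTop (by positivity) tendsto_natCast_atTop_atTop
    exact this.eventually_ge_atTop _
  filter_upwards [tendsto_log_two.eventually (hev.and ev2), eventually_ge_atTop 1] with x hx hx1
  obtain ⟨hx2, hx3⟩ := hx
  set m := Nat.log 2 x with hm
  have hm0 : (0:ℝ) ≤ m := Nat.cast_nonneg m
  have hxl : 2 ^ m ≤ x := Nat.pow_log_le_self 2 (by omega)
  have hxu : x < 2 ^ (m + 1) := Nat.lt_pow_succ_log_self (by norm_num) x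
  have hsub : (((range (2 ^ m)).filter (fun n => 2 < T^[m + ⌊κ' * (r * m * log 3)⌋₊] n) : Finset ℕ) : Set ℕ) ⊆
      {n : ℕ | 1 ≤ n ∧ n ≤ x ∧ ∀ k : ℕ, T^[k] n = 1 → κ * log n ≤ k} := by
    intro n hn
    rw [mem_coe, mem_filter, mem_range] at hn
    obtain ⟨hn1, hn2⟩ := hn
    have hn3 : 2 < n := by
      by_contra h
      push Not at h
      have := iter_le_two (m + ⌊κ' * (r * m * log 3)⌋₊) n h
      omega
    refine ⟨by omega, by omega, ?_⟩
    intro k hk
    have hkk : m + ⌊κ' * (r * m * log 3)⌋₊ < k := by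
      by_contra h
      push Not at h
      have := low_mono k _ n h (by omega)
      omega
    have hk1 : (m : ℝ) + (κ' * (r * m * log 3)) < k := by
      have g1' : κ' * (r * m * log 3) < ⌊κ' * (r * m * log 3)⌋₊ + 1 := Nat.lt_floor_add_one _
      have g2 : ((m + ⌊κ' * (r * m * log 3)⌋₊ + 1 : ℕ) : ℝ) ≤ k := by exact_mod_cast hkk
      push_cast at g2
      linarith
    have hn4 : (1:ℝ) < n := by exact_mod_cast (by omega : 1 < n)
    have hlogn : 0 < log n := Real.log_pos hn4
    have hlogn2 : log n ≤ m * log 2 := by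
      have : (n : ℝ) ≤ 2 ^ m := by exact_mod_cast hn1.le
      have h4 := Real.log_le_log (by linarith) this
      rwa [Real.log_pow] at h4
    rcases le_total 0 κ with hk0 | hk0
    · have c1 := mul_le_mul_of_nonneg_left hlogn2 hk0
      have c2 := mul_le_mul_of_nonneg_left hκ'2 hm0
      nlinarith
    · have : κ * log n ≤ 0 := mul_nonpos_of_nonpos_of_nonneg hk0 hlogn.le
      have : (0:ℝ) ≤ k := Nat.cast_nonneg k
      linarith
  have hfin : {n : ℕ | 1 ≤ n ∧ n ≤ x ∧ ∀ k : ℕ, T^[k] n = 1 → κ * log n ≤ k}.Finite :=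
    (Set.finite_Icc 1 x).subset (fun n hn => ⟨hn.1, hn.2.1⟩)
  have hcard := Set.ncard_le_ncard hsub hfin
  rw [Set.ncard_coe_finset] at hcard
  have hcard' : (((range (2 ^ m)).filter (fun n => 2 < T^[m + ⌊κ' * (r * m * log 3)⌋₊] n)).card : ℝ) ≤
      ({n : ℕ | 1 ≤ n ∧ n ≤ x ∧ ∀ k : ℕ, T^[k] n = 1 → κ * log n ≤ k}.ncard : ℝ) := by
    exact_mod_cast hcard
  refine le_trans ?_ (le_trans hx2 hcard')
  have hx0 : (0:ℝ) < x := by exact_mod_cast hx1
  have l1 : (m : ℝ) * log 2 ≤ log x := by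
    have : (2:ℝ) ^ m ≤ x := by exact_mod_cast hxl
    have h4 := Real.log_le_log (by positivity) this
    rwa [Real.log_pow] at h4
  have l2 : log x ≤ (m + 1) * log 2 := by
    have : (x:ℝ) ≤ 2 ^ (m + 1) := by exact_mod_cast hxu.le
    have h4 := Real.log_le_log hx0 this
    rw [Real.log_pow] at h4
    push_cast at h4
    exact h4
  have hlog : log ((x : ℝ) ^ (H / log 2 - ε)) ≤ log (1 / 2 * exp (m * (H - ε * log 2 / 2))) := by
    rw [Real.log_rpow hx0, Real.log_mul (by norm_num) (Real.exp_pos _).ne', Real.log_exp, one_div,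
      Real.log_inv]
    have d1 : H / log 2 * log x ≤ H / log 2 * ((m + 1) * log 2) :=
      mul_le_mul_of_nonneg_left l2 (by positivity)
    have d2 : H / log 2 * ((m + 1) * log 2) = H * (m + 1) := by field_simp
    have d3 := mul_le_mul_of_nonneg_left l1 hε.le
    nlinarith
  exact (Real.log_le_log_iff (by positivity) (by positivity)).mp hlog

/-- typical lower bound with a power saving exceptional set -/
theorem typical_main (κ : ℝ) (hκ : κ < g1) : ∃ δ : ℝ, 0 < δ ∧ ∀ᶠ x : ℕ in atTop,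
    ({n : ℕ | 1 ≤ n ∧ n ≤ x ∧ ∃ k : ℕ, T^[k] n = 1 ∧ (k : ℝ) ≤ κ * log n}.ncard : ℝ) ≤
      (x : ℝ) ^ (1 - δ) := by
  have hl2 : 0 < log 2 := Real.log_pos (by norm_num)
  set κ' := max 0 κ with hκ'
  have hκ'0 : 0 ≤ κ' := le_max_left _ _
  have hκ'1 : κ' < g1 := max_lt g1_pos hκ
  obtain ⟨a, ha, hev⟩ := TB_all κ' hκ'1
  refine ⟨a / (2 * log 2), by positivity, ?_⟩
  have ev2 : ∀ᶠ m : ℕ in atTop, log 2 ≤ a / 2 * m := by
    have : Tendsto (fun m : ℕ => a / 2 * (m : ℝ)) atTop atTop :=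
      Tendsto.const_mul_atTop (by positivity) tendsto_natCast_atTop_atTop
    exact this.eventually_ge_atTop _
  have ht : Tendsto (fun x : ℕ => Nat.log 2 x + 1) atTop atTop :=
    (tendsto_add_atTop_nat 1).comp tendsto_log_two
  filter_upwards [ht.eventually (hev.and ev2), eventually_ge_atTop 1] with x hx hx1
  obtain ⟨hx2, hx3⟩ := hx
  set m := Nat.log 2 x + 1 with hm
  have hxl : 2 ^ (Nat.log 2 x) ≤ x := Nat.pow_log_le_self 2 (by omega)
  have hxu : x < 2 ^ m := Nat.lt_pow_succ_log_self (by norm_num) x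
  have hx0 : (0:ℝ) < x := by exact_mod_cast hx1
  have hsub : {n : ℕ | 1 ≤ n ∧ n ≤ x ∧ ∃ k : ℕ, T^[k] n = 1 ∧ (k : ℝ) ≤ κ * log n} ⊆
      ((fastS κ' m : Finset ℕ) : Set ℕ) := by
    intro n hn
    obtain ⟨hn1, hn2, k, hk, hkn⟩ := hn
    unfold fastS
    rw [mem_coe, mem_filter, mem_range]
    refine ⟨by omega, low_mono k _ n ?_ (by omega)⟩
    apply Nat.le_floor
    have hn3 : (1:ℝ) ≤ n := by exact_mod_cast hn1
    have h3 : 0 ≤ log n := Real.log_nonneg hn3
    have h4 : log n ≤ m * log 2 := by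
      have : (n : ℝ) ≤ 2 ^ m := by exact_mod_cast (by omega : n ≤ 2 ^ m)
      have h5 := Real.log_le_log (by linarith) this
      rwa [Real.log_pow] at h5
    calc (k : ℝ) ≤ κ * log n := hkn
      _ ≤ κ' * log n := mul_le_mul_of_nonneg_right (le_max_right _ _) h3
      _ ≤ κ' * (m * log 2) := mul_le_mul_of_nonneg_left h4 hκ'0
  have hcard0 := Set.ncard_le_ncard hsub (Finset.finite_toSet _)
  rw [Set.ncard_coe_finset] at hcard0
  have hcard : ({n : ℕ | 1 ≤ n ∧ n ≤ x ∧ ∃ k : ℕ, T^[k] n = 1 ∧ (k : ℝ) ≤ κ * log n}.ncard : ℝ) ≤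
      ((fastS κ' m).card : ℝ) := by exact_mod_cast hcard0
  refine le_trans hcard (le_trans hx2 ?_)
  rw [Real.rpow_def_of_pos hx0]
  apply Real.exp_le_exp.mpr
  have l1 : (m : ℝ) * log 2 ≤ log x + log 2 := by
    have : (2:ℝ) ^ (Nat.log 2 x) ≤ x := by exact_mod_cast hxl
    have h4 := Real.log_le_log (by positivity) this
    rw [Real.log_pow] at h4
    rw [hm]; push_cast; linarith
  have l2 : log x ≤ m * log 2 := by
    have : (x:ℝ) ≤ 2 ^ m := by exact_mod_cast hxu.le
    have h4 := Real.log_le_log hx0 this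
    rwa [Real.log_pow] at h4
  have e1 : log x * (1 - a / (2 * log 2)) = log x - a / 2 * (log x / log 2) := by
    field_simp
  rw [e1]
  have e2 : log x / log 2 ≤ m := by rw [div_le_iff₀ hl2]; exact l2
  have e3 := mul_le_mul_of_nonneg_left e2 (by positivity : 0 ≤ a / 2)
  linarith

end Pool.Agent.Helper27
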