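import Pool.Agent.Helper27.Chern

set_option autoImplicit false

namespace Pool.Agent.Helper27

open Finset Real Filter Topology

/-- sum of `negMulLog` of the slice masses -/
theorem sum_nml_mass (r : ℝ) (h0 : 0 ≤ r) (h1 : r ≤ 1) (L : ℕ) :
    ∑ b ∈ range (L + 1), negMulLog (mass r L b) ≤ log ((L : ℝ) + 1) := by
  have hc := Real.concaveOn_negMulLog.le_map_sum (t := range (L + 1))
    (w := fun _ => 1 / ((L : ℝ) + 1)) (p := fun b => mass r L b)
    (fun _ _ => by positivity) (by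
      rw [Finset.sum_const, card_range, nsmul_eq_mul]; push_cast; field_simp)
    (fun b _ => mass_nonneg r h0 h1 L b)
  simp only [smul_eq_mul] at hc
  rw [← Finset.mul_sum, ← Finset.mul_sum, sum_mass, mul_one] at hc
  have hL : (0 : ℝ) < (L : ℝ) + 1 := by positivity
  have e : negMulLog (1 / ((L : ℝ) + 1)) = 1 / ((L : ℝ) + 1) * log ((L : ℝ) + 1) := by
    unfold negMulLog
    rw [one_div, Real.log_inv]; ring
  rw [e] at hc
  exact le_of_mul_le_mul_left hc (by positivity)

theorem nml_mass_nonneg (r : ℝ) (h0 : 0 ≤ r) (h1 : r ≤ 1) (L b : ℕ) (hb : b ∈ range (L + 1)) :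
    0 ≤ negMulLog (mass r L b) := by
  apply Real.negMulLog_nonneg (mass_nonneg r h0 h1 L b)
  rw [← sum_mass r L]
  exact Finset.single_le_sum (fun b _ => mass_nonneg r h0 h1 L b) hb

theorem ent_slice_top (r : ℝ) (L b : ℕ) :
    ent (slice L b) (P r L) (c L) L = ∑ w ∈ slice L b, negMulLog (P r L w) := by
  apply ent_inj
  intro i hi j hj h
  have hi' := mem_filter.mp hi
  have hj' := mem_filter.mp hj
  rw [mem_range] at hi' hj'
  rw [ZMod.natCast_eq_natCast_iff] at h
  have b1 := c_bound L i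
  have b2 := c_bound L j
  have p2 : 0 < 2 ^ L := by positivity
  have hc : c L j = c L i := Nat.ModEq.eq_of_lt_of_lt h (by omega) (by omega)
  have a1 := affine L i
  have a2 := affine L j
  rw [hi'.2] at a1
  rw [hj'.2, hc] at a2
  have m1 : 3 ^ b * i + c L i ≡ 0 [MOD 2 ^ L] := by
    rw [← a1]; exact (Nat.modEq_zero_iff_dvd).mpr (Dvd.intro _ rfl)
  have m2 : 3 ^ b * j + c L i ≡ 0 [MOD 2 ^ L] := by
    rw [← a2]; exact (Nat.modEq_zero_iff_dvd).mpr (Dvd.intro _ rfl)
  have m3 : 3 ^ b * j ≡ 3 ^ b * i [MOD 2 ^ L] := Nat.ModEq.add_right_cancel' _ (m2.trans m1.symm)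
  have m4 : j ≡ i [MOD 2 ^ L] := by
    apply Nat.ModEq.cancel_left_of_coprime _ m3
    exact Nat.Coprime.pow _ _ (by norm_num)
  exact Nat.ModEq.eq_of_lt_of_lt m4 hj'.1 hi'.1

theorem sum_mass_b (r : ℝ) (L : ℕ) : ∑ b ∈ range (L + 1), mass r L b * (b : ℝ) = r * L := by
  rw [← sum_P_J r L, ← sum_slices L]
  apply Finset.sum_congr rfl
  intro b _
  unfold mass
  rw [Finset.sum_mul]
  apply Finset.sum_congr rfl
  intro w hw
  rw [(mem_filter.mp hw).2]

theorem sum_gg_ge (r η : ℝ) (h0 : 0 ≤ r) (h1 : r ≤ 1) (hη : 0 ≤ η) (L : ℕ) :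
    L * (negMulLog r + negMulLog (1 - r)) - EL r L - log ((L : ℝ) + 1) - η * L ≤
      ∑ b ∈ range (L + 1), ∑ i ∈ range (L - b), gg r η L b i := by
  have e1 : ∀ b ∈ range (L + 1), ent (slice L b) (P r L) (c L) L - se r L b - η * (L * mass r L b) ≤
      ∑ i ∈ range (L - b), gg r η L b i := by
    intro b hb
    have hbL : b ≤ L := by rw [mem_range] at hb; omega
    have e2 : ∑ i ∈ range (L - b), (inc (slice L b) (P r L) (c L) (b + i) - η * mass r L b) ≤
        ∑ i ∈ range (L - b), gg r η L b i :=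
      Finset.sum_le_sum (fun i _ => le_max_right _ _)
    rw [Finset.sum_sub_distrib, sum_inc, Nat.add_sub_cancel' hbL, Finset.sum_const, card_range,
      nsmul_eq_mul] at e2
    have e3 : ((L - b : ℕ) : ℝ) * (η * mass r L b) ≤ (L : ℝ) * (η * mass r L b) := by
      apply mul_le_mul_of_nonneg_right
      · exact_mod_cast Nat.sub_le L b
      · exact mul_nonneg hη (mass_nonneg r h0 h1 L b)
    unfold se
    linarith
  have e4 := Finset.sum_le_sum e1
  rw [Finset.sum_sub_distrib, Finset.sum_sub_distrib, ← Finset.mul_sum, ← Finset.mul_sum, sum_mass] at e4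
  have e5 : ∑ b ∈ range (L + 1), ent (slice L b) (P r L) (c L) L =
      L * (negMulLog r + negMulLog (1 - r)) := by
    rw [← sum_P_ent r L, ← sum_slices L]
    apply Finset.sum_congr rfl
    intro b _
    exact ent_slice_top r L b
  rw [e5] at e4
  have e6 := sum_nml_mass r h0 h1 L
  have e7 : EL r L = ∑ b ∈ range (L + 1), se r L b - ∑ b ∈ range (L + 1), negMulLog (mass r L b) := by
    unfold EL; rw [Finset.sum_sub_distrib]
  linarith

/-- expected deficiency of the number of odd steps -/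
theorem sum_mass_sub (r η : ℝ) (h0 : 0 ≤ r) (h1 : r ≤ 1) (hη : 0 ≤ η) (hη2 : η ≤ 2) (L l : ℕ)
    (hl : (l : ℝ) ≤ r * L) :
    ∑ b ∈ range (L + 1), ((l - b : ℕ) : ℝ) * mass r L b ≤ η * L + L * exp (-(η ^ 2 / 4 * L)) := by
  have e1 : ∑ b ∈ range (L + 1), ((l - b : ℕ) : ℝ) * mass r L b =
      ∑ w ∈ range (2 ^ L), ((l - J L w : ℕ) : ℝ) * P r L w := by
    rw [← sum_slices L]
    apply Finset.sum_congr rfl
    intro b _
    unfold mass
    rw [Finset.mul_sum]
    apply Finset.sum_congr rfl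
    intro w hw
    rw [(mem_filter.mp hw).2]
  rw [e1]
  have e2 : ∀ w ∈ range (2 ^ L), ((l - J L w : ℕ) : ℝ) * P r L w ≤
      η * L * P r L w + L * (if (J L w : ℝ) ≤ (r - η) * L then P r L w else 0) := by
    intro w _
    have hP := P_nonneg r h0 h1 L w
    have hlL : (l : ℝ) ≤ L := le_trans hl (by nlinarith [(Nat.cast_nonneg L : (0:ℝ) ≤ L)])
    have hL0 : (0:ℝ) ≤ L := Nat.cast_nonneg L
    split_ifs with hc
    · have : ((l - J L w : ℕ) : ℝ) ≤ L := by
        refine le_trans ?_ hlL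
        exact_mod_cast Nat.sub_le _ _
      have := mul_le_mul_of_nonneg_right this hP
      have : 0 ≤ η * L * P r L w := by positivity
      linarith
    · have : ((l - J L w : ℕ) : ℝ) ≤ η * L := by
        rcases le_total l (J L w) with h | h
        · rw [Nat.sub_eq_zero_of_le h]; simp; positivity
        · rw [Nat.cast_sub h]; push Not at hc; nlinarith
      have := mul_le_mul_of_nonneg_right this hP
      linarith
  refine le_trans (Finset.sum_le_sum e2) ?_
  rw [Finset.sum_add_distrib, ← Finset.mul_sum, ← Finset.mul_sum, sum_P, mul_one]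
  have := lower_tail r η h0 h1 hη hη2 L
  have := mul_le_mul_of_nonneg_left this (Nat.cast_nonneg L : (0:ℝ) ≤ L)
  linarith

theorem eventually_log_le (ε : ℝ) (hε : 0 < ε) : ∀ᶠ L : ℕ in atTop, log ((L : ℝ) + 1) ≤ ε * L := by
  have h1 : Tendsto (fun x : ℝ => log x / x) atTop (𝓝 0) := by
    have := Real.isLittleO_log_id_atTop.tendsto_div_nhds_zero
    simpa using this
  have h2 : Tendsto (fun L : ℕ => ((L : ℝ) + 1)) atTop atTop :=
    tendsto_atTop_add_const_right _ _ tendsto_natCast_atTop_atTop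
  have h3 := (h1.comp h2).eventually (gt_mem_nhds (show (0:ℝ) < ε / 2 by positivity))
  filter_upwards [h3, eventually_ge_atTop 1] with L hL hL1
  have hL1' : (1:ℝ) ≤ L := by exact_mod_cast hL1
  simp only [Function.comp_apply] at hL
  rw [div_lt_iff₀ (by positivity)] at hL
  nlinarith

theorem eventually_exp_le (a ε : ℝ) (ha : 0 < a) (hε : 0 < ε) :
    ∀ᶠ L : ℕ in atTop, exp (-(a * L)) ≤ ε := by
  have h1 : Tendsto (fun L : ℕ => exp (-(a * (L : ℝ)))) atTop (𝓝 0) := by
    apply Real.tendsto_exp_atBot.comp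
    apply tendsto_neg_atTop_atBot.comp
    exact Tendsto.const_mul_atTop ha tendsto_natCast_atTop_atTop
  exact (h1.eventually (gt_mem_nhds hε)).mono (fun L h => h.le)

/-- first estimate: lower bound for `EL` from the limiting increments -/
theorem EL_ge_aux (r : ℝ) (h0 : 0 < r) (h1 : r ≤ 1) (d : ℕ → ℝ) (ds : ℝ)
    (hds : Tendsto d atTop (𝓝 ds)) (hds0 : 0 ≤ ds)
    (hC : ∀ L l : ℕ, ∑ m ∈ range l, d m ≤
        ∑ b ∈ range (L + 1), (se r L b + ((l - b : ℕ) : ℝ) * (mass r L b * log 3)))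
    (ε : ℝ) (hε : 0 < ε) : ∀ᶠ L : ℕ in atTop, (r * ds - ε) * L ≤ EL r L := by
  have hl3 : 0 < log 3 := Real.log_pos (by norm_num)
  have hce := hds.cesaro
  set ε' := ε / 4 with hε'
  have hε'0 : 0 < ε' := by positivity
  have hl : Tendsto (fun L : ℕ => ⌊r * L⌋₊) atTop atTop :=
    tendsto_nat_floor_atTop.comp (Tendsto.const_mul_atTop h0 tendsto_natCast_atTop_atTop)
  have h2 := (hce.comp hl).eventually (lt_mem_nhds (show ds - ε' < ds by linarith))
  obtain ⟨η, hη0, hη1, hη2⟩ : ∃ η : ℝ, 0 < η ∧ η ≤ 2 ∧ η * log 3 ≤ ε' := by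
    refine ⟨min 2 (ε' / log 3), lt_min (by norm_num) (by positivity), min_le_left _ _, ?_⟩
    calc min 2 (ε' / log 3) * log 3 ≤ ε' / log 3 * log 3 :=
          mul_le_mul_of_nonneg_right (min_le_right _ _) hl3.le
      _ = ε' := by field_simp
  have h3 := eventually_exp_le (η ^ 2 / 4) (ε' / 2 / log 3) (by positivity) (by positivity)
  have h4 := eventually_log_le (ε' / 2) (by positivity)
  have h5 : ∀ᶠ L : ℕ in atTop, ds ≤ ε' * L := by
    have : Tendsto (fun L : ℕ => ε' * (L : ℝ)) atTop atTop :=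
      Tendsto.const_mul_atTop hε'0 tendsto_natCast_atTop_atTop
    exact this.eventually_ge_atTop ds
  filter_upwards [h2, h3, h4, h5, hl.eventually_ge_atTop 1] with L hL2 hL3 hL4 hL5 hL6
  simp only [Function.comp_apply] at hL2
  set l := ⌊r * (L : ℝ)⌋₊ with hldef
  have hL0 : (0:ℝ) ≤ L := Nat.cast_nonneg L
  have hl1 : (l : ℝ) ≤ r * L := Nat.floor_le (by positivity)
  have hl2 : r * L < l + 1 := Nat.lt_floor_add_one _
  have hl0 : (0:ℝ) < l := by exact_mod_cast hL6
  have hlL : (l : ℝ) ≤ L := le_trans hl1 (by nlinarith)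
  have hsum : (ds - ε') * l ≤ ∑ m ∈ range l, d m := by
    rw [lt_inv_mul_iff₀ hl0] at hL2
    linarith
  have hCL := hC L l
  rw [Finset.sum_add_distrib] at hCL
  have hm := sum_mass_sub r η h0.le h1 hη0.le hη1 L l hl1
  have hm2 : ∑ b ∈ range (L + 1), ((l - b : ℕ) : ℝ) * (mass r L b * log 3) =
      (∑ b ∈ range (L + 1), ((l - b : ℕ) : ℝ) * mass r L b) * log 3 := by
    rw [Finset.sum_mul]; apply Finset.sum_congr rfl; intro b _; ring
  rw [hm2] at hCL
  have hm3 := mul_le_mul_of_nonneg_right hm hl3.le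
  have hm4 : L * exp (-(η ^ 2 / 4 * L)) * log 3 ≤ L * (ε' / 2) := by
    have : exp (-(η ^ 2 / 4 * L)) * log 3 ≤ ε' / 2 := by
      calc exp (-(η ^ 2 / 4 * L)) * log 3 ≤ ε' / 2 / log 3 * log 3 :=
            mul_le_mul_of_nonneg_right hL3 hl3.le
        _ = ε' / 2 := by field_simp
    calc L * exp (-(η ^ 2 / 4 * L)) * log 3 = L * (exp (-(η ^ 2 / 4 * L)) * log 3) := by ring
      _ ≤ L * (ε' / 2) := mul_le_mul_of_nonneg_left this hL0
  have hnm := sum_nml_mass r h0.le h1 L
  have hEL : EL r L = ∑ b ∈ range (L + 1), se r L b - ∑ b ∈ range (L + 1), negMulLog (mass r L b) := by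
    unfold EL; rw [Finset.sum_sub_distrib]
  have g1 : η * L * log 3 ≤ ε' * L := by
    calc η * L * log 3 = (η * log 3) * L := by ring
      _ ≤ ε' * L := mul_le_mul_of_nonneg_right hη2 hL0
  have g2 : (ds - ε') * l ≥ r * ds * L - ds - ε' * L := by
    have a1 : ds * l ≥ ds * (r * L - 1) := mul_le_mul_of_nonneg_left (by linarith) hds0
    have a2 : ε' * l ≤ ε' * L := mul_le_mul_of_nonneg_left hlL hε'0.le
    nlinarith
  have : ε = 4 * ε' := by rw [hε']; ring
  nlinarith

/-- Full growth: the slice entropies have maximal growth rate. -/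
theorem full_growth (r : ℝ) (h0 : 0 < r) (h1 : r ≤ 1)
    (hr : r * log 3 ≤ negMulLog r + negMulLog (1 - r)) (ε : ℝ) (hε : 0 < ε) :
    ∀ᶠ L : ℕ in atTop, (r * log 3 - ε) * L ≤ EL r L := by
  obtain ⟨d, hd0, hd3, hmono, hB, hC⟩ := exists_d r h0 h1
  have hl3 : 0 < log 3 := Real.log_pos (by norm_num)
  have hbdd : BddAbove (Set.range d) := ⟨log 3, by rintro _ ⟨i, rfl⟩; exact hd3 i⟩
  have hds := tendsto_atTop_ciSup hmono hbdd
  set ds := ⨆ i, d i with hdsdef
  have hle : ∀ i, d i ≤ ds := fun i => le_ciSup hbdd i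
  have hds0 : 0 ≤ ds := le_trans (hd0 0) (hle 0)
  have hds3 : ds ≤ log 3 := ciSup_le hd3
  have hE := EL_ge_aux r h0 h1 d ds hds hds0 hC
  rcases hds3.eq_or_lt with heq | hlt
  · rw [← heq]; exact hE ε hε
  exfalso
  set δ := log 3 - ds with hδ
  have hδ0 : 0 < δ := by linarith
  set H := negMulLog r + negMulLog (1 - r) with hH
  obtain ⟨K, hK, hup⟩ := h3_upper (r * δ / 2) (by positivity)
  have hev := (hE (δ ^ 2 * r / (32 * K)) (by positivity)).and
    ((eventually_log_le (r * δ / 4) (by positivity)).and (eventually_ge_atTop 1))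
  obtain ⟨L, hL1, hL2, hL3⟩ := hev.exists
  have hL3' : (1:ℝ) ≤ L := by exact_mod_cast hL3
  have hBL := hB (r * δ / 2) K hK hup L
  have hgg := sum_gg_ge r (r * δ / 2) h0.le h1 (by positivity) L
  -- lower bound of the gain
  have hgain : δ / (4 * K) * ∑ b ∈ range (L + 1), ∑ i ∈ range (L - b), gg r (r * δ / 2) L b i ≤
      ∑ b ∈ range (L + 1), ∑ i ∈ range (L - b), 1 / (4 * K) * (log 3 - d i) * gg r (r * δ / 2) L b i := by
    rw [Finset.mul_sum]
    apply Finset.sum_le_sum
    intro b _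
    rw [Finset.mul_sum]
    apply Finset.sum_le_sum
    intro i _
    apply mul_le_mul_of_nonneg_right _ (gg_nonneg _ _ _ _ _)
    rw [div_mul_eq_mul_div, one_mul]
    apply div_le_div_of_nonneg_right _ (by positivity)
    have := hle i
    linarith
  have hgg0 : 0 ≤ ∑ b ∈ range (L + 1), ∑ i ∈ range (L - b), gg r (r * δ / 2) L b i :=
    Finset.sum_nonneg (fun b _ => Finset.sum_nonneg (fun i _ => gg_nonneg _ _ _ _ _))
  have hsplit : ∑ b ∈ range (L + 1), ∑ i ∈ range (L - b),
      (mass r L b * d i + 1 / (4 * K) * (log 3 - d i) * gg r (r * δ / 2) L b i) =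
      ∑ b ∈ range (L + 1), mass r L b * ∑ i ∈ range (L - b), d i +
      ∑ b ∈ range (L + 1), ∑ i ∈ range (L - b), 1 / (4 * K) * (log 3 - d i) * gg r (r * δ / 2) L b i := by
    rw [← Finset.sum_add_distrib]
    apply Finset.sum_congr rfl
    intro b _
    rw [Finset.sum_add_distrib, Finset.mul_sum]
  rw [hsplit] at hBL
  -- difference of the sums of increments
  have hdiff : ∑ m ∈ range L, d m - ∑ b ∈ range (L + 1), mass r L b * ∑ i ∈ range (L - b), d i ≤
      r * L * ds := by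
    have e1 : ∑ m ∈ range L, d m = ∑ b ∈ range (L + 1), mass r L b * ∑ m ∈ range L, d m := by
      rw [← Finset.sum_mul, sum_mass, one_mul]
    rw [e1, ← Finset.sum_sub_distrib, ← sum_mass_b, Finset.sum_mul]
    apply Finset.sum_le_sum
    intro b hb
    have hbL : b ≤ L := by rw [mem_range] at hb; omega
    rw [← mul_sub, mul_assoc]
    apply mul_le_mul_of_nonneg_left _ (mass_nonneg r h0.le h1 L b)
    have e2 : ∑ m ∈ range L, d m = ∑ m ∈ range (L - b), d m + ∑ i ∈ range b, d (L - b + i) := by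
      conv_lhs => rw [← Nat.sub_add_cancel hbL]
      rw [Finset.sum_range_add]
    rw [e2, add_sub_cancel_left]
    calc ∑ i ∈ range b, d (L - b + i) ≤ ∑ _i ∈ range b, ds := Finset.sum_le_sum (fun i _ => hle _)
      _ = b * ds := by rw [Finset.sum_const, card_range, nsmul_eq_mul]
  set G := ∑ b ∈ range (L + 1), ∑ i ∈ range (L - b), gg r (r * δ / 2) L b i with hG
  have hmain : EL r L + δ / (4 * K) * G ≤ r * L * ds := by linarith
  have hELu : EL r L ≤ r * L * ds := by
    have : 0 ≤ δ / (4 * K) * G := by positivity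
    linarith
  have hGl : L * (r * δ) / 4 ≤ G := by
    have a1 : (L : ℝ) * (r * log 3) ≤ L * H := mul_le_mul_of_nonneg_left hr (by positivity)
    have a2 : r * log 3 = r * ds + r * δ := by rw [hδ]; ring
    rw [a2] at a1
    nlinarith
  have hfin : δ / (4 * K) * (L * (r * δ) / 4) ≤ δ / (4 * K) * G :=
    mul_le_mul_of_nonneg_left hGl (by positivity)
  have hfin2 : δ / (4 * K) * (L * (r * δ) / 4) = 2 * (δ ^ 2 * r / (32 * K) * L) := by
    field_simp; ring
  have hpos : 0 < δ ^ 2 * r / (32 * K) * L := by positivity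
  nlinarith

end Pool.Agent.Helper27
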