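import Pool.Agent.Helper27.Law
import Pool.Agent.Helper27.Basic

set_option autoImplicit false

namespace Pool.Agent.Helper27

open Finset Real

section Incr

variable {ι κ : Type*}

/-- increment of the entropy sum from level `m` to level `m + 1` -/
noncomputable def inc (s : Finset ι) (W : ι → ℝ) (A : ι → ℕ) (m : ℕ) : ℝ :=
  ent s W A (m + 1) - ent s W A m

/-- the translation element used at level `m + 1` -/
def tt (m : ℕ) : ZMod (3 ^ (m + 1)) := ((3 ^ m : ℕ) : ZMod (3 ^ (m + 1)))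

theorem inc_eq (s : Finset ι) (W : ι → ℝ) (A : ι → ℕ) (m : ℕ) :
    inc s W A m = D (tt m) (law s W A (m + 1)) := ent_chain s W A m

theorem inc_nonneg (s : Finset ι) (W : ι → ℝ) (hW : ∀ i ∈ s, 0 ≤ W i) (A : ι → ℕ) (m : ℕ) :
    0 ≤ inc s W A m := by
  rw [inc_eq]
  exact D_nonneg _ _ (law_nonneg s W hW A _)

theorem inc_le (s : Finset ι) (W : ι → ℝ) (hW : ∀ i ∈ s, 0 ≤ W i) (A : ι → ℕ) (m : ℕ) :
    inc s W A m ≤ (∑ i ∈ s, W i) * log 3 := by
  rw [inc_eq]
  have := D_le (tt m) _ (law_nonneg s W hW A (m + 1))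
  rwa [sum_law] at this

theorem sum_inc (s : Finset ι) (W : ι → ℝ) (A : ι → ℕ) (a n : ℕ) :
    ∑ i ∈ range n, inc s W A (a + i) = ent s W A (a + n) - ent s W A a := by
  have := Finset.sum_range_sub (fun i => ent s W A (a + i)) n
  simpa [inc, add_assoc] using this

theorem ent_zero (s : Finset ι) (W : ι → ℝ) (A : ι → ℕ) :
    ent s W A 0 = negMulLog (∑ i ∈ s, W i) := by
  unfold ent
  have h1 : ∀ g : ZMod (3 ^ 0), law s W A 0 g = ∑ i ∈ s, W i := by
    intro g
    unfold law
    apply Finset.sum_congr rfl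
    intro i _
    have : Subsingleton (ZMod (3 ^ 0)) := by
      rw [pow_zero]; exact inferInstanceAs (Subsingleton (Fin 1))
    rw [if_pos (Subsingleton.elim _ _)]
  rw [Finset.sum_congr rfl (fun g _ => by rw [h1 g])]
  simp

/-- value function of the sum on a product set -/
theorem law_prod (s : Finset ι) (s' : Finset κ) (W : ι → ℝ) (V : κ → ℝ) (X : ι → ℕ) (Y : κ → ℕ)
    (m : ℕ) (g : ZMod (3 ^ m)) :
    law (s ×ˢ s') (fun x => W x.1 * V x.2) (fun x => X x.1 + Y x.2) m g =
      conv (law s' V Y m) (law s W X m) g := by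
  unfold conv
  rw [sum_law_mul s' V Y m (fun a => law s W X m (g - a))]
  unfold law
  rw [Finset.sum_product, Finset.sum_comm]
  apply Finset.sum_congr rfl
  intro j _
  rw [Finset.mul_sum]
  apply Finset.sum_congr rfl
  intro i _
  have : (((X i + Y j : ℕ) : ZMod (3 ^ m)) = g) ↔ ((X i : ZMod (3 ^ m)) = g - (Y j : ZMod (3 ^ m))) := by
    push_cast
    exact eq_sub_iff_add_eq.symm
  simp only [this]
  split_ifs
  · ring
  · ring

/-- the gain inequality on a product set -/
theorem inc_prod (η K : ℝ) (hK : 0 < K) (hup : ∀ x y z : ℝ, 0 ≤ x → 0 ≤ y → 0 ≤ z →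
    h3 x y z ≤ η * (x + y + z) + K * a3 x y z)
    (s : Finset ι) (s' : Finset κ) (W : ι → ℝ) (V : κ → ℝ) (hW : ∀ i ∈ s, 0 ≤ W i)
    (hV : ∀ i ∈ s', 0 ≤ V i) (X : ι → ℕ) (Y : κ → ℕ) (m : ℕ) :
    (∑ j ∈ s', V j) * inc s W X m + 1 / (4 * K) * ((∑ i ∈ s, W i) * log 3 - inc s W X m) *
      max 0 (inc s' V Y m - η * ∑ j ∈ s', V j) ≤
    inc (s ×ˢ s') (fun x => W x.1 * V x.2) (fun x => X x.1 + Y x.2) m := by
  rw [inc_eq (s ×ˢ s')]
  have hl : law (s ×ˢ s') (fun x => W x.1 * V x.2) (fun x => X x.1 + Y x.2) (m + 1) =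
      conv (law s' V Y (m + 1)) (law s W X (m + 1)) := by
    funext g; exact law_prod s s' W V X Y (m + 1) g
  rw [hl]
  have hp := law_nonneg s' V hV Y (m + 1)
  have hq := law_nonneg s W hW X (m + 1)
  have h1 := D_conv (tt m) (t_three m) (law s' V Y (m + 1)) (law s W X (m + 1)) hp hq
  have h2 := Bb_lower (tt m) (law s W X (m + 1)) hq
  have h3 := D_upper η K hup (tt m) (law s' V Y (m + 1)) hp
  have h4 := Aa_nonneg (tt m) (law s' V Y (m + 1)) hp
  have h5 := D_le (tt m) (law s W X (m + 1)) hq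
  rw [sum_law] at h1 h2 h3 h5
  rw [← inc_eq] at h1 h2 h3 h5
  set A := Aa (tt m) (law s' V Y (m + 1)) with hA
  set B := Bb (tt m) (law s W X (m + 1)) with hB
  set M := (∑ i ∈ s, W i) * log 3 - inc s W X m with hM
  set R := max 0 (inc s' V Y m - η * ∑ j ∈ s', V j) with hR
  have hM0 : 0 ≤ M := by linarith
  have hRA : R ≤ K * A := by
    apply max_le
    · positivity
    · linarith
  have hAB : 1 / (4 * K) * M * R ≤ 3 / 4 * A * B := by
    calc 1 / (4 * K) * M * R ≤ 1 / (4 * K) * M * (K * A) := by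
          apply mul_le_mul_of_nonneg_left hRA; positivity
      _ = 3 / 4 * A * (1 / 3 * M) := by field_simp
      _ ≤ 3 / 4 * A * B := by
          apply mul_le_mul_of_nonneg_left h2; positivity
  linarith

end Incr

section Scale

variable {ι : Type*}

theorem ent_mul_two_pow (s : Finset ι) (W : ι → ℝ) (A : ι → ℕ) (m k : ℕ) :
    ent s W (fun i => 2 ^ k * A i) m = ent s W A m := by
  apply ent_congr
  intro i _ j _
  rw [ZMod.natCast_eq_natCast_iff, ZMod.natCast_eq_natCast_iff]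
  constructor
  · intro h
    apply Nat.ModEq.cancel_left_of_coprime _ h
    exact Nat.Coprime.pow _ _ (by norm_num)
  · intro h; exact h.mul_left _

theorem ent_three_mul (s : Finset ι) (W : ι → ℝ) (A : ι → ℕ) (m b : ℕ) :
    ent s W (fun i => 3 ^ b * A i) (b + m) = ent s W A m := by
  apply ent_congr
  intro i _ j _
  rw [ZMod.natCast_eq_natCast_iff, ZMod.natCast_eq_natCast_iff, pow_add]
  constructor
  · intro h
    exact Nat.ModEq.mul_left_cancel' (by positivity) h
  · intro h; exact Nat.ModEq.mul_left' _ h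

theorem inc_mul_two_pow (s : Finset ι) (W : ι → ℝ) (A : ι → ℕ) (m k : ℕ) :
    inc s W (fun i => 2 ^ k * A i) m = inc s W A m := by
  unfold inc; rw [ent_mul_two_pow, ent_mul_two_pow]

theorem inc_three_mul (s : Finset ι) (W : ι → ℝ) (A : ι → ℕ) (m b : ℕ) :
    inc s W (fun i => 3 ^ b * A i) (b + m) = inc s W A m := by
  unfold inc; rw [add_assoc, ent_three_mul, ent_three_mul]

end Scale

end Pool.Agent.Helper27
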