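import Pool.Agent.Helper27.Slice

set_option autoImplicit false

namespace Pool.Agent.Helper27

open Finset Real

theorem pW_nonneg (r : ℝ) (h0 : 0 ≤ r) (h1 : r ≤ 1) (k L : ℕ) (x : ℕ × ℕ) :
    0 ≤ P r k x.1 * P r L x.2 := mul_nonneg (P_nonneg r h0 h1 _ _) (P_nonneg r h0 h1 _ _)

theorem Dn_ge (r : ℝ) (h0 : 0 ≤ r) (h1 : r ≤ 1) (k L m : ℕ) :
    ∑ b ∈ range (L + 1), (pe r k L b (m + 1) - pe r k L b m) ≤ Dn r m (k + L) := by
  unfold Dn
  rw [inc_eq]
  have hl : law (range (2 ^ (k + L))) (P r (k + L)) (c (k + L)) (m + 1) = fun g =>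
      ∑ b ∈ range (L + 1), law (range (2 ^ k) ×ˢ slice L b) (fun x => P r k x.1 * P r L x.2)
        (fun x => 3 ^ b * c k x.1 + 2 ^ k * c L x.2) (m + 1) g := by
    funext g; exact law_decomp r k L (m + 1) g
  rw [hl]
  have h := D_sum (tt m) (range (L + 1)) (fun b => law (range (2 ^ k) ×ˢ slice L b)
    (fun x => P r k x.1 * P r L x.2) (fun x => 3 ^ b * c k x.1 + 2 ^ k * c L x.2) (m + 1))
    (fun b _ g => law_nonneg _ _ (fun x _ => pW_nonneg r h0 h1 k L x) _ _ g)
  refine le_trans (le_of_eq ?_) h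
  apply Finset.sum_congr rfl
  intro b _
  exact inc_eq _ _ _ _

/-- truncated excess increments of a slice -/
noncomputable def gg (r η : ℝ) (L b i : ℕ) : ℝ :=
  max 0 (inc (slice L b) (P r L) (c L) (b + i) - η * mass r L b)

theorem gg_nonneg (r η : ℝ) (L b i : ℕ) : 0 ≤ gg r η L b i := le_max_left _ _

theorem pe_inc_ge (η K : ℝ) (hK : 0 < K) (hup : ∀ x y z : ℝ, 0 ≤ x → 0 ≤ y → 0 ≤ z →
    h3 x y z ≤ η * (x + y + z) + K * a3 x y z) (r : ℝ) (h0 : 0 ≤ r) (h1 : r ≤ 1) (k L b i : ℕ) :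
    mass r L b * Dn r i k + 1 / (4 * K) * (log 3 - Dn r i k) * gg r η L b i ≤
      pe r k L b (b + i + 1) - pe r k L b (b + i) := by
  have h := inc_prod η K hK hup (range (2 ^ k)) (slice L b) (P r k) (P r L)
    (fun _ _ => P_nonneg r h0 h1 _ _) (fun _ _ => P_nonneg r h0 h1 _ _)
    (fun u => 3 ^ b * c k u) (fun w => 2 ^ k * c L w) (b + i)
  rw [inc_three_mul, inc_mul_two_pow, sum_P, one_mul] at h
  exact h

theorem ent_slice_zero (r : ℝ) (L b : ℕ) :
    ent (slice L b) (P r L) (c L) 0 = negMulLog (mass r L b) := ent_zero _ _ _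

theorem pe_sum (r : ℝ) (k L b n : ℕ) :
    ∑ i ∈ range n, (pe r k L b (b + i + 1) - pe r k L b (b + i)) = pe r k L b (b + n) - pe r k L b b :=
  sum_inc _ _ _ b n

theorem ineqB (η K : ℝ) (hK : 0 < K) (hup : ∀ x y z : ℝ, 0 ≤ x → 0 ≤ y → 0 ≤ z →
    h3 x y z ≤ η * (x + y + z) + K * a3 x y z) (r : ℝ) (h0 : 0 ≤ r) (h1 : r ≤ 1) (k L : ℕ) :
    EL r L + ∑ b ∈ range (L + 1), ∑ i ∈ range (L - b),
      (mass r L b * Dn r i k + 1 / (4 * K) * (log 3 - Dn r i k) * gg r η L b i) ≤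
    ∑ m ∈ range L, Dn r m (k + L) := by
  have e1 : ∑ b ∈ range (L + 1), (pe r k L b L - pe r k L b 0) ≤ ∑ m ∈ range L, Dn r m (k + L) := by
    refine le_trans (le_of_eq ?_) (Finset.sum_le_sum (fun m _ => Dn_ge r h0 h1 k L m))
    rw [Finset.sum_comm]
    apply Finset.sum_congr rfl
    intro b _
    exact (Finset.sum_range_sub _ _).symm
  refine le_trans ?_ e1
  unfold EL
  rw [← Finset.sum_add_distrib]
  apply Finset.sum_le_sum
  intro b hb
  have hbL : b ≤ L := by rw [mem_range] at hb; omega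
  have e2 : ∑ i ∈ range (L - b),
      (mass r L b * Dn r i k + 1 / (4 * K) * (log 3 - Dn r i k) * gg r η L b i) ≤
      pe r k L b (b + (L - b)) - pe r k L b b := by
    rw [← pe_sum]
    exact Finset.sum_le_sum (fun i _ => pe_inc_ge η K hK hup r h0 h1 k L b i)
  rw [Nat.add_sub_cancel' hbL, pe_at r k L b b le_rfl] at e2
  rw [pe_at r k L b 0 (Nat.zero_le _), ent_slice_zero]
  unfold se
  linarith

theorem ineqC (r : ℝ) (h0 : 0 ≤ r) (h1 : r ≤ 1) (k L l : ℕ) :
    ∑ m ∈ range l, Dn r m (k + L) ≤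
      ∑ b ∈ range (L + 1), (se r L b + ((l - b : ℕ) : ℝ) * (mass r L b * log 3)) := by
  rw [← En_eq_sum]
  have e1 : En r l (k + L) ≤ ∑ b ∈ range (L + 1), pe r k L b l := by
    unfold En pe ent
    rw [Finset.sum_comm]
    apply Finset.sum_le_sum
    intro g _
    rw [law_decomp]
    exact negMulLog_sum_le _ _ (fun b _ => law_nonneg _ _ (fun x _ => pW_nonneg r h0 h1 k L x) _ _ g)
  refine le_trans e1 ?_
  apply Finset.sum_le_sum
  intro b _
  have hi0 : ∀ m, pe r k L b m ≤ pe r k L b (m + 1) := by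
    intro m
    have := inc_nonneg (range (2 ^ k) ×ˢ slice L b) (fun x => P r k x.1 * P r L x.2)
      (fun x _ => pW_nonneg r h0 h1 k L x) (fun x => 3 ^ b * c k x.1 + 2 ^ k * c L x.2) m
    unfold inc at this
    unfold pe
    linarith
  have hi1 : ∀ m, pe r k L b (m + 1) - pe r k L b m ≤ mass r L b * log 3 := by
    intro m
    have := inc_le (range (2 ^ k) ×ˢ slice L b) (fun x => P r k x.1 * P r L x.2)
      (fun x _ => pW_nonneg r h0 h1 k L x) (fun x => 3 ^ b * c k x.1 + 2 ^ k * c L x.2) m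
    rw [Finset.sum_product] at this
    simp only [← Finset.mul_sum, ← Finset.sum_mul, sum_P, one_mul] at this
    exact this
  have hmono : Monotone (pe r k L b) := monotone_nat_of_le_succ hi0
  rcases le_total l b with h | h
  · have : pe r k L b l ≤ se r L b := by
      have := hmono h
      rw [pe_at r k L b b le_rfl] at this
      exact this
    rw [Nat.sub_eq_zero_of_le h]
    simpa using this
  · have e3 : ∑ i ∈ range (l - b), (pe r k L b (b + i + 1) - pe r k L b (b + i)) ≤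
        ∑ i ∈ range (l - b), mass r L b * log 3 :=
      Finset.sum_le_sum (fun i _ => hi1 _)
    rw [pe_sum, Finset.sum_const, card_range, nsmul_eq_mul, Nat.add_sub_cancel' h,
      pe_at r k L b b le_rfl] at e3
    unfold se
    linarith

theorem mass_one_zero (r : ℝ) : mass r 1 0 = 1 - r := by
  unfold mass slice
  have : (range (2 ^ 1)).filter (fun w => J 1 w = 0) = {0} := by decide
  rw [this, Finset.sum_singleton]
  simp [P]

theorem mass_one_one (r : ℝ) : mass r 1 1 = r := by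
  unfold mass slice
  have : (range (2 ^ 1)).filter (fun w => J 1 w = 1) = {1} := by decide
  rw [this, Finset.sum_singleton]
  simp [P]

theorem ineqA (r : ℝ) (h0 : 0 ≤ r) (h1 : r ≤ 1) (k i : ℕ) :
    (1 - r) * Dn r (i + 1) k + r * Dn r i k ≤ Dn r (i + 1) (k + 1) := by
  obtain ⟨K, hK, hup⟩ := h3_upper 1 one_pos
  have h := Dn_ge r h0 h1 k 1 (i + 1)
  rw [Finset.sum_range_succ, Finset.sum_range_succ, Finset.sum_range_zero, zero_add] at h
  have a0 := pe_inc_ge 1 K hK hup r h0 h1 k 1 0 (i + 1)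
  have a1 := pe_inc_ge 1 K hK hup r h0 h1 k 1 1 i
  rw [mass_one_zero, zero_add] at a0
  rw [mass_one_one, add_comm 1 i] at a1
  have b0 : 0 ≤ 1 / (4 * K) * (log 3 - Dn r (i + 1) k) * gg r 1 1 0 (i + 1) := by
    have := Dn_le r h0 h1 (i + 1) k
    apply mul_nonneg (mul_nonneg (by positivity) (by linarith)) (gg_nonneg _ _ _ _ _)
  have b1 : 0 ≤ 1 / (4 * K) * (log 3 - Dn r i k) * gg r 1 1 1 i := by
    have := Dn_le r h0 h1 i k
    apply mul_nonneg (mul_nonneg (by positivity) (by linarith)) (gg_nonneg _ _ _ _ _)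
  linarith

end Pool.Agent.Helper27
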