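import Pool.Agent.Helper27.Ent3

set_option autoImplicit false

namespace Pool.Agent.Helper27

open Finset Real

section Group

variable {G : Type*} [AddCommGroup G] [Fintype G]

noncomputable def D (t : G) (p : G → ℝ) : ℝ := (1 / 3) * ∑ g, h3 (p g) (p (g + t)) (p (g + t + t))

noncomputable def Aa (t : G) (p : G → ℝ) : ℝ := (1 / 3) * ∑ g, a3 (p g) (p (g + t)) (p (g + t + t))

noncomputable def Bb (t : G) (p : G → ℝ) : ℝ := (1 / 3) * ∑ g, b3 (p g) (p (g + t)) (p (g + t + t))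

/-- convolution -/
def conv (p q : G → ℝ) (g : G) : ℝ := ∑ a, p a * q (g - a)

theorem sum_shift (t : G) (f : G → ℝ) : ∑ g, f (g + t) = ∑ g, f g :=
  Equiv.sum_comp (Equiv.addRight t) f

theorem sum_shift2 (t : G) (f : G → ℝ) : ∑ g, f (g + t + t) = ∑ g, f g := by
  rw [sum_shift t (fun g => f (g + t)), sum_shift]

theorem conv_avg (t : G) (ht : t + t + t = 0) (p q : G → ℝ) (g : G) :
    conv p q g = (1 / 3) * ∑ a, (p a * q (g - a) + p (a + t) * q (g - a + t + t) +
      p (a + t + t) * q (g - a + t)) := by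
  have e1 : ∀ a : G, g - a + t + t = g - (a + t) := by
    intro a
    have : g - (a + t) = g - a + t + t - (t + t + t) := by abel
    rw [this, ht, sub_zero]
  have e2 : ∀ a : G, g - a + t = g - (a + t + t) := by
    intro a
    have : g - (a + t + t) = g - a + t - (t + t + t) := by abel
    rw [this, ht, sub_zero]
  have e3 : ∑ a, (p a * q (g - a) + p (a + t) * q (g - a + t + t) +
      p (a + t + t) * q (g - a + t)) = ∑ a, (p a * q (g - a) + p (a + t) * q (g - (a + t)) +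
      p (a + t + t) * q (g - (a + t + t))) := by
    apply Finset.sum_congr rfl
    intro a _
    rw [e1 a, e2 a]
  rw [e3, Finset.sum_add_distrib, Finset.sum_add_distrib]
  rw [sum_shift t (fun a => p a * q (g - a)), sum_shift2 t (fun a => p a * q (g - a))]
  unfold conv
  ring

theorem D_conv (t : G) (ht : t + t + t = 0) (p q : G → ℝ) (hp : ∀ g, 0 ≤ p g) (hq : ∀ g, 0 ≤ q g) :
    (∑ g, p g) * D t q + (3 / 4) * Aa t p * Bb t q ≤ D t (conv p q) := by
  have hc : ∀ g : G, h3 (conv p q g) (conv p q (g + t)) (conv p q (g + t + t)) ≥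
      (1 / 3) * ∑ a, h3 (p a * q (g - a) + p (a + t) * q (g - a + t + t) + p (a + t + t) * q (g - a + t))
        (p a * q (g - a + t) + p (a + t) * q (g - a) + p (a + t + t) * q (g - a + t + t))
        (p a * q (g - a + t + t) + p (a + t) * q (g - a + t) + p (a + t + t) * q (g - a)) := by
    intro g
    have c0 := conv_avg t ht p q g
    have c1 := conv_avg t ht p q (g + t)
    have c2 := conv_avg t ht p q (g + t + t)
    have e1 : ∀ a : G, g + t - a = g - a + t := by intro a; abel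
    have e2 : ∀ a : G, g + t + t - a = g - a + t + t := by intro a; abel
    have e3 : ∀ a : G, g - a + t + t + t = g - a := by
      intro a
      have : g - a + t + t + t = g - a + (t + t + t) := by abel
      rw [this, ht, add_zero]
    simp only [e1, e3] at c1
    simp only [e2, e3] at c2
    rw [c0, c1, c2, h3_smul]
    apply mul_le_mul_of_nonneg_left _ (by norm_num)
    refine le_trans (h3_sum univ _ _ _ ?_ ?_ ?_) (le_of_eq ?_)
    · intro a _; have := hp a; have := hp (a + t); have := hp (a + t + t)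
      have := hq (g - a); have := hq (g - a + t); have := hq (g - a + t + t); positivity
    · intro a _; have := hp a; have := hp (a + t); have := hp (a + t + t)
      have := hq (g - a); have := hq (g - a + t); have := hq (g - a + t + t); positivity
    · intro a _; have := hp a; have := hp (a + t); have := hp (a + t + t)
      have := hq (g - a); have := hq (g - a + t); have := hq (g - a + t + t); positivity
    · congr 1
  have hsum : D t (conv p q) ≥ (1 / 3) * ∑ g, (1 / 3) * ∑ a,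
      h3 (p a * q (g - a) + p (a + t) * q (g - a + t + t) + p (a + t + t) * q (g - a + t))
        (p a * q (g - a + t) + p (a + t) * q (g - a) + p (a + t + t) * q (g - a + t + t))
        (p a * q (g - a + t + t) + p (a + t) * q (g - a + t) + p (a + t + t) * q (g - a)) := by
    unfold D
    apply mul_le_mul_of_nonneg_left _ (by norm_num)
    exact Finset.sum_le_sum (fun g _ => hc g)
  refine le_trans ?_ hsum
  rw [← Finset.mul_sum, Finset.sum_comm]
  have hshift : ∀ a : G, ∑ g : G,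
      h3 (p a * q (g - a) + p (a + t) * q (g - a + t + t) + p (a + t + t) * q (g - a + t))
        (p a * q (g - a + t) + p (a + t) * q (g - a) + p (a + t + t) * q (g - a + t + t))
        (p a * q (g - a + t + t) + p (a + t) * q (g - a + t) + p (a + t + t) * q (g - a)) =
      ∑ b : G, h3 (p a * q b + p (a + t) * q (b + t + t) + p (a + t + t) * q (b + t))
        (p a * q (b + t) + p (a + t) * q b + p (a + t + t) * q (b + t + t))
        (p a * q (b + t + t) + p (a + t) * q (b + t) + p (a + t + t) * q b) := by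
    intro a
    exact Equiv.sum_comp (Equiv.subRight a) (fun b =>
      h3 (p a * q b + p (a + t) * q (b + t + t) + p (a + t + t) * q (b + t))
        (p a * q (b + t) + p (a + t) * q b + p (a + t + t) * q (b + t + t))
        (p a * q (b + t + t) + p (a + t) * q (b + t) + p (a + t + t) * q b))
  simp only [hshift]
  have hg : ∀ a : G, ∀ b : G, (p a + p (a + t) + p (a + t + t)) * h3 (q b) (q (b + t)) (q (b + t + t)) +
      (3 / 4) * a3 (p a) (p (a + t)) (p (a + t + t)) * b3 (q b) (q (b + t)) (q (b + t + t)) ≤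
      h3 (p a * q b + p (a + t) * q (b + t + t) + p (a + t + t) * q (b + t))
        (p a * q (b + t) + p (a + t) * q b + p (a + t + t) * q (b + t + t))
        (p a * q (b + t + t) + p (a + t) * q (b + t) + p (a + t + t) * q b) := by
    intro a b
    exact gain3 _ _ _ _ _ _ (hp _) (hp _) (hp _) (hq _) (hq _) (hq _)
  have hs := Finset.sum_le_sum (fun a (_ : a ∈ (univ : Finset G)) =>
    Finset.sum_le_sum (fun b (_ : b ∈ (univ : Finset G)) => hg a b))
  simp only [Finset.sum_add_distrib, ← Finset.mul_sum] at hs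
  rw [← Finset.sum_mul, ← Finset.sum_mul, ← Finset.mul_sum] at hs
  have hp3 : ∑ a : G, (p a + p (a + t) + p (a + t + t)) = 3 * ∑ g, p g := by
    rw [Finset.sum_add_distrib, Finset.sum_add_distrib, sum_shift, sum_shift2]; ring
  rw [hp3] at hs
  unfold D Aa Bb
  linarith

theorem D_sum (t : G) {ι : Type*} (I : Finset ι) (p : ι → G → ℝ) (hp : ∀ i ∈ I, ∀ g, 0 ≤ p i g) :
    ∑ i ∈ I, D t (p i) ≤ D t (fun g => ∑ i ∈ I, p i g) := by
  unfold D
  rw [← Finset.mul_sum, Finset.sum_comm]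
  apply mul_le_mul_of_nonneg_left _ (by norm_num)
  apply Finset.sum_le_sum
  intro g _
  exact h3_sum I _ _ _ (fun i hi => hp i hi _) (fun i hi => hp i hi _) (fun i hi => hp i hi _)

theorem Bb_lower (t : G) (p : G → ℝ) (hp : ∀ g, 0 ≤ p g) :
    (1 / 3) * ((∑ g, p g) * log 3 - D t p) ≤ Bb t p := by
  have hs := Finset.sum_le_sum (fun g (_ : g ∈ (univ : Finset G)) =>
    b3_lower (p g) (p (g + t)) (p (g + t + t)) (hp _) (hp _) (hp _))
  rw [← Finset.mul_sum, Finset.sum_sub_distrib, ← Finset.sum_mul] at hs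
  have hp3 : ∑ a : G, (p a + p (a + t) + p (a + t + t)) = 3 * ∑ g, p g := by
    rw [Finset.sum_add_distrib, Finset.sum_add_distrib, sum_shift, sum_shift2]; ring
  rw [hp3] at hs
  unfold D Bb
  linarith

theorem D_upper (η K : ℝ) (h : ∀ x y z : ℝ, 0 ≤ x → 0 ≤ y → 0 ≤ z →
    h3 x y z ≤ η * (x + y + z) + K * a3 x y z) (t : G) (p : G → ℝ) (hp : ∀ g, 0 ≤ p g) :
    D t p ≤ η * (∑ g, p g) + K * Aa t p := by
  have hs := Finset.sum_le_sum (fun g (_ : g ∈ (univ : Finset G)) =>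
    h (p g) (p (g + t)) (p (g + t + t)) (hp _) (hp _) (hp _))
  rw [Finset.sum_add_distrib, ← Finset.mul_sum, ← Finset.mul_sum] at hs
  have hp3 : ∑ a : G, (p a + p (a + t) + p (a + t + t)) = 3 * ∑ g, p g := by
    rw [Finset.sum_add_distrib, Finset.sum_add_distrib, sum_shift, sum_shift2]; ring
  rw [hp3] at hs
  unfold D Aa
  linarith

theorem D_le (t : G) (p : G → ℝ) (hp : ∀ g, 0 ≤ p g) : D t p ≤ (∑ g, p g) * log 3 := by
  have hs := Finset.sum_le_sum (fun g (_ : g ∈ (univ : Finset G)) =>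
    h3_le_log3 (p g) (p (g + t)) (p (g + t + t)) (hp _) (hp _) (hp _))
  rw [← Finset.sum_mul] at hs
  have hp3 : ∑ a : G, (p a + p (a + t) + p (a + t + t)) = 3 * ∑ g, p g := by
    rw [Finset.sum_add_distrib, Finset.sum_add_distrib, sum_shift, sum_shift2]; ring
  rw [hp3] at hs
  unfold D
  linarith

theorem D_nonneg (t : G) (p : G → ℝ) (hp : ∀ g, 0 ≤ p g) : 0 ≤ D t p := by
  unfold D
  apply mul_nonneg (by norm_num)
  exact Finset.sum_nonneg (fun g _ => h3_nonneg _ _ _ (hp _) (hp _) (hp _))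

theorem Aa_nonneg (t : G) (p : G → ℝ) (hp : ∀ g, 0 ≤ p g) : 0 ≤ Aa t p := by
  unfold Aa
  apply mul_nonneg (by norm_num)
  exact Finset.sum_nonneg (fun g _ => a3_nonneg _ _ _ (hp _) (hp _) (hp _))

end Group

section Law

variable {ι : Type*}

/-- law of the variable `A` modulo `3^m` under the weights `W` on `s`. -/
noncomputable def law (s : Finset ι) (W : ι → ℝ) (A : ι → ℕ) (m : ℕ) (g : ZMod (3 ^ m)) : ℝ :=
  ∑ i ∈ s, if ((A i : ℕ) : ZMod (3 ^ m)) = g then W i else 0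

/-- entropy sum of the law -/
noncomputable def ent (s : Finset ι) (W : ι → ℝ) (A : ι → ℕ) (m : ℕ) : ℝ :=
  ∑ g, negMulLog (law s W A m g)

theorem law_nonneg (s : Finset ι) (W : ι → ℝ) (hW : ∀ i ∈ s, 0 ≤ W i) (A : ι → ℕ) (m : ℕ)
    (g : ZMod (3 ^ m)) : 0 ≤ law s W A m g := by
  apply Finset.sum_nonneg
  intro i hi
  split_ifs
  · exact hW i hi
  · exact le_rfl

theorem sum_law_mul (s : Finset ι) (W : ι → ℝ) (A : ι → ℕ) (m : ℕ) (F : ZMod (3 ^ m) → ℝ) :
    ∑ g, law s W A m g * F g = ∑ i ∈ s, W i * F (A i) := by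
  unfold law
  simp only [Finset.sum_mul]
  rw [Finset.sum_comm]
  apply Finset.sum_congr rfl
  intro i _
  rw [Finset.sum_eq_single ((A i : ℕ) : ZMod (3 ^ m))]
  · simp
  · intro b _ hb; rw [if_neg (Ne.symm hb)]; simp
  · intro h; exact absurd (Finset.mem_univ _) h

theorem sum_law (s : Finset ι) (W : ι → ℝ) (A : ι → ℕ) (m : ℕ) :
    ∑ g, law s W A m g = ∑ i ∈ s, W i := by
  have := sum_law_mul s W A m (fun _ => 1)
  simpa using this

theorem ent_info (s : Finset ι) (W : ι → ℝ) (A : ι → ℕ) (m : ℕ) :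
    ent s W A m = - ∑ i ∈ s, W i * log (law s W A m (A i)) := by
  have := sum_law_mul s W A m (fun g => log (law s W A m g))
  rw [← this, ent, ← Finset.sum_neg_distrib]
  apply Finset.sum_congr rfl
  intro g _
  simp [negMulLog]

theorem ent_congr (s : Finset ι) (W : ι → ℝ) (A A' : ι → ℕ) (m m' : ℕ)
    (h : ∀ i ∈ s, ∀ j ∈ s, (((A j : ℕ) : ZMod (3 ^ m)) = ((A i : ℕ) : ZMod (3 ^ m)) ↔
      ((A' j : ℕ) : ZMod (3 ^ m')) = ((A' i : ℕ) : ZMod (3 ^ m')))) :
    ent s W A m = ent s W A' m' := by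
  rw [ent_info, ent_info]
  congr 1
  apply Finset.sum_congr rfl
  intro i hi
  congr 2
  unfold law
  apply Finset.sum_congr rfl
  intro j hj
  simp only [h i hi j hj]

theorem ent_inj (s : Finset ι) (W : ι → ℝ) (A : ι → ℕ) (m : ℕ)
    (h : ∀ i ∈ s, ∀ j ∈ s, ((A j : ℕ) : ZMod (3 ^ m)) = ((A i : ℕ) : ZMod (3 ^ m)) → j = i) :
    ent s W A m = ∑ i ∈ s, negMulLog (W i) := by
  rw [ent_info, ← Finset.sum_neg_distrib]
  apply Finset.sum_congr rfl
  intro i hi
  have : law s W A m (A i) = W i := by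
    unfold law
    rw [Finset.sum_eq_single i]
    · simp
    · intro j hj hji
      rw [if_neg]
      intro hh
      exact hji (h i hi j hj hh)
    · intro hh; exact absurd hi hh
  rw [this]
  simp [negMulLog]

theorem ite_three (m a b : ℕ) (w : ℝ) :
    (if ((a : ℕ) : ZMod (3 ^ (m + 1))) = (b : ZMod (3 ^ (m + 1))) then w else 0) +
    (if ((a : ℕ) : ZMod (3 ^ (m + 1))) = (b : ZMod (3 ^ (m + 1))) + ((3 ^ m : ℕ) : ZMod (3 ^ (m + 1))) then w else 0) +
    (if ((a : ℕ) : ZMod (3 ^ (m + 1))) = (b : ZMod (3 ^ (m + 1))) + ((3 ^ m : ℕ) : ZMod (3 ^ (m + 1))) +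
      ((3 ^ m : ℕ) : ZMod (3 ^ (m + 1))) then w else 0) =
    if ((a : ℕ) : ZMod (3 ^ m)) = (b : ZMod (3 ^ m)) then w else 0 := by
  have e0 : (((a : ℕ) : ZMod (3 ^ (m + 1))) = (b : ZMod (3 ^ (m + 1)))) ↔
      ((3 ^ (m + 1) : ℕ) : ℤ) ∣ (b : ℤ) - a := by
    rw [ZMod.natCast_eq_natCast_iff, Nat.modEq_iff_dvd]
  have e1 : (((a : ℕ) : ZMod (3 ^ (m + 1))) = (b : ZMod (3 ^ (m + 1))) + ((3 ^ m : ℕ) : ZMod (3 ^ (m + 1)))) ↔
      ((3 ^ (m + 1) : ℕ) : ℤ) ∣ (b : ℤ) + 3 ^ m - a := by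
    rw [← Nat.cast_add, ZMod.natCast_eq_natCast_iff, Nat.modEq_iff_dvd]; push_cast; rfl
  have e2 : (((a : ℕ) : ZMod (3 ^ (m + 1))) = (b : ZMod (3 ^ (m + 1))) + ((3 ^ m : ℕ) : ZMod (3 ^ (m + 1))) +
      ((3 ^ m : ℕ) : ZMod (3 ^ (m + 1)))) ↔
      ((3 ^ (m + 1) : ℕ) : ℤ) ∣ (b : ℤ) + 3 ^ m + 3 ^ m - a := by
    rw [← Nat.cast_add, ← Nat.cast_add, ZMod.natCast_eq_natCast_iff, Nat.modEq_iff_dvd]; push_cast; rfl
  have e3 : (((a : ℕ) : ZMod (3 ^ m)) = (b : ZMod (3 ^ m))) ↔ ((3 ^ m : ℕ) : ℤ) ∣ (b : ℤ) - a := by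
    rw [ZMod.natCast_eq_natCast_iff, Nat.modEq_iff_dvd]
  simp only [e0, e1, e2, e3]
  push_cast
  have hpos : (0 : ℤ) < 3 ^ m := by positivity
  by_cases h : (3 ^ m : ℤ) ∣ (b : ℤ) - a
  · obtain ⟨k, hk⟩ := h
    have f0 : (3 ^ (m + 1) : ℤ) ∣ (b : ℤ) - a ↔ (3 : ℤ) ∣ k := by
      rw [hk, pow_succ, mul_dvd_mul_iff_left hpos.ne']
    have f1 : (3 ^ (m + 1) : ℤ) ∣ (b : ℤ) + 3 ^ m - a ↔ (3 : ℤ) ∣ k + 1 := by
      have : (b : ℤ) + 3 ^ m - a = 3 ^ m * (k + 1) := by linarith
      rw [this, pow_succ, mul_dvd_mul_iff_left hpos.ne']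
    have f2 : (3 ^ (m + 1) : ℤ) ∣ (b : ℤ) + 3 ^ m + 3 ^ m - a ↔ (3 : ℤ) ∣ k + 2 := by
      have : (b : ℤ) + 3 ^ m + 3 ^ m - a = 3 ^ m * (k + 2) := by linarith
      rw [this, pow_succ, mul_dvd_mul_iff_left hpos.ne']
    have f3 : (3 ^ m : ℤ) ∣ (b : ℤ) - a := ⟨k, hk⟩
    simp only [f0, f1, f2, f3, if_true]
    have : k % 3 = 0 ∨ k % 3 = 1 ∨ k % 3 = 2 := by omega
    rcases this with h | h | h
    · rw [if_pos (by omega), if_neg (by omega), if_neg (by omega)]; ring
    · rw [if_neg (by omega), if_neg (by omega), if_pos (by omega)]; ring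
    · rw [if_neg (by omega), if_pos (by omega), if_neg (by omega)]; ring
  · have g0 : ¬ (3 ^ (m + 1) : ℤ) ∣ (b : ℤ) - a := by
      intro hh; apply h; exact dvd_trans (pow_dvd_pow 3 (Nat.le_succ m)) hh
    have g1 : ¬ (3 ^ (m + 1) : ℤ) ∣ (b : ℤ) + 3 ^ m - a := by
      intro hh; apply h
      have := dvd_trans (pow_dvd_pow (3 : ℤ) (Nat.le_succ m)) hh
      have h2 : (b : ℤ) - a = ((b : ℤ) + 3 ^ m - a) - 3 ^ m := by ring
      rw [h2]; exact dvd_sub this (dvd_refl _)
    have g2 : ¬ (3 ^ (m + 1) : ℤ) ∣ (b : ℤ) + 3 ^ m + 3 ^ m - a := by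
      intro hh; apply h
      have := dvd_trans (pow_dvd_pow (3 : ℤ) (Nat.le_succ m)) hh
      have h2 : (b : ℤ) - a = ((b : ℤ) + 3 ^ m + 3 ^ m - a) - 2 * 3 ^ m := by ring
      rw [h2]; exact dvd_sub this (Dvd.intro_left _ rfl)
    simp [g0, g1, g2, h]

theorem law_three (s : Finset ι) (W : ι → ℝ) (A : ι → ℕ) (m : ℕ) (b : ℕ) :
    law s W A (m + 1) (b : ZMod (3 ^ (m + 1))) +
    law s W A (m + 1) ((b : ZMod (3 ^ (m + 1))) + ((3 ^ m : ℕ) : ZMod (3 ^ (m + 1)))) +
    law s W A (m + 1) ((b : ZMod (3 ^ (m + 1))) + ((3 ^ m : ℕ) : ZMod (3 ^ (m + 1))) +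
      ((3 ^ m : ℕ) : ZMod (3 ^ (m + 1)))) =
    law s W A m (b : ZMod (3 ^ m)) := by
  unfold law
  rw [← Finset.sum_add_distrib, ← Finset.sum_add_distrib]
  apply Finset.sum_congr rfl
  intro i _
  exact ite_three m (A i) b (W i)

theorem t_three (m : ℕ) : ((3 ^ m : ℕ) : ZMod (3 ^ (m + 1))) + ((3 ^ m : ℕ) : ZMod (3 ^ (m + 1))) +
    ((3 ^ m : ℕ) : ZMod (3 ^ (m + 1))) = 0 := by
  have : ((3 ^ m : ℕ) : ZMod (3 ^ (m + 1))) + ((3 ^ m : ℕ) : ZMod (3 ^ (m + 1))) +
    ((3 ^ m : ℕ) : ZMod (3 ^ (m + 1))) = ((3 ^ (m + 1) : ℕ) : ZMod (3 ^ (m + 1))) := by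
    push_cast; ring
  rw [this, ZMod.natCast_self]

theorem ent_chain (s : Finset ι) (W : ι → ℝ) (A : ι → ℕ) (m : ℕ) :
    ent s W A (m + 1) - ent s W A m =
      D ((3 ^ m : ℕ) : ZMod (3 ^ (m + 1))) (law s W A (m + 1)) := by
  set t : ZMod (3 ^ (m + 1)) := ((3 ^ m : ℕ) : ZMod (3 ^ (m + 1))) with ht
  set p := law s W A (m + 1) with hp
  have ht3 : t + t + t = 0 := t_three m
  set S : ZMod (3 ^ (m + 1)) → ℝ := fun g => p g + p (g + t) + p (g + t + t) with hS
  have hS1 : ∀ g, S (g + t) = S g := by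
    intro g
    simp only [hS]
    have : g + t + t + t = g := by
      have : g + t + t + t = g + (t + t + t) := by abel
      rw [this, ht3, add_zero]
    rw [this]; ring
  have hS2 : ∀ g, S (g + t + t) = S g := by intro g; rw [hS1, hS1]
  unfold D h3
  simp only [Finset.sum_sub_distrib, Finset.sum_add_distrib]
  rw [sum_shift t (fun g => negMulLog (p g)), sum_shift2 t (fun g => negMulLog (p g))]
  have key : ∑ g, negMulLog (S g) = 3 * ent s W A m := by
    have e1 : ∑ g, negMulLog (S g) = - (∑ g, p g * log (S g) + ∑ g, p (g + t) * log (S (g + t)) +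
        ∑ g, p (g + t + t) * log (S (g + t + t))) := by
      rw [← Finset.sum_add_distrib, ← Finset.sum_add_distrib, ← Finset.sum_neg_distrib]
      apply Finset.sum_congr rfl
      intro g _
      rw [hS1, hS2]
      simp only [negMulLog, hS]; ring
    rw [e1, sum_shift t (fun g => p g * log (S g)), sum_shift2 t (fun g => p g * log (S g))]
    rw [hp, sum_law_mul, ent_info]
    have : ∀ i ∈ s, W i * log (S (A i)) = W i * log (law s W A m (A i)) := by
      intro i _
      congr 2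
      exact law_three s W A m (A i)
    rw [Finset.sum_congr rfl this]
    ring
  have hent : ent s W A (m + 1) = ∑ g, negMulLog (p g) := rfl
  have : ∑ g, negMulLog (p g + p (g + t) + p (g + t + t)) = 3 * ent s W A m := key
  rw [this, hent]
  ring

end Law

end Pool.Agent.Helper27
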