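import Pool.Agent.Helper27.Final

set_option autoImplicit false

namespace Pool.Agent.Helper27

open Finset Real Filter Topology

theorem gibbs_two (r x : ℝ) (h0 : 0 < r) (h1 : r < 1) (hx : 0 < x) :
    r * log x - log (1 + x) ≤ -(negMulLog r + negMulLog (1 - r)) := by
  have h1r : 0 < 1 - r := by linarith
  have hx1 : 0 < 1 + x := by linarith
  have e1 := Real.log_le_sub_one_of_pos (x := x / ((1 + x) * r)) (by positivity)
  have e2 := Real.log_le_sub_one_of_pos (x := 1 / ((1 + x) * (1 - r))) (by positivity)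
  rw [Real.log_div hx.ne' (by positivity), Real.log_mul hx1.ne' h0.ne'] at e1
  rw [Real.log_div one_ne_zero (by positivity), Real.log_mul hx1.ne' h1r.ne', Real.log_one] at e2
  have f1 := mul_le_mul_of_nonneg_left e1 h0.le
  have f2 := mul_le_mul_of_nonneg_left e2 h1r.le
  have g : r * (x / ((1 + x) * r) - 1) + (1 - r) * (1 / ((1 + x) * (1 - r)) - 1) = 0 := by
    field_simp
    ring
  unfold negMulLog
  nlinarith [f1, f2, g]

theorem legendre_term (r θ : ℝ) :
    θ * (log 2 - r * log 3) - log ((1 / 2) * ((2 : ℝ) ^ θ + (2 / 3 : ℝ) ^ θ)) =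
      log 2 + (r * log (exp (-(θ * log 3))) - log (1 + exp (-(θ * log 3)))) := by
  have e1 : (2 / 3 : ℝ) ^ θ = (2 : ℝ) ^ θ * exp (-(θ * log 3)) := by
    rw [Real.div_rpow (by norm_num) (by norm_num), div_eq_mul_inv, Real.rpow_def_of_pos (by norm_num : (0:ℝ) < 3),
      ← Real.exp_neg]
    congr 2; ring
  have e2 : (2 : ℝ) ^ θ + (2 / 3 : ℝ) ^ θ = (2 : ℝ) ^ θ * (1 + exp (-(θ * log 3))) := by rw [e1]; ring
  have h3 : 0 < 1 + exp (-(θ * log 3)) := by positivity
  rw [e2, Real.log_mul (by norm_num) (by positivity), Real.log_mul (by positivity) h3.ne',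
    Real.log_rpow (by norm_num), Real.log_exp, one_div, Real.log_inv]
  ring

theorem legendre_eq (r : ℝ) (h0 : 0 < r) (h1 : r < 1) :
    (⨆ θ : ℝ, (θ * (log 2 - r * log 3) - log ((1 / 2) * ((2 : ℝ) ^ θ + (2 / 3 : ℝ) ^ θ)))) =
      log 2 - (negMulLog r + negMulLog (1 - r)) := by
  have hl3 : 0 < log 3 := Real.log_pos (by norm_num)
  have h1r : 0 < 1 - r := by linarith
  have hle : ∀ θ : ℝ, θ * (log 2 - r * log 3) - log ((1 / 2) * ((2 : ℝ) ^ θ + (2 / 3 : ℝ) ^ θ)) ≤
      log 2 - (negMulLog r + negMulLog (1 - r)) := by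
    intro θ
    rw [legendre_term]
    have := gibbs_two r (exp (-(θ * log 3))) h0 h1 (Real.exp_pos _)
    linarith
  apply le_antisymm
  · exact ciSup_le hle
  · have hbdd : BddAbove (Set.range fun θ : ℝ =>
        (θ * (log 2 - r * log 3) - log ((1 / 2) * ((2 : ℝ) ^ θ + (2 / 3 : ℝ) ^ θ)))) :=
      ⟨_, by rintro _ ⟨θ, rfl⟩; exact hle θ⟩
    refine le_ciSup_of_le hbdd (-(log (r / (1 - r)) / log 3)) ?_
    rw [legendre_term]
    have e : exp (-(-(log (r / (1 - r)) / log 3) * log 3)) = r / (1 - r) := by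
      have : -(-(log (r / (1 - r)) / log 3) * log 3) = log (r / (1 - r)) := by field_simp
      rw [this, Real.exp_log (by positivity)]
    rw [e]
    have e2 : 1 + r / (1 - r) = 1 / (1 - r) := by field_simp; ring
    rw [e2, Real.log_div h0.ne' h1r.ne', one_div, Real.log_inv]
    unfold negMulLog
    apply le_of_eq
    ring

/-- counting form in terms of the Legendre transform -/
theorem count_alpha (α : ℝ) (hα : ((1 / 2) * log (4 / 3))⁻¹ < α)
    (hα' : α * (⨆ θ : ℝ, (θ * (1 / α) - log ((1 / 2) * ((2 : ℝ) ^ θ + (2 / 3 : ℝ) ^ θ)))) ≤ 1)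
    (ε : ℝ) (hε : 0 < ε) :
    ∀ᶠ x : ℕ in atTop, (x : ℝ) ^ (1 - (⨆ θ : ℝ, (θ * (1 / α) -
      log ((1 / 2) * ((2 : ℝ) ^ θ + (2 / 3 : ℝ) ^ θ)))) / log 2 - ε) ≤
      ({n : ℕ | 1 ≤ n ∧ n ≤ x ∧ ∀ k : ℕ, T^[k] n = 1 →
        (((1 / 2) * log (4 / 3))⁻¹ + (1 - ((1 / 2) * log (4 / 3))⁻¹ / α) / log 2 - ε) * log n ≤ k}.ncard : ℝ) := by
  have hl2 : 0 < log 2 := Real.log_pos (by norm_num)
  have hl3 : 0 < log 3 := Real.log_pos (by norm_num)
  have hg : ((1 / 2) * log (4 / 3))⁻¹ = g1 := rfl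
  rw [hg] at hα ⊢
  have hg1 := g1_pos
  have hα0 : 0 < α := lt_trans hg1 hα
  set r := (log 2 - 1 / α) / log 3 with hr
  have hrl : r * log 3 = log 2 - 1 / α := by rw [hr]; field_simp
  have ha : 1 / α = log 2 - r * log 3 := by linarith
  have hinv : 1 / α < 1 / g1 := one_div_lt_one_div_of_lt hg1 hα
  have hg1' : 1 / g1 = log 2 - 1 / 2 * log 3 := by
    have := g1_eq
    rw [div_eq_iff hg1.ne']; linarith
  have hr12 : 1 / 2 < r := by
    have : 1 / 2 * log 3 < r * log 3 := by linarith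
    exact lt_of_mul_lt_mul_right this hl3.le
  have hr0 : 0 < r := by linarith
  have hr1 : r < 1 := by
    have h23 : log 2 < log 3 := Real.log_lt_log (by norm_num) (by norm_num)
    have : 0 < 1 / α := by positivity
    rw [hr, div_lt_one hl3]; linarith
  have hsup := legendre_eq r hr0 hr1
  rw [← ha] at hsup
  rw [hsup] at hα' ⊢
  have hcond : r * log 3 ≤ negMulLog r + negMulLog (1 - r) := by
    have h5 : log 2 - (negMulLog r + negMulLog (1 - r)) ≤ 1 / α := by
      rw [le_div_iff₀ hα0]; linarith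
    linarith
  have hk : g1 + (1 - g1 / α) / log 2 - ε < (1 + g1 * (r * log 3)) / log 2 := by
    have : g1 + (1 - g1 / α) / log 2 = (1 + g1 * (r * log 3)) / log 2 := by
      rw [hrl]; field_simp; ring
    linarith
  have h := count_main r hr0 hr1 hcond _ hk ε hε
  have e : 1 - (log 2 - (negMulLog r + negMulLog (1 - r))) / log 2 - ε =
      (negMulLog r + negMulLog (1 - r)) / log 2 - ε := by field_simp; ring
  rw [e]
  exact h

end Pool.Agent.Helper27
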