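import Pool.Agent.Helper27.Ineq

set_option autoImplicit false

namespace Pool.Agent.Helper27

open Finset Real Filter Topology

/-- running average -/
noncomputable def avg (f : ℕ → ℝ) (K : ℕ) : ℝ := (∑ k ∈ range (K + 1), f k) / ((K : ℝ) + 1)

/-- generalised limit of the running averages -/
def Av (f : ℕ → ℝ) (x : ℝ) : Prop := Tendsto (avg f) (hyperfilter ℕ : Filter ℕ) (𝓝 x)

theorem avg_const (a : ℝ) (K : ℕ) : avg (fun _ => a) K = a := by
  unfold avg
  rw [Finset.sum_const, card_range, nsmul_eq_mul]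
  push_cast
  field_simp

theorem Av.const (a : ℝ) : Av (fun _ => a) a := by
  unfold Av
  have : avg (fun _ => a) = fun _ => a := by funext K; exact avg_const a K
  rw [this]; exact tendsto_const_nhds

theorem Av.add {f g : ℕ → ℝ} {x y : ℝ} (hf : Av f x) (hg : Av g y) :
    Av (fun k => f k + g k) (x + y) := by
  unfold Av at *
  have : avg (fun k => f k + g k) = fun K => avg f K + avg g K := by
    funext K; unfold avg; rw [Finset.sum_add_distrib, add_div]
  rw [this]; exact hf.add hg

theorem Av.const_mul {f : ℕ → ℝ} {x : ℝ} (a : ℝ) (hf : Av f x) : Av (fun k => a * f k) (a * x) := by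
  unfold Av at *
  have : avg (fun k => a * f k) = fun K => a * avg f K := by
    funext K; unfold avg; rw [← Finset.mul_sum, mul_div_assoc]
  rw [this]; exact Tendsto.const_mul a hf

theorem Av.mul_const {f : ℕ → ℝ} {x : ℝ} (a : ℝ) (hf : Av f x) : Av (fun k => f k * a) (x * a) := by
  have := Av.const_mul a hf
  simpa [mul_comm] using this

theorem Av.sub {f g : ℕ → ℝ} {x y : ℝ} (hf : Av f x) (hg : Av g y) :
    Av (fun k => f k - g k) (x - y) := by
  have := hf.add (Av.const_mul (-1) hg)
  simpa [sub_eq_add_neg] using this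

theorem Av.sum {α : Type*} (S : Finset α) {f : α → ℕ → ℝ} {x : α → ℝ} (h : ∀ a ∈ S, Av (f a) (x a)) :
    Av (fun k => ∑ a ∈ S, f a k) (∑ a ∈ S, x a) := by
  classical
  induction S using Finset.induction_on with
  | empty => simpa using Av.const 0
  | insert a S ha ih =>
    simp only [Finset.sum_insert ha]
    exact (h a (Finset.mem_insert_self _ _)).add (ih (fun b hb => h b (Finset.mem_insert_of_mem hb)))

theorem Av.le {f g : ℕ → ℝ} {x y : ℝ} (hf : Av f x) (hg : Av g y) (h : ∀ k, f k ≤ g k) : x ≤ y := by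
  unfold Av at *
  refine le_of_tendsto_of_tendsto' hf hg ?_
  intro K
  unfold avg
  apply div_le_div_of_nonneg_right _ (by positivity)
  exact Finset.sum_le_sum (fun k _ => h k)

theorem Av.exists {f : ℕ → ℝ} {B : ℝ} (h0 : ∀ k, 0 ≤ f k) (h1 : ∀ k, f k ≤ B) : ∃ x, Av f x := by
  have hc := (isCompact_Icc (a := (0:ℝ)) (b := B)).ultrafilter_le_nhds
    ((hyperfilter ℕ).map (avg f)) (by
      rw [Ultrafilter.coe_map, le_principal_iff, Filter.mem_map]
      refine univ_mem' ?_
      intro K
      show avg f K ∈ Set.Icc 0 B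
      have hle : avg f K ≤ avg (fun _ => B) K := by
        unfold avg
        apply div_le_div_of_nonneg_right _ (by positivity)
        exact Finset.sum_le_sum (fun k _ => h1 k)
      rw [avg_const] at hle
      refine ⟨?_, hle⟩
      unfold avg
      apply div_nonneg (Finset.sum_nonneg (fun k _ => h0 k)) (by positivity))
  obtain ⟨x, _, hx⟩ := hc
  exact ⟨x, hx⟩

theorem Av.shift_one {f : ℕ → ℝ} {B x : ℝ} (h0 : ∀ k, 0 ≤ f k) (h1 : ∀ k, f k ≤ B) (hf : Av f x) :
    Av (fun k => f (k + 1)) x := by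
  unfold Av at *
  have e : avg (fun k => f (k + 1)) = fun K : ℕ => avg f K + (f (K + 1) - f 0) / ((K : ℝ) + 1) := by
    funext K
    unfold avg
    rw [← add_div]
    congr 1
    have e1 := Finset.sum_range_succ f (K + 1)
    have e2 := Finset.sum_range_succ' f (K + 1)
    linarith
  rw [e]
  have hB : ∀ k, |f (k + 1) - f 0| ≤ B := by
    intro k
    rw [abs_le]
    have := h0 (k + 1); have := h1 (k + 1); have := h0 0; have := h1 0
    constructor <;> linarith
  have hz : Tendsto (fun K : ℕ => (f (K + 1) - f 0) / ((K : ℝ) + 1)) atTop (𝓝 0) := by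
    have hb : Tendsto (fun K : ℕ => B / ((K : ℝ) + 1)) atTop (𝓝 0) := by
      have := tendsto_const_div_atTop_nhds_zero_nat B
      exact_mod_cast (tendsto_add_atTop_iff_nat 1).mpr this
    apply squeeze_zero_norm _ hb
    intro K
    rw [Real.norm_eq_abs, abs_div, abs_of_pos (by positivity : (0:ℝ) < (K : ℝ) + 1)]
    exact div_le_div_of_nonneg_right (hB K) (by positivity)
  have hz' := hz.mono_left (Nat.hyperfilter_le_atTop)
  simpa using Tendsto.add hf hz'

theorem Av.shift {f : ℕ → ℝ} {B x : ℝ} (h0 : ∀ k, 0 ≤ f k) (h1 : ∀ k, f k ≤ B) (hf : Av f x) (L : ℕ) :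
    Av (fun k => f (k + L)) x := by
  induction L with
  | zero => simpa using hf
  | succ L ih =>
    have := Av.shift_one (f := fun k => f (k + L)) (fun k => h0 _) (fun k => h1 _) ih
    have e : (fun k => f (k + 1 + L)) = fun k => f (k + (L + 1)) := by
      funext k; congr 1; ring
    rw [← e]; exact this

/-- the limiting increments -/
theorem exists_d (r : ℝ) (h0 : 0 < r) (h1 : r ≤ 1) :
    ∃ d : ℕ → ℝ, (∀ i, 0 ≤ d i) ∧ (∀ i, d i ≤ log 3) ∧ Monotone d ∧
      (∀ η K : ℝ, 0 < K → (∀ x y z : ℝ, 0 ≤ x → 0 ≤ y → 0 ≤ z →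
        h3 x y z ≤ η * (x + y + z) + K * a3 x y z) → ∀ L : ℕ,
        EL r L + ∑ b ∈ range (L + 1), ∑ i ∈ range (L - b),
        (mass r L b * d i + 1 / (4 * K) * (log 3 - d i) * gg r η L b i) ≤ ∑ m ∈ range L, d m) ∧
      (∀ L l : ℕ, ∑ m ∈ range l, d m ≤
        ∑ b ∈ range (L + 1), (se r L b + ((l - b : ℕ) : ℝ) * (mass r L b * log 3))) := by
  have hn := Dn_nonneg r h0.le h1
  have hu := Dn_le r h0.le h1
  choose d hd using fun i => Av.exists (hn i) (hu i)
  have hs : ∀ i L, Av (fun k => Dn r i (k + L)) (d i) := fun i L => Av.shift (hn i) (hu i) (hd i) L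
  refine ⟨d, ?_, ?_, ?_, ?_, ?_⟩
  · intro i; exact Av.le (Av.const 0) (hd i) (hn i)
  · intro i; exact Av.le (hd i) (Av.const (log 3)) (hu i)
  · apply monotone_nat_of_le_succ
    intro i
    have := Av.le (((hd (i + 1)).const_mul (1 - r)).add ((hd i).const_mul r)) (hs (i + 1) 1)
      (fun k => ineqA r h0.le h1 k i)
    have h2 : r * d i ≤ r * d (i + 1) := by linarith
    exact le_of_mul_le_mul_left h2 h0
  · intro η K hK hup L
    refine Av.le (f := fun k => EL r L + ∑ b ∈ range (L + 1), ∑ i ∈ range (L - b),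
        (mass r L b * Dn r i k + 1 / (4 * K) * (log 3 - Dn r i k) * gg r η L b i))
      (g := fun k => ∑ m ∈ range L, Dn r m (k + L)) ?_ ?_ (fun k => ineqB η K hK hup r h0.le h1 k L)
    · apply Av.add (Av.const _)
      apply Av.sum
      intro b _
      apply Av.sum
      intro i _
      apply Av.add ((hd i).const_mul _)
      apply Av.mul_const
      apply Av.const_mul
      exact (Av.const _).sub (hd i)
    · apply Av.sum
      intro m _
      exact hs m L
  · intro L l
    refine Av.le (f := fun k => ∑ m ∈ range l, Dn r m (k + L)) ?_ (Av.const _)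
      (fun k => ineqC r h0.le h1 k L l)
    apply Av.sum
    intro m _
    exact hs m L

end Pool.Agent.Helper27
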