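import Pool.Agent.Helper27.Full

set_option autoImplicit false

namespace Pool.Agent.Helper27

open Finset Real Filter Topology

/-- joint law of the number of odd steps and of the `k`-th iterate -/
noncomputable def pm (r : ℝ) (k j y : ℕ) : ℝ := ∑ n ∈ slice k j, if T^[k] n = y then P r k n else 0

/-- power sum for one slice -/
noncomputable def qs (r s : ℝ) (k j : ℕ) : ℝ := ∑ y ∈ range (3 ^ j), (pm r k j y) ^ (1 + s)

/-- power sum -/
noncomputable def Q (r s : ℝ) (k : ℕ) : ℝ := ∑ j ∈ range (k + 1), qs r s k j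

theorem pm_nonneg (r : ℝ) (h0 : 0 ≤ r) (h1 : r ≤ 1) (k j y : ℕ) : 0 ≤ pm r k j y := by
  apply Finset.sum_nonneg
  intro n _
  split_ifs
  · exact P_nonneg r h0 h1 k n
  · exact le_rfl

theorem slice_lt {k j n : ℕ} (h : n ∈ slice k j) : n < 2 ^ k := mem_range.mp (mem_filter.mp h).1

theorem slice_J {k j n : ℕ} (h : n ∈ slice k j) : J k n = j := (mem_filter.mp h).2

theorem slice_iter {k j n : ℕ} (h : n ∈ slice k j) : T^[k] n < 3 ^ j := by
  have := iter_lt k n (slice_lt h)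
  rwa [slice_J h] at this

theorem pm_zero (r : ℝ) (k j y : ℕ) (hy : 3 ^ j ≤ y) : pm r k j y = 0 := by
  apply Finset.sum_eq_zero
  intro n hn
  rw [if_neg]
  intro h
  have := slice_iter hn
  omega

theorem pm_zero' (r : ℝ) (k j y : ℕ) (hj : k < j) : pm r k j y = 0 := by
  apply Finset.sum_eq_zero
  intro n hn
  have := J_le k n
  rw [slice_J hn] at this
  omega

theorem sum_pm (r : ℝ) (k j : ℕ) : ∑ y ∈ range (3 ^ j), pm r k j y = mass r k j := by
  unfold pm mass
  rw [Finset.sum_comm]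
  apply Finset.sum_congr rfl
  intro n hn
  rw [Finset.sum_ite_eq, if_pos (mem_range.mpr (slice_iter hn))]

theorem pm_le_one (r : ℝ) (h0 : 0 ≤ r) (h1 : r ≤ 1) (k j y : ℕ) : pm r k j y ≤ 1 := by
  rw [← sum_P r k]
  unfold pm
  refine le_trans (Finset.sum_le_sum (fun n _ => ?_) : _ ≤ ∑ n ∈ slice k j, P r k n) ?_
  · split_ifs
    · exact le_rfl
    · exact P_nonneg r h0 h1 k n
  · apply Finset.sum_le_sum_of_subset_of_nonneg (filter_subset _ _)
    intro n _ _
    exact P_nonneg r h0 h1 k n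

theorem qs_nonneg (r s : ℝ) (h0 : 0 ≤ r) (h1 : r ≤ 1) (k j : ℕ) : 0 ≤ qs r s k j :=
  Finset.sum_nonneg (fun y _ => Real.rpow_nonneg (pm_nonneg r h0 h1 k j y) _)

theorem Q_nonneg (r s : ℝ) (h0 : 0 ≤ r) (h1 : r ≤ 1) (k : ℕ) : 0 ≤ Q r s k :=
  Finset.sum_nonneg (fun _ _ => qs_nonneg r s h0 h1 k _)

theorem rpow_one_add_le (x s : ℝ) (h0 : 0 ≤ x) (h1 : x ≤ 1) (hs : 0 ≤ s) : x ^ (1 + s) ≤ x := by
  have := Real.rpow_le_rpow_of_exponent_ge' h0 h1 (by norm_num : (0:ℝ) ≤ 1) (by linarith : (1:ℝ) ≤ 1 + s)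
  rwa [Real.rpow_one] at this

theorem Q_le_one (r s : ℝ) (h0 : 0 ≤ r) (h1 : r ≤ 1) (hs : 0 ≤ s) (k : ℕ) : Q r s k ≤ 1 := by
  rw [← sum_mass r k]
  unfold Q qs
  apply Finset.sum_le_sum
  intro j _
  rw [← sum_pm]
  apply Finset.sum_le_sum
  intro y _
  exact rpow_one_add_le _ _ (pm_nonneg r h0 h1 k j y) (pm_le_one r h0 h1 k j y) hs

/-- weighted power mean inequality -/
theorem jensen_aux {ι : Type*} (t : Finset ι) (w f : ι → ℝ) (hw : ∀ i, 0 ≤ w i) (hf : ∀ i, 0 ≤ f i)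
    (s : ℝ) (hs : 0 ≤ s) :
    (∑ i ∈ t, w i * f i) ^ (1 + s) ≤ (∑ i ∈ t, w i) ^ s * ∑ i ∈ t, w i * f i ^ (1 + s) := by
  have hp : 1 ≤ 1 + s := by linarith
  have hp0 : 1 + s ≠ 0 := by linarith
  have h := Real.inner_le_weight_mul_Lp_of_nonneg t hp w f hw hf
  have hW : 0 ≤ ∑ i ∈ t, w i := Finset.sum_nonneg (fun i _ => hw i)
  have hWf : 0 ≤ ∑ i ∈ t, w i * f i := Finset.sum_nonneg (fun i _ => mul_nonneg (hw i) (hf i))
  have hWp : 0 ≤ ∑ i ∈ t, w i * f i ^ (1 + s) :=
    Finset.sum_nonneg (fun i _ => mul_nonneg (hw i) (Real.rpow_nonneg (hf i) _))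
  have h2 := Real.rpow_le_rpow hWf h (by linarith : 0 ≤ 1 + s)
  rw [Real.mul_rpow (Real.rpow_nonneg hW _) (Real.rpow_nonneg hWp _), ← Real.rpow_mul hW,
    ← Real.rpow_mul hWp, inv_mul_cancel₀ hp0, Real.rpow_one] at h2
  have e : (1 - (1 + s)⁻¹) * (1 + s) = s := by field_simp; ring
  rwa [e] at h2

theorem sum_reindex {M : Type*} [AddCommMonoid M] (a b : ℕ) (f : ℕ → M) :
    ∑ y ∈ range (3 ^ (a + b)), f y = ∑ x ∈ range (3 ^ b), ∑ z ∈ range (3 ^ a), f (x + 3 ^ b * z) := by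
  rw [← Finset.sum_product']
  have hb : 0 < 3 ^ b := by positivity
  apply Finset.sum_nbij' (i := fun y => (y % 3 ^ b, y / 3 ^ b)) (j := fun p => p.1 + 3 ^ b * p.2)
  · intro y hy
    rw [mem_range] at hy
    rw [mem_product, mem_range, mem_range]
    refine ⟨Nat.mod_lt _ hb, Nat.div_lt_of_lt_mul ?_⟩
    rw [← pow_add, add_comm b a]; exact hy
  · intro p hp
    rw [mem_product, mem_range, mem_range] at hp
    rw [mem_range, pow_add]
    calc p.1 + 3 ^ b * p.2 < 3 ^ b + 3 ^ b * p.2 := by omega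
      _ = 3 ^ b * (p.2 + 1) := by ring
      _ ≤ 3 ^ b * 3 ^ a := Nat.mul_le_mul_left _ hp.2
      _ = 3 ^ a * 3 ^ b := by ring
  · intro y _
    exact Nat.mod_add_div y (3 ^ b)
  · intro p hp
    rw [mem_product, mem_range, mem_range] at hp
    have e1 : (p.1 + 3 ^ b * p.2) % 3 ^ b = p.1 := by
      rw [Nat.add_mul_mod_self_left, Nat.mod_eq_of_lt hp.1]
    have e2 : (p.1 + 3 ^ b * p.2) / 3 ^ b = p.2 := by
      rw [Nat.add_mul_div_left _ _ hb, Nat.div_eq_of_lt hp.1, zero_add]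
    simp only [e1, e2]
  · intro y _
    simp only [Nat.mod_add_div]

/-- affine permutation of residues -/
theorem sum_perm {M : Type*} [AddCommMonoid M] (a L w : ℕ) (f : ℕ → M) :
    ∑ z ∈ range (3 ^ a), f ((w + 2 ^ L * z) % 3 ^ a) = ∑ z ∈ range (3 ^ a), f z := by
  have hpos : 0 < 3 ^ a := by positivity
  have hinj : Set.InjOn (fun z : ℕ => (w + 2 ^ L * z) % 3 ^ a) (range (3 ^ a) : Set ℕ) := by
    intro x hx y hy hxy
    simp only [coe_range, Set.mem_Iio] at hx hy hxy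
    have h1 : w + 2 ^ L * x ≡ w + 2 ^ L * y [MOD 3 ^ a] := hxy
    have h2 := Nat.ModEq.add_left_cancel' _ h1
    have h3 : x ≡ y [MOD 3 ^ a] := by
      apply Nat.ModEq.cancel_left_of_coprime _ h2
      exact Nat.Coprime.pow _ _ (by norm_num)
    exact Nat.ModEq.eq_of_lt_of_lt h3 hx hy
  have himg : (range (3 ^ a)).image (fun z : ℕ => (w + 2 ^ L * z) % 3 ^ a) = range (3 ^ a) := by
    apply Finset.eq_of_subset_of_card_le
    · intro x hx
      rw [mem_image] at hx
      obtain ⟨z, _, rfl⟩ := hx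
      exact mem_range.mpr (Nat.mod_lt _ hpos)
    · rw [Finset.card_image_of_injOn hinj]
  conv_rhs => rw [← himg]
  rw [Finset.sum_image hinj]

/-- description of the `(k + L)`-th iterate in terms of the splitting -/
theorem iter_comp (k L n y a b : ℕ) (hn : n < 2 ^ (k + L)) (ha : J k n = a) (hb : J L (T^[k] n) = b)
    (hy : y < 3 ^ (a + b)) :
    T^[k + L] n = y ↔ (T^[L] (T^[k] n % 2 ^ L) = y % 3 ^ b ∧
      T^[k] (n % 2 ^ k) = (T^[k] n % 2 ^ L + 2 ^ L * (y / 3 ^ b)) % 3 ^ a) := by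
  set u := n % 2 ^ k with hu
  set w := T^[k] n % 2 ^ L with hw
  set q := T^[k] n / 2 ^ L with hq
  have p2 : 0 < 2 ^ k := by positivity
  have p2L : 0 < 2 ^ L := by positivity
  have p3 : 0 < 3 ^ b := by positivity
  have hJw : J L w = b := by rw [hw, J_mod, hb]
  have hJu : J k u = a := by rw [hu, J_mod, ha]
  have e1 : w + 2 ^ L * q = T^[k] n := Nat.mod_add_div _ _
  have e2 : T^[k + L] n = T^[L] w + 3 ^ b * q := by
    rw [add_comm k L, Function.iterate_add_apply, ← e1, iter_add_mul, hJw]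
  have hTw : T^[L] w < 3 ^ b := by
    have := iter_lt L w (Nat.mod_lt _ p2L)
    rwa [hJw] at this
  have hTu : T^[k] u < 3 ^ a := by
    have := iter_lt k u (Nat.mod_lt _ p2)
    rwa [hJu] at this
  have e3 : T^[k] n = T^[k] u + 3 ^ a * (n / 2 ^ k) := by
    conv_lhs => rw [← Nat.mod_add_div n (2 ^ k)]
    rw [iter_add_mul, ← hu, hJu]
  have ht : n / 2 ^ k < 2 ^ L := Nat.div_lt_of_lt_mul (by rw [← pow_add]; exact hn)
  have hTn : T^[k] n < 2 ^ L * 3 ^ a := by
    rw [e3]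
    calc T^[k] u + 3 ^ a * (n / 2 ^ k) < 3 ^ a + 3 ^ a * (n / 2 ^ k) := by omega
      _ = 3 ^ a * (n / 2 ^ k + 1) := by ring
      _ ≤ 3 ^ a * 2 ^ L := Nat.mul_le_mul_left _ ht
      _ = 2 ^ L * 3 ^ a := by ring
  have hq3 : q < 3 ^ a := Nat.div_lt_of_lt_mul hTn
  have hyz : y / 3 ^ b < 3 ^ a := Nat.div_lt_of_lt_mul (by rw [← pow_add, add_comm b a]; exact hy)
  have hTnmod : T^[k] n % 3 ^ a = T^[k] u := by
    rw [e3, Nat.add_mul_mod_self_left, Nat.mod_eq_of_lt hTu]
  constructor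
  · intro h
    rw [e2] at h
    have f1 : y % 3 ^ b = T^[L] w := by
      rw [← h, Nat.add_mul_mod_self_left, Nat.mod_eq_of_lt hTw]
    have f2 : y / 3 ^ b = q := by
      rw [← h, Nat.add_mul_div_left _ _ p3, Nat.div_eq_of_lt hTw, zero_add]
    exact ⟨f1.symm, by rw [f2, e1, hTnmod]⟩
  · rintro ⟨h1, h2⟩
    rw [← hTnmod] at h2
    have h3 : T^[k] n ≡ w + 2 ^ L * (y / 3 ^ b) [MOD 3 ^ a] := h2
    rw [← e1] at h3
    have h4 := Nat.ModEq.add_left_cancel' _ h3
    have h5 : q ≡ y / 3 ^ b [MOD 3 ^ a] := by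
      apply Nat.ModEq.cancel_left_of_coprime _ h4
      exact Nat.Coprime.pow _ _ (by norm_num)
    have h6 : q = y / 3 ^ b := Nat.ModEq.eq_of_lt_of_lt h5 hq3 hyz
    rw [e2, h1, h6, Nat.mod_add_div]

/-- contribution of the last slice `b` -/
noncomputable def Fb (r : ℝ) (k L a b y : ℕ) : ℝ :=
  ∑ w ∈ slice L b, (if T^[L] w = y % 3 ^ b then P r L w else 0) *
    pm r k a ((w + 2 ^ L * (y / 3 ^ b)) % 3 ^ a)

theorem Fb_nonneg (r : ℝ) (h0 : 0 ≤ r) (h1 : r ≤ 1) (k L a b y : ℕ) : 0 ≤ Fb r k L a b y := by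
  apply Finset.sum_nonneg
  intro w _
  apply mul_nonneg _ (pm_nonneg r h0 h1 _ _ _)
  split_ifs
  · exact P_nonneg r h0 h1 _ _
  · exact le_rfl

theorem pm_comp (r : ℝ) (k L j y : ℕ) (hy : y < 3 ^ j) :
    pm r (k + L) j y = ∑ b ∈ range (L + 1), if b ≤ j then Fb r k L (j - b) b y else 0 := by
  have h := sum_split k L (fun u w => if J k u + J L w = j then
    (if T^[L] w = y % 3 ^ (J L w) then P r L w else 0) *
      (if T^[k] u = (w + 2 ^ L * (y / 3 ^ (J L w))) % 3 ^ (J k u) then P r k u else 0) else 0)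
  have e1 : pm r (k + L) j y = ∑ n ∈ range (2 ^ (k + L)), if J k (n % 2 ^ k) + J L (T^[k] n % 2 ^ L) = j then
      (if T^[L] (T^[k] n % 2 ^ L) = y % 3 ^ (J L (T^[k] n % 2 ^ L)) then P r L (T^[k] n % 2 ^ L) else 0) *
      (if T^[k] (n % 2 ^ k) = (T^[k] n % 2 ^ L + 2 ^ L * (y / 3 ^ (J L (T^[k] n % 2 ^ L)))) % 3 ^ (J k (n % 2 ^ k))
        then P r k (n % 2 ^ k) else 0) else 0 := by
    unfold pm slice
    rw [Finset.sum_filter]
    apply Finset.sum_congr rfl
    intro n hn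
    rw [mem_range] at hn
    rw [J_add, J_mod k n, J_mod L (T^[k] n), P_mod r L, P_mod r k, P_add]
    by_cases hj : J k n + J L (T^[k] n) = j
    · rw [if_pos hj, if_pos hj]
      have hc := iter_comp k L n y (J k n) (J L (T^[k] n)) hn rfl rfl (by rw [hj]; exact hy)
      by_cases hy2 : T^[k + L] n = y
      · rw [if_pos hy2]
        obtain ⟨g1, g2⟩ := hc.mp hy2
        rw [if_pos g1, if_pos g2]; ring
      · rw [if_neg hy2]
        by_cases g1 : T^[L] (T^[k] n % 2 ^ L) = y % 3 ^ (J L (T^[k] n))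
        · rw [if_pos g1]
          rw [if_neg (fun g2 => hy2 (hc.mpr ⟨g1, g2⟩))]; ring
        · rw [if_neg g1]; ring
    · rw [if_neg hj, if_neg hj]
  rw [e1, h]
  have e2 : ∀ b ∈ range (L + 1), (if b ≤ j then Fb r k L (j - b) b y else 0) =
      ∑ w ∈ slice L b, ∑ u ∈ range (2 ^ k), if J k u + J L w = j then
    (if T^[L] w = y % 3 ^ (J L w) then P r L w else 0) *
      (if T^[k] u = (w + 2 ^ L * (y / 3 ^ (J L w))) % 3 ^ (J k u) then P r k u else 0) else 0 := by
    intro b _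
    split_ifs with hb
    · unfold Fb
      apply Finset.sum_congr rfl
      intro w hw
      rw [slice_J hw]
      unfold pm slice
      rw [Finset.sum_filter, Finset.mul_sum]
      apply Finset.sum_congr rfl
      intro u _
      by_cases hj : J k u = j - b
      · have : J k u + b = j := by omega
        rw [if_pos hj, if_pos this, hj]
      · have : ¬ (J k u + b = j) := by omega
        rw [if_neg hj, if_neg this, mul_zero]
    · symm
      apply Finset.sum_eq_zero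
      intro w hw
      apply Finset.sum_eq_zero
      intro u _
      rw [slice_J hw, if_neg (by omega)]
  rw [Finset.sum_congr rfl e2, sum_slices, Finset.sum_comm]

theorem Fb_sum_le (r s : ℝ) (h0 : 0 ≤ r) (h1 : r ≤ 1) (hs : 0 ≤ s) (k L a b : ℕ) :
    ∑ y ∈ range (3 ^ (a + b)), (Fb r k L a b y) ^ (1 + s) ≤ qs r s L b * qs r s k a := by
  rw [sum_reindex]
  unfold qs
  rw [Finset.sum_mul]
  apply Finset.sum_le_sum
  intro x hx
  rw [mem_range] at hx
  have p3 : 0 < 3 ^ b := by positivity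
  have e1 : ∀ z ∈ range (3 ^ a), (Fb r k L a b (x + 3 ^ b * z)) ^ (1 + s) ≤
      (pm r L b x) ^ s * ∑ w ∈ slice L b, (if T^[L] w = x then P r L w else 0) *
        (pm r k a ((w + 2 ^ L * z) % 3 ^ a)) ^ (1 + s) := by
    intro z _
    have m1 : (x + 3 ^ b * z) % 3 ^ b = x := by
      rw [Nat.add_mul_mod_self_left, Nat.mod_eq_of_lt hx]
    have m2 : (x + 3 ^ b * z) / 3 ^ b = z := by
      rw [Nat.add_mul_div_left _ _ p3, Nat.div_eq_of_lt hx, zero_add]
    unfold Fb
    rw [m1, m2]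
    apply jensen_aux
    · intro w
      split_ifs
      · exact P_nonneg r h0 h1 _ _
      · exact le_rfl
    · intro w
      exact pm_nonneg r h0 h1 _ _ _
    · exact hs
  refine le_trans (Finset.sum_le_sum e1) ?_
  rw [← Finset.mul_sum, Finset.sum_comm]
  have e2 : ∀ w ∈ slice L b, ∑ z ∈ range (3 ^ a), (if T^[L] w = x then P r L w else 0) *
        (pm r k a ((w + 2 ^ L * z) % 3 ^ a)) ^ (1 + s) =
      (if T^[L] w = x then P r L w else 0) * ∑ z ∈ range (3 ^ a), (pm r k a z) ^ (1 + s) := by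
    intro w _
    rw [← Finset.mul_sum, sum_perm a L w (fun z => (pm r k a z) ^ (1 + s))]
  rw [Finset.sum_congr rfl e2, ← Finset.sum_mul]
  have e3 : ∑ w ∈ slice L b, (if T^[L] w = x then P r L w else 0) = pm r L b x := rfl
  rw [e3, ← mul_assoc]
  apply mul_le_mul_of_nonneg_right _ (Finset.sum_nonneg (fun z _ => Real.rpow_nonneg (pm_nonneg r h0 h1 _ _ _) _))
  rcases (pm_nonneg r h0 h1 L b x).eq_or_lt with h | h
  · rw [← h, mul_zero, Real.zero_rpow (by linarith)]
  · rw [add_comm 1 s, Real.rpow_add h, Real.rpow_one]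

theorem qs_zero (r s : ℝ) (hs : 0 ≤ s) (k j : ℕ) (hj : k < j) : qs r s k j = 0 := by
  unfold qs
  apply Finset.sum_eq_zero
  intro y _
  rw [pm_zero' r k j y hj, Real.zero_rpow (by linarith)]

theorem Q_submul (r s : ℝ) (h0 : 0 ≤ r) (h1 : r ≤ 1) (hs : 0 ≤ s) (k L : ℕ) :
    Q r s (k + L) ≤ ((L : ℝ) + 1) ^ s * (Q r s k * Q r s L) := by
  have e1 : ∀ j ∈ range (k + L + 1), qs r s (k + L) j ≤ ((L : ℝ) + 1) ^ s *
      ∑ b ∈ range (L + 1), if b ≤ j then qs r s L b * qs r s k (j - b) else 0 := by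
    intro j _
    unfold qs
    have e2 : ∀ y ∈ range (3 ^ j), (pm r (k + L) j y) ^ (1 + s) ≤ ((L : ℝ) + 1) ^ s *
        ∑ b ∈ range (L + 1), (if b ≤ j then Fb r k L (j - b) b y else 0) ^ (1 + s) := by
      intro y hy
      rw [pm_comp r k L j y (mem_range.mp hy)]
      have := Real.rpow_sum_le_const_mul_sum_rpow_of_nonneg (range (L + 1))
        (f := fun b => if b ≤ j then Fb r k L (j - b) b y else 0) (p := 1 + s) (by linarith)
        (fun b _ => by
          split_ifs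
          · exact Fb_nonneg r h0 h1 _ _ _ _ _
          · exact le_rfl)
      rw [card_range] at this
      have e4 : 1 + s - 1 = s := by ring
      rw [e4] at this
      push_cast at this
      exact this
    refine le_trans (Finset.sum_le_sum e2) ?_
    rw [← Finset.mul_sum, Finset.sum_comm]
    apply mul_le_mul_of_nonneg_left _ (by positivity)
    apply Finset.sum_le_sum
    intro b _
    split_ifs with hb
    · have := Fb_sum_le r s h0 h1 hs k L (j - b) b
      rw [Nat.sub_add_cancel hb] at this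
      exact this
    · rw [Finset.sum_const, Real.zero_rpow (by linarith), smul_zero]
  have e5 : Q r s (k + L) ≤ ((L : ℝ) + 1) ^ s *
      ∑ j ∈ range (k + L + 1), ∑ b ∈ range (L + 1), if b ≤ j then qs r s L b * qs r s k (j - b) else 0 := by
    rw [Finset.mul_sum]
    exact Finset.sum_le_sum e1
  refine le_trans e5 ?_
  apply mul_le_mul_of_nonneg_left _ (by positivity)
  rw [Finset.sum_comm]
  unfold Q
  rw [mul_comm (∑ j ∈ range (k + 1), qs r s k j), Finset.sum_mul]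
  apply Finset.sum_le_sum
  intro b hb
  have hbL : b ≤ L := by rw [mem_range] at hb; omega
  -- reindex
  have e6 : ∑ j ∈ range (k + L + 1), (if b ≤ j then qs r s L b * qs r s k (j - b) else 0) =
      ∑ i ∈ range (k + L + 1 - b), qs r s L b * qs r s k i := by
    have : k + L + 1 = b + (k + L + 1 - b) := by omega
    conv_lhs => rw [this]
    rw [Finset.sum_range_add]
    have z : ∑ j ∈ range b, (if b ≤ j then qs r s L b * qs r s k (j - b) else 0) = 0 := by
      apply Finset.sum_eq_zero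
      intro j hj
      rw [mem_range] at hj
      rw [if_neg (by omega)]
    rw [z, zero_add]
    apply Finset.sum_congr rfl
    intro i _
    rw [if_pos (by omega), Nat.add_sub_cancel_left]
  rw [e6, ← Finset.mul_sum]
  apply mul_le_mul_of_nonneg_left _ (qs_nonneg r s h0 h1 L b)
  apply le_of_eq
  symm
  apply Finset.sum_subset
  · apply range_subset_range.mpr; omega
  · intro i _ hi
    rw [mem_range] at hi
    exact qs_zero r s hs k i (by omega)

end Pool.Agent.Helper27
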