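import Pool.Agent.Helper27.Incr

set_option autoImplicit false

namespace Pool.Agent.Helper27

open Finset Real

/-- residues below `2^L` with exactly `b` odd steps -/
def slice (L b : ℕ) : Finset ℕ := (range (2 ^ L)).filter (fun w => J L w = b)

/-- weight of a slice -/
noncomputable def mass (r : ℝ) (L b : ℕ) : ℝ := ∑ w ∈ slice L b, P r L w

/-- entropy of a slice modulo `3^b` -/
noncomputable def se (r : ℝ) (L b : ℕ) : ℝ := ent (slice L b) (P r L) (c L) b

/-- `EL` -/
noncomputable def EL (r : ℝ) (L : ℕ) : ℝ := ∑ b ∈ range (L + 1), (se r L b - negMulLog (mass r L b))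

theorem P_nonneg (r : ℝ) (h0 : 0 ≤ r) (h1 : r ≤ 1) (k n : ℕ) : 0 ≤ P r k n := by
  induction k generalizing n with
  | zero => simp [P]
  | succ k ih =>
    rw [P]
    apply mul_nonneg _ (ih _)
    split_ifs
    · linarith
    · exact h0

theorem P_pos (r : ℝ) (h0 : 0 < r) (h1 : r < 1) (k n : ℕ) : 0 < P r k n := by
  induction k generalizing n with
  | zero => simp [P]
  | succ k ih =>
    rw [P]
    apply mul_pos _ (ih _)
    split_ifs
    · linarith
    · exact h0

theorem P_le_one (r : ℝ) (h0 : 0 ≤ r) (h1 : r ≤ 1) (k n : ℕ) : P r k n ≤ 1 := by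
  induction k generalizing n with
  | zero => simp [P]
  | succ k ih =>
    rw [P]
    have h2 := P_nonneg r h0 h1 k (T n)
    have h3 := ih (T n)
    split_ifs
    · nlinarith
    · nlinarith

theorem P_eq (r : ℝ) (k n : ℕ) : P r k n = r ^ (J k n) * (1 - r) ^ (k - J k n) := by
  induction k generalizing n with
  | zero => simp [P, J]
  | succ k ih =>
    have hJ := J_le k (T n)
    rw [P, J, ih]
    rcases Nat.mod_two_eq_zero_or_one n with h | h
    · rw [h]
      simp only [if_true, zero_add]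
      rw [Nat.sub_add_comm hJ, pow_succ]; ring
    · rw [h]
      have : k + 1 - (1 + J k (T n)) = k - J k (T n) := by omega
      rw [this, pow_add]
      simp [mul_assoc]

theorem sum_slices {M : Type*} [AddCommMonoid M] (L : ℕ) (F : ℕ → M) :
    ∑ b ∈ range (L + 1), ∑ w ∈ slice L b, F w = ∑ w ∈ range (2 ^ L), F w := by
  unfold slice
  apply Finset.sum_fiberwise_of_maps_to
  intro w _
  rw [mem_range]
  have := J_le L w
  omega

theorem sum_P_one (r : ℝ) : ∑ n ∈ range (2 ^ 1), P r 1 n = 1 := by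
  rw [pow_one, Finset.sum_range_succ, Finset.sum_range_succ, Finset.sum_range_zero]
  simp [P]

/-- generating function of the number of odd steps -/
theorem sum_P_pow (r s : ℝ) (k : ℕ) :
    ∑ n ∈ range (2 ^ k), P r k n * s ^ (J k n) = (1 - r + r * s) ^ k := by
  induction k with
  | zero => simp [P, J]
  | succ k ih =>
    have h := sum_split k 1 (fun u w => (P r k u * s ^ (J k u)) * (P r 1 w * s ^ (J 1 w)))
    have e : ∀ n ∈ range (2 ^ (k + 1)), P r (k + 1) n * s ^ (J (k + 1) n) =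
        (P r k (n % 2 ^ k) * s ^ (J k (n % 2 ^ k))) * (P r 1 (T^[k] n % 2 ^ 1) * s ^ (J 1 (T^[k] n % 2 ^ 1))) := by
      intro n _
      rw [P_mod, J_mod, P_mod, J_mod, P_add, J_add, pow_add]; ring
    rw [Finset.sum_congr rfl e, h]
    simp only [← Finset.mul_sum, ← Finset.sum_mul]
    rw [ih, pow_succ (1 - r + r * s)]
    congr 1
    have e2 : (2 : ℕ) ^ 1 = 2 := by norm_num
    simp only [e2]
    rw [Finset.sum_range_succ, Finset.sum_range_succ, Finset.sum_range_zero]
    simp [P, J]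

theorem sum_P (r : ℝ) (k : ℕ) : ∑ n ∈ range (2 ^ k), P r k n = 1 := by
  have := sum_P_pow r 1 k
  simp at this
  exact this

theorem mass_nonneg (r : ℝ) (h0 : 0 ≤ r) (h1 : r ≤ 1) (L b : ℕ) : 0 ≤ mass r L b :=
  Finset.sum_nonneg (fun _ _ => P_nonneg r h0 h1 _ _)

theorem sum_mass (r : ℝ) (L : ℕ) : ∑ b ∈ range (L + 1), mass r L b = 1 := by
  unfold mass
  rw [sum_slices, sum_P]

/-- decomposition of the law of `c (k + L)` along slices -/
theorem law_decomp (r : ℝ) (k L m : ℕ) (g : ZMod (3 ^ m)) :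
    law (range (2 ^ (k + L))) (P r (k + L)) (c (k + L)) m g =
      ∑ b ∈ range (L + 1), law (range (2 ^ k) ×ˢ slice L b) (fun x => P r k x.1 * P r L x.2)
        (fun x => 3 ^ b * c k x.1 + 2 ^ k * c L x.2) m g := by
  unfold law
  have h := sum_split k L (fun u w =>
    if ((3 ^ (J L w) * c k u + 2 ^ k * c L w : ℕ) : ZMod (3 ^ m)) = g then P r k u * P r L w else 0)
  have e : ∀ n ∈ range (2 ^ (k + L)), (if ((c (k + L) n : ℕ) : ZMod (3 ^ m)) = g then P r (k + L) n else 0) =
      if ((3 ^ (J L (T^[k] n % 2 ^ L)) * c k (n % 2 ^ k) + 2 ^ k * c L (T^[k] n % 2 ^ L) : ℕ) : ZMod (3 ^ m)) = g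
        then P r k (n % 2 ^ k) * P r L (T^[k] n % 2 ^ L) else 0 := by
    intro n _
    rw [P_mod, J_mod, P_mod, c_mod, c_mod, P_add, c_add]
  rw [Finset.sum_congr rfl e, h]
  simp only [Finset.sum_product]
  rw [Finset.sum_comm (s := range (L + 1))]
  apply Finset.sum_congr rfl
  intro u _
  rw [← sum_slices L]
  apply Finset.sum_congr rfl
  intro b _
  apply Finset.sum_congr rfl
  intro w hw
  have : J L w = b := (mem_filter.mp hw).2
  rw [this]

theorem negMulLog_add_le (x y : ℝ) (hx : 0 ≤ x) (hy : 0 ≤ y) :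
    negMulLog (x + y) ≤ negMulLog x + negMulLog y := by
  rcases hx.eq_or_lt with h | h
  · subst h; simp
  rcases hy.eq_or_lt with h' | h'
  · subst h'; simp
  unfold negMulLog
  have h1 : log x ≤ log (x + y) := Real.log_le_log h (by linarith)
  have h2 : log y ≤ log (x + y) := Real.log_le_log h' (by linarith)
  have := mul_le_mul_of_nonneg_left h1 hx
  have := mul_le_mul_of_nonneg_left h2 hy
  linarith

theorem negMulLog_sum_le {ι : Type*} (s : Finset ι) (f : ι → ℝ) (hf : ∀ i ∈ s, 0 ≤ f i) :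
    negMulLog (∑ i ∈ s, f i) ≤ ∑ i ∈ s, negMulLog (f i) := by
  classical
  induction s using Finset.induction_on with
  | empty => simp
  | insert i s hi ih =>
    rw [Finset.sum_insert hi, Finset.sum_insert hi]
    have h1 := ih (fun j hj => hf j (Finset.mem_insert_of_mem hj))
    have h2 := negMulLog_add_le (f i) (∑ j ∈ s, f j) (hf i (Finset.mem_insert_self _ _))
      (Finset.sum_nonneg (fun j hj => hf j (Finset.mem_insert_of_mem hj)))
    linarith

/-- entropy sum on the product set of a slice -/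
noncomputable def pe (r : ℝ) (k L b m : ℕ) : ℝ :=
  ent (range (2 ^ k) ×ˢ slice L b) (fun x => P r k x.1 * P r L x.2)
        (fun x => 3 ^ b * c k x.1 + 2 ^ k * c L x.2) m

/-- `E` -/
noncomputable def En (r : ℝ) (n k : ℕ) : ℝ := ent (range (2 ^ k)) (P r k) (c k) n

/-- increments of `E` -/
noncomputable def Dn (r : ℝ) (n k : ℕ) : ℝ := inc (range (2 ^ k)) (P r k) (c k) n

theorem Dn_nonneg (r : ℝ) (h0 : 0 ≤ r) (h1 : r ≤ 1) (n k : ℕ) : 0 ≤ Dn r n k :=
  inc_nonneg _ _ (fun _ _ => P_nonneg r h0 h1 _ _) _ _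

theorem Dn_le (r : ℝ) (h0 : 0 ≤ r) (h1 : r ≤ 1) (n k : ℕ) : Dn r n k ≤ log 3 := by
  have := inc_le (range (2 ^ k)) (P r k) (fun _ _ => P_nonneg r h0 h1 _ _) (c k) n
  rw [sum_P, one_mul] at this
  exact this

theorem En_eq_sum (r : ℝ) (n k : ℕ) : En r n k = ∑ m ∈ range n, Dn r m k := by
  have := sum_inc (range (2 ^ k)) (P r k) (c k) 0 n
  simp only [zero_add] at this
  rw [ent_zero, sum_P] at this
  simp at this
  unfold En Dn
  exact this.symm

/-- the entropy of a product slice at level `b` only sees the slice -/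
theorem pe_at (r : ℝ) (k L b m : ℕ) (hm : m ≤ b) :
    pe r k L b m = ent (slice L b) (P r L) (c L) m := by
  rw [← ent_mul_two_pow (slice L b) (P r L) (c L) m k]
  unfold pe ent
  apply Finset.sum_congr rfl
  intro g _
  congr 1
  unfold law
  rw [Finset.sum_product, Finset.sum_comm]
  apply Finset.sum_congr rfl
  intro w _
  have h3 : ((3 ^ b : ℕ) : ZMod (3 ^ m)) = 0 := by
    rw [ZMod.natCast_eq_zero_iff]
    exact pow_dvd_pow 3 hm
  have : ∀ u : ℕ, ((3 ^ b * c k u + 2 ^ k * c L w : ℕ) : ZMod (3 ^ m)) = ((2 ^ k * c L w : ℕ) : ZMod (3 ^ m)) := by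
    intro u
    rw [Nat.cast_add, Nat.cast_mul (3 ^ b), h3, zero_mul, zero_add]
  simp only [this]
  split_ifs
  · rw [← Finset.sum_mul, sum_P, one_mul]
  · simp

end Pool.Agent.Helper27
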