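import Pool.Agent.Helper27.Bound

set_option autoImplicit false

namespace Pool.Agent.Helper27

open Finset Real Filter Topology

theorem T_le_two (n : ℕ) (h : n ≤ 2) : T n ≤ 2 := by
  unfold T
  split_ifs <;> omega

theorem iter_le_two (k n : ℕ) (h : n ≤ 2) : T^[k] n ≤ 2 := by
  induction k with
  | zero => simpa using h
  | succ k ih => rw [Function.iterate_succ_apply']; exact T_le_two _ ih

theorem low_mono (i k n : ℕ) (hik : i ≤ k) (h : T^[i] n ≤ 2) : T^[k] n ≤ 2 := by
  obtain ⟨l, rfl⟩ := Nat.exists_eq_add_of_le hik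
  rw [add_comm, Function.iterate_add_apply]
  exact iter_le_two l _ h

/-- numbers below `2^m` which are at most `2` after `κ m log 2` steps -/
noncomputable def fastS (κ : ℝ) (m : ℕ) : Finset ℕ :=
  (range (2 ^ m)).filter (fun n => T^[⌊κ * (m * log 2)⌋₊] n ≤ 2)

/-- power saving for the fast numbers -/
def TB (κ : ℝ) : Prop := ∃ a : ℝ, 0 < a ∧ ∀ᶠ m : ℕ in atTop,
  ((fastS κ m).card : ℝ) ≤ exp (m * log 2 - a * m)

theorem TB_mono (κ κ' : ℝ) (h : κ ≤ κ') (hT : TB κ') : TB κ := by
  obtain ⟨a, ha, hev⟩ := hT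
  refine ⟨a, ha, hev.mono (fun m hm => le_trans ?_ hm)⟩
  have : (fastS κ m).card ≤ (fastS κ' m).card := by
    apply Finset.card_le_card
    intro n hn
    unfold fastS at hn ⊢
    rw [mem_filter] at hn ⊢
    refine ⟨hn.1, low_mono _ _ n ?_ hn.2⟩
    apply Nat.floor_mono
    apply mul_le_mul_of_nonneg_right h
    have : 0 < log 2 := Real.log_pos (by norm_num)
    positivity
  exact_mod_cast this

theorem TB_zero : TB 0 := by
  have hl2 : 0 < log 2 := Real.log_pos (by norm_num)
  refine ⟨log 2 / 2, by positivity, ?_⟩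
  have h1 := eventually_exp_le (log 2 / 2) (1 / 3) (by positivity) (by norm_num)
  filter_upwards [h1] with m hm
  have hc : (fastS 0 m).card ≤ 3 := by
    have : fastS 0 m ⊆ range 3 := by
      intro n hn
      unfold fastS at hn
      rw [mem_filter] at hn
      have h2 := hn.2
      simp at h2
      rw [mem_range]; omega
    calc (fastS 0 m).card ≤ (range 3).card := Finset.card_le_card this
      _ = 3 := card_range 3
  have hc' : ((fastS 0 m).card : ℝ) ≤ 3 := by exact_mod_cast hc
  refine le_trans hc' ?_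
  have h3 : exp (m * log 2 - log 2 / 2 * m) * exp (-(log 2 / 2 * m)) = 1 := by
    rw [← Real.exp_add]; simp; ring
  have h4 := Real.exp_pos (m * log 2 - log 2 / 2 * m)
  nlinarith

theorem pow_three_le (j M : ℕ) (h : (j : ℝ) * log 3 ≤ M * log 2) : 3 ^ j ≤ 2 ^ M := by
  have : (3 : ℝ) ^ j ≤ (2 : ℝ) ^ M := by
    rw [← Real.log_le_log_iff (by positivity) (by positivity), Real.log_pow, Real.log_pow]
    exact h
  exact_mod_cast this

theorem step (r : ℝ) (h0 : 0 < r) (h1 : r ≤ 1)
    (hr : r * log 3 ≤ negMulLog r + negMulLog (1 - r)) (κ : ℝ) (hκ : 0 ≤ κ) (hT : TB κ) :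
    ∃ a : ℝ, 0 < a ∧ ∀ᶠ m : ℕ in atTop,
      ∑ n ∈ range (2 ^ m), (if T^[m + ⌊κ * (r * m * log 3)⌋₊] n ≤ 2 then P r m n else 0) ≤
        exp (-(a * m)) := by
  have hl2 : 0 < log 2 := Real.log_pos (by norm_num)
  have hl3 : 0 < log 3 := Real.log_pos (by norm_num)
  obtain ⟨a0, ha0, hev0⟩ := hT
  -- normalise the saving
  set b := min (a0 / log 2) (1 / 2) with hb
  have hb0 : 0 < b := lt_min (by positivity) (by norm_num)
  have hb1 : b ≤ 1 / 2 := min_le_right _ _
  have hba : b * log 2 ≤ a0 := by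
    calc b * log 2 ≤ a0 / log 2 * log 2 := mul_le_mul_of_nonneg_right (min_le_left _ _) hl2.le
      _ = a0 := by field_simp
  set η := r * b / 2 with hη
  have hη0 : 0 < η := by positivity
  have hη2 : η ≤ 2 := by nlinarith
  obtain ⟨a1, ha1, hev1⟩ := hit_small r h0 h1 hr (b / 4) (by positivity)
  set M : ℕ → ℕ := fun m => ⌈(r + η) * m * log 3 / log 2⌉₊ with hM
  have hMtop : Tendsto M atTop atTop := by
    apply tendsto_nat_ceil_atTop.comp
    have e : (fun m : ℕ => (r + η) * (m : ℝ) * log 3 / log 2) =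
        fun m : ℕ => ((r + η) * log 3 / log 2) * (m : ℝ) := by funext m; ring
    rw [e]
    exact Tendsto.const_mul_atTop (by positivity) tendsto_natCast_atTop_atTop
  have hev2 := hMtop.eventually hev0
  have hev3 : ∀ᶠ m : ℕ in atTop, log 2 ≤ b / 4 * (r * log 3) * m := by
    have : Tendsto (fun m : ℕ => b / 4 * (r * log 3) * (m : ℝ)) atTop atTop :=
      Tendsto.const_mul_atTop (by positivity) tendsto_natCast_atTop_atTop
    exact this.eventually_ge_atTop _
  set a := min (η ^ 2 / 4) a1 / 2 with ha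
  have hm0 : 0 < min (η ^ 2 / 4) a1 := lt_min (by positivity) ha1
  have hapos : 0 < a := by positivity
  have hev4 := eventually_exp_le a (1 / 2) hapos (by norm_num)
  refine ⟨a, hapos, ?_⟩
  filter_upwards [hev1, hev2, hev3, hev4] with m h1m h2m h3m h4m
  have hm0' : (0:ℝ) ≤ m := Nat.cast_nonneg m
  have hMge : (r + η) * m * log 3 ≤ M m * log 2 := by
    have := Nat.le_ceil ((r + η) * m * log 3 / log 2)
    rw [div_le_iff₀ hl2] at this
    exact this
  have hMle : (M m : ℝ) * log 2 ≤ (r + η) * m * log 3 + log 2 := by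
    have := (Nat.ceil_lt_add_one (show 0 ≤ (r + η) * m * log 3 / log 2 by positivity)).le
    have := mul_le_mul_of_nonneg_right this hl2.le
    calc (M m : ℝ) * log 2 ≤ ((r + η) * m * log 3 / log 2 + 1) * log 2 := this
      _ = (r + η) * m * log 3 + log 2 := by field_simp
  -- the set
  set S := fastS κ (M m) with hS
  have hScard : (S.card : ℝ) ≤ exp ((1 - b / 4) * (r * m * log 3)) := by
    refine le_trans h2m ?_
    apply Real.exp_le_exp.mpr
    have hM0 : (0:ℝ) ≤ M m := Nat.cast_nonneg _
    have g1 : (M m : ℝ) * log 2 - a0 * M m ≤ (1 - b) * (M m * log 2) := by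
      nlinarith [mul_le_mul_of_nonneg_right hba hM0]
    have g2 : (1 - b) * ((M m : ℝ) * log 2) ≤ (1 - b) * ((r + η) * m * log 3 + log 2) :=
      mul_le_mul_of_nonneg_left hMle (by linarith)
    have g3 : (1 - b) * ((r + η) * m * log 3 + log 2) ≤ (1 - b / 2) * (r * m * log 3) + log 2 := by
      rw [hη]
      have : 0 ≤ r * m * log 3 := by positivity
      have hb2 : 0 ≤ b * log 2 := by positivity
      nlinarith [mul_nonneg (sq_nonneg b) this]
    nlinarith
  have hhit := h1m S hScard
  have hup := upper_tail r η h0.le h1 hη0.le hη2 m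
  have hsum : ∑ n ∈ range (2 ^ m), (if T^[m + ⌊κ * (r * m * log 3)⌋₊] n ≤ 2 then P r m n else 0) ≤
      ∑ n ∈ range (2 ^ m), (if (r + η) * m ≤ (J m n : ℝ) then P r m n else 0) + hit r m S := by
    unfold hit
    rw [← Finset.sum_add_distrib]
    apply Finset.sum_le_sum
    intro n hn
    have hP := P_nonneg r h0.le h1 m n
    by_cases hfast : T^[m + ⌊κ * (r * m * log 3)⌋₊] n ≤ 2
    · rw [if_pos hfast]
      by_cases hJ : (r + η) * m ≤ (J m n : ℝ)
      · rw [if_pos hJ]
        split_ifs <;> linarith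
      · have hmem : T^[m] n ∈ S := by
          rw [hS]
          unfold fastS
          rw [mem_filter, mem_range]
          constructor
          · have h5 := iter_lt m n (mem_range.mp hn)
            refine lt_of_lt_of_le h5 (pow_three_le _ _ ?_)
            push Not at hJ
            refine le_trans ?_ hMge
            exact mul_le_mul_of_nonneg_right hJ.le hl3.le
          · apply low_mono ⌊κ * (r * m * log 3)⌋₊
            · apply Nat.floor_mono
              apply mul_le_mul_of_nonneg_left _ hκ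
              refine le_trans ?_ hMge
              have : 0 ≤ η * m * log 3 := by positivity
              linarith
            · rw [← Function.iterate_add_apply, add_comm]
              exact hfast
        rw [if_neg hJ, if_pos hmem, zero_add]
    · rw [if_neg hfast]
      split_ifs <;> linarith
  refine le_trans hsum ?_
  have q1 : exp (-(η ^ 2 / 4 * m)) ≤ exp (-(2 * a * m)) := by
    apply Real.exp_le_exp.mpr
    have : 2 * a ≤ η ^ 2 / 4 := by rw [ha]; linarith [min_le_left (η ^ 2 / 4) a1]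
    have := mul_le_mul_of_nonneg_right this hm0'
    linarith
  have q2 : exp (-(a1 * m)) ≤ exp (-(2 * a * m)) := by
    apply Real.exp_le_exp.mpr
    have : 2 * a ≤ a1 := by rw [ha]; linarith [min_le_right (η ^ 2 / 4) a1]
    have := mul_le_mul_of_nonneg_right this hm0'
    linarith
  have q3 : exp (-(2 * a * m)) = exp (-(a * m)) * exp (-(a * m)) := by
    rw [← Real.exp_add]; congr 1; ring
  have q4 := Real.exp_pos (-(a * m))
  nlinarith

theorem P_half (m n : ℕ) : P (1 / 2) m n = exp (-(m * log 2)) := by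
  have : exp (-(m * log 2)) = (1 / 2 : ℝ) ^ m := by
    rw [Real.exp_neg, mul_comm, Real.exp_mul, Real.exp_log (by norm_num), Real.rpow_natCast]
    simp
  rw [this]
  induction m generalizing n with
  | zero => simp [P]
  | succ m ih =>
    rw [P, ih, pow_succ]
    · split_ifs <;> ring
    · rw [Real.exp_neg, mul_comm, Real.exp_mul, Real.exp_log (by norm_num), Real.rpow_natCast]
      simp

theorem half_cond : (1 / 2 : ℝ) * log 3 ≤ negMulLog (1 / 2) + negMulLog (1 - 1 / 2) := by
  have e : (1 : ℝ) - 1 / 2 = 1 / 2 := by norm_num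
  rw [e]
  unfold negMulLog
  rw [one_div, Real.log_inv]
  have h : log 3 ≤ log 4 := Real.log_le_log (by norm_num) (by norm_num)
  have h4 : log 4 = 2 * log 2 := by
    rw [show (4:ℝ) = 2 ^ 2 by norm_num, Real.log_pow]; norm_num
  rw [h4] at h
  linarith

theorem TB_step (κ : ℝ) (hκ : 0 ≤ κ) (hT : TB κ) : TB ((1 + κ * (1 / 2 * log 3)) / log 2) := by
  have hl2 : 0 < log 2 := Real.log_pos (by norm_num)
  have hl3 : 0 < log 3 := Real.log_pos (by norm_num)
  obtain ⟨a, ha, hev⟩ := step (1 / 2) (by norm_num) (by norm_num) half_cond κ hκ hT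
  refine ⟨a, ha, hev.mono (fun m hm => ?_)⟩
  have e1 : ⌊(1 + κ * (1 / 2 * log 3)) / log 2 * (m * log 2)⌋₊ = m + ⌊κ * (1 / 2 * m * log 3)⌋₊ := by
    have : (1 + κ * (1 / 2 * log 3)) / log 2 * (m * log 2) = κ * (1 / 2 * m * log 3) + (m : ℕ) := by
      field_simp; ring
    rw [this, Nat.floor_add_natCast (by positivity), add_comm]
  unfold fastS
  rw [e1]
  simp only [P_half] at hm
  rw [← Finset.sum_filter, Finset.sum_const, nsmul_eq_mul] at hm
  have h5 : exp (m * log 2) * exp (-(m * log 2)) = 1 := by rw [← Real.exp_add]; simp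
  have h6 := Real.exp_pos (m * log 2)
  generalize (((range (2 ^ m)).filter (fun n => T^[m + ⌊κ * (1 / 2 * m * log 3)⌋₊] n ≤ 2)).card : ℝ) = Cd at hm ⊢
  calc Cd = Cd * (exp (m * log 2) * exp (-(m * log 2))) := by rw [h5, mul_one]
    _ = Cd * exp (-(m * log 2)) * exp (m * log 2) := by ring
    _ ≤ exp (-(a * m)) * exp (m * log 2) := mul_le_mul_of_nonneg_right hm h6.le
    _ = exp (m * log 2 - a * m) := by rw [← Real.exp_add]; congr 1; ring

/-- the constant `2 / log (4/3)` -/
noncomputable def g1 : ℝ := ((1 / 2) * log (4 / 3))⁻¹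

theorem g1_pos : 0 < g1 := by
  have : 0 < log (4 / 3) := Real.log_pos (by norm_num)
  unfold g1; positivity

theorem g1_eq : g1 * log 2 = 1 + g1 * (1 / 2 * log 3) := by
  have h : 0 < log (4 / 3) := Real.log_pos (by norm_num)
  have h43 : log (4 / 3) = 2 * log 2 - log 3 := by
    rw [Real.log_div (by norm_num) (by norm_num), show (4:ℝ) = 2 ^ 2 by norm_num, Real.log_pow]
    norm_num
  have : g1 * (1 / 2 * log (4 / 3)) = 1 := by
    unfold g1; field_simp
  rw [h43] at this
  linarith

theorem TB_iter (i : ℕ) : TB (g1 * (1 - (log 3 / (2 * log 2)) ^ i)) := by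
  have hl2 : 0 < log 2 := Real.log_pos (by norm_num)
  have hl3 : 0 < log 3 := Real.log_pos (by norm_num)
  have hρ1 : log 3 / (2 * log 2) ≤ 1 := by
    rw [div_le_one (by positivity)]
    have h : log 3 ≤ log 4 := Real.log_le_log (by norm_num) (by norm_num)
    have h4 : log 4 = 2 * log 2 := by
      rw [show (4:ℝ) = 2 ^ 2 by norm_num, Real.log_pow]; norm_num
    linarith
  induction i with
  | zero => simpa using TB_zero
  | succ i ih =>
    have hpow : (log 3 / (2 * log 2)) ^ i ≤ 1 := pow_le_one₀ (by positivity) hρ1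
    have hκ : 0 ≤ g1 * (1 - (log 3 / (2 * log 2)) ^ i) := mul_nonneg g1_pos.le (by linarith)
    have := TB_step _ hκ ih
    have e : (1 + g1 * (1 - (log 3 / (2 * log 2)) ^ i) * (1 / 2 * log 3)) / log 2 =
        g1 * (1 - (log 3 / (2 * log 2)) ^ (i + 1)) := by
      rw [div_eq_iff hl2.ne', pow_succ]
      have h2 : log 3 / (2 * log 2) * log 2 = 1 / 2 * log 3 := by field_simp
      have h3 := g1_eq
      calc 1 + g1 * (1 - (log 3 / (2 * log 2)) ^ i) * (1 / 2 * log 3)
          = (1 + g1 * (1 / 2 * log 3)) - g1 * (log 3 / (2 * log 2)) ^ i * (1 / 2 * log 3) := by ring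
        _ = g1 * log 2 - g1 * (log 3 / (2 * log 2)) ^ i * (log 3 / (2 * log 2) * log 2) := by rw [h3, h2]
        _ = _ := by ring
    rw [e] at this
    exact this

theorem TB_all (κ : ℝ) (hκ : κ < g1) : TB κ := by
  have hl2 : 0 < log 2 := Real.log_pos (by norm_num)
  have hl3 : 0 < log 3 := Real.log_pos (by norm_num)
  have hρ1 : log 3 / (2 * log 2) < 1 := by
    rw [div_lt_one (by positivity)]
    have h : log 3 < log 4 := Real.log_lt_log (by norm_num) (by norm_num)
    have h4 : log 4 = 2 * log 2 := by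
      rw [show (4:ℝ) = 2 ^ 2 by norm_num, Real.log_pow]; norm_num
    linarith
  have ht : Tendsto (fun i : ℕ => g1 * (1 - (log 3 / (2 * log 2)) ^ i)) atTop (𝓝 (g1 * (1 - 0))) := by
    apply Tendsto.const_mul
    apply Tendsto.sub tendsto_const_nhds
    exact tendsto_pow_atTop_nhds_zero_of_lt_one (by positivity) hρ1
  rw [sub_zero, mul_one] at ht
  obtain ⟨i, hi⟩ := (ht.eventually (lt_mem_nhds hκ)).exists
  exact TB_mono _ _ hi.le (TB_iter i)

end Pool.Agent.Helper27
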